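import Pool.Agent.K9h87.FD.Stm

/-!
# Leaf A1: second moment of the number of directed open paths
-/

set_option autoImplicit false

open MeasureTheory ProbabilityTheory Finset Filter Topology
open scoped NNReal ENNReal

namespace K9h87.FD
namespace A1

variable {G : Type} {E : Type} [mE : MeasurableSpace E]

/-- The σ-algebra of the coordinates in `T`. -/
@[instance_reducible] def sig (T : Set G) : MeasurableSpace (G → E) :=
  ⨆ i ∈ T, MeasurableSpace.comap (fun ω : G → E => ω i) mE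

lemma sig_le (T : Set G) : (sig T : MeasurableSpace (G → E)) ≤ MeasurableSpace.pi :=
  iSup₂_le fun i _ => (measurable_pi_apply i).comap_le

lemma comap_le_sig {T : Set G} {i : G} (hi : i ∈ T) :
    MeasurableSpace.comap (fun ω : G → E => ω i) mE ≤ sig T :=
  le_iSup₂_of_le (f := fun i (_ : i ∈ T) => MeasurableSpace.comap (fun ω : G → E => ω i) mE)
    i hi le_rfl

lemma meas_ell {T : Set G} {i : G} (hi : i ∈ T) {u : E → ℝ} (hu : Measurable u) :
    Measurable[sig T] fun ω : G → E => u (ω i) := by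
  have : Measurable[MeasurableSpace.comap (fun ω : G → E => ω i) mE] fun ω : G → E => u (ω i) :=
    hu.comp (comap_measurable _)
  exact this.mono (comap_le_sig hi) le_rfl

lemma meas_Np [Group G] {φ : G → ℤ} (hφ : ∀ x y, φ (x * y) = φ x + φ y) {F : Finset G}
    (hF : ∀ h ∈ F, 1 ≤ φ h) {ℓ : E → G → ℝ} (hℓ : ∀ h, Measurable fun e => ℓ e h) (T : Set G) :
    ∀ (n : ℕ) (y : G), (0 < n → y ∈ T) → (∀ z, φ y < φ z → z ∈ T) →
      Measurable[sig T] fun ω : G → E => Np F ℓ ω n y := by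
  intro n
  induction n with
  | zero => intro y _ _; exact measurable_const
  | succ n ih =>
    intro y hy hz
    simp only [Np]
    refine Finset.measurable_sum F fun h hh => ?_
    have h1 : φ y < φ (y * h) := by rw [hφ]; have := hF h hh; omega
    exact (meas_ell (hy (Nat.succ_pos _)) (hℓ h)).mul
      (ih (y * h) (fun _ => hz _ h1) fun z hz' => hz z (h1.trans hz'))

lemma indep (m : Measure E) [IsProbabilityMeasure m] (x : G) {u : E → ℝ} (hu : Measurable u)
    {f : (G → E) → ℝ} (hf : Measurable[sig {x}ᶜ] f) :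
    ∫ ω, u (ω x) * f ω ∂(Measure.infinitePi fun _ : G => m) =
      (∫ e, u e ∂m) * ∫ ω, f ω ∂(Measure.infinitePi fun _ : G => m) := by
  have h1 : iIndepFun (fun (i : G) (ω : G → E) => ω i) (Measure.infinitePi fun _ : G => m) :=
    iIndepFun_infinitePi (P := fun _ : G => m) (X := fun _ e => e) fun _ => measurable_id
  have h2 := indep_iSup_of_disjoint (fun i => (measurable_pi_apply i).comap_le)
    ((iIndepFun_iff_iIndep _ _ _).1 h1) (S := {x}) (T := {x}ᶜ) disjoint_compl_right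
  have h3 : IndepFun (fun ω : G → E => u (ω x)) f (Measure.infinitePi fun _ : G => m) := by
    rw [IndepFun_iff_Indep]
    refine indep_of_indep_of_le_left (indep_of_indep_of_le_right h2 hf.comap_le) ?_
    exact (meas_ell (Set.mem_singleton x) hu).comap_le
  have hu' : Measurable fun ω : G → E => u (ω x) := hu.comp (measurable_pi_apply x)
  have hf' : Measurable f := hf.mono (sig_le _) le_rfl
  rw [h3.integral_fun_mul_eq_mul_integral hu'.aestronglyMeasurable hf'.aestronglyMeasurable]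
  congr 1
  have h4 := measurePreserving_eval_infinitePi (fun _ : G => m) x
  conv_rhs => rw [← h4.map_eq]
  rw [integral_map h4.measurable.aemeasurable hu.aestronglyMeasurable]

section main

variable [Group G] {φ : G → ℤ} {m : Measure E} [IsProbabilityMeasure m] {F : Finset G}
  {ℓ : E → G → ℝ} {Λ : ℝ}

omit mE in
lemma Np_nonneg (h0 : ∀ e h, 0 ≤ ℓ e h) (ω : G → E) : ∀ n x, 0 ≤ Np F ℓ ω n x := by
  intro n
  induction n with
  | zero => intro x; simp [Np]
  | succ n ih => intro x; exact Finset.sum_nonneg fun h _ => mul_nonneg (h0 _ _) (ih _)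

omit mE in
lemma Np_le (h0 : ∀ e h, 0 ≤ ℓ e h) (hΛ : ∀ e h, ℓ e h ≤ Λ) (ω : G → E) :
    ∀ n x, Np F ℓ ω n x ≤ (F.card * Λ) ^ n := by
  have hΛ0 : 0 ≤ Λ := (h0 (ω 1) 1).trans (hΛ _ _)
  intro n
  induction n with
  | zero => intro x; simp [Np]
  | succ n ih =>
    intro x
    calc Np F ℓ ω (n + 1) x = ∑ g ∈ F, ℓ (ω x) g * Np F ℓ ω n (x * g) := rfl
      _ ≤ ∑ _g ∈ F, Λ * (F.card * Λ) ^ n := Finset.sum_le_sum fun g _ =>
          mul_le_mul (hΛ _ _) (ih _) (Np_nonneg h0 ω _ _) hΛ0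
      _ = (F.card * Λ) ^ (n + 1) := by rw [Finset.sum_const, nsmul_eq_mul]; ring

omit [Group G] in
lemma int_bdd {f : (G → E) → ℝ} (hf : Measurable f) {c : ℝ} (hb : ∀ ω, |f ω| ≤ c) :
    Integrable f (Measure.infinitePi fun _ : G => m) :=
  Integrable.of_bound hf.aestronglyMeasurable c (Filter.Eventually.of_forall hb)

lemma meas_Np' (hφ : ∀ x y, φ (x * y) = φ x + φ y) (hF : ∀ h ∈ F, 1 ≤ φ h)
    (hℓ : ∀ h, Measurable fun e => ℓ e h) (n : ℕ) (y : G) :
    Measurable fun ω : G → E => Np F ℓ ω n y :=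
  (meas_Np hφ hF hℓ Set.univ n y (fun _ => trivial) fun _ _ => trivial).mono (sig_le _) le_rfl

lemma meas_Np_ne (hφ : ∀ x y, φ (x * y) = φ x + φ y) (hF : ∀ h ∈ F, 1 ≤ φ h)
    (hℓ : ∀ h, Measurable fun e => ℓ e h) (n : ℕ) {x y : G} (hxy : x ≠ y) (h : φ x ≤ φ y) :
    Measurable[sig {x}ᶜ] fun ω : G → E => Np F ℓ ω n y :=
  meas_Np hφ hF hℓ _ n y (fun _ => by simpa using hxy.symm) fun z hz => by
    rintro (rfl : z = x)
    omega

lemma meas_Np_mul (hφ : ∀ x y, φ (x * y) = φ x + φ y) (hF : ∀ h ∈ F, 1 ≤ φ h)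
    (hℓ : ∀ h, Measurable fun e => ℓ e h) (n : ℕ) (x : G) {h : G} (hh : h ∈ F) :
    Measurable[sig {x}ᶜ] fun ω : G → E => Np F ℓ ω n (x * h) := by
  have h1 : φ x < φ (x * h) := by rw [hφ]; have := hF h hh; omega
  refine meas_Np_ne hφ hF hℓ n ?_ h1.le
  intro h2
  rw [← h2] at h1
  exact lt_irrefl _ h1

/-- Expansion at `x`. -/
lemma expand (hφ : ∀ x y, φ (x * y) = φ x + φ y) (hF : ∀ h ∈ F, 1 ≤ φ h)
    (hℓ : ∀ h, Measurable fun e => ℓ e h) (h0 : ∀ e h, 0 ≤ ℓ e h) (hΛ : ∀ e h, ℓ e h ≤ Λ)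
    (n : ℕ) (x : G) {f : (G → E) → ℝ} (hf : Measurable[sig {x}ᶜ] f) {c : ℝ}
    (hb : ∀ ω, |f ω| ≤ c) :
    ∫ ω, Np F ℓ ω (n + 1) x * f ω ∂(Measure.infinitePi fun _ : G => m) =
      ∑ h ∈ F, (∫ e, ℓ e h ∂m) *
        ∫ ω, Np F ℓ ω n (x * h) * f ω ∂(Measure.infinitePi fun _ : G => m) := by
  have hf' : Measurable f := hf.mono (sig_le _) le_rfl
  have e1 : ∀ ω : G → E, Np F ℓ ω (n + 1) x * f ω =
      ∑ h ∈ F, ℓ (ω x) h * (Np F ℓ ω n (x * h) * f ω) := fun ω => by
    simp only [Np, Finset.sum_mul, mul_assoc]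
  simp only [e1]
  rw [integral_finsetSum]
  · exact Finset.sum_congr rfl fun h hh => indep m x (hℓ h)
      ((meas_Np_mul hφ hF hℓ n x hh).mul hf)
  · intro h hh
    refine int_bdd (c := Λ * ((F.card * Λ) ^ n * c))
      (((hℓ h).comp (measurable_pi_apply x)).mul ((meas_Np' hφ hF hℓ n _).mul hf')) fun ω => ?_
    have hΛ0 : 0 ≤ Λ := (h0 (ω 1) 1).trans (hΛ _ _)
    rw [abs_mul, abs_mul, abs_of_nonneg (h0 _ _), abs_of_nonneg (Np_nonneg h0 ω _ _)]
    exact mul_le_mul (hΛ _ _) (mul_le_mul (Np_le h0 hΛ ω _ _) (hb _) (abs_nonneg _)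
      (by positivity)) (mul_nonneg (Np_nonneg h0 ω _ _) (abs_nonneg _)) hΛ0

/-- Expansion of both factors at `x`. -/
lemma expand2 (hφ : ∀ x y, φ (x * y) = φ x + φ y) (hF : ∀ h ∈ F, 1 ≤ φ h)
    (hℓ : ∀ h, Measurable fun e => ℓ e h) (h0 : ∀ e h, 0 ≤ ℓ e h) (hΛ : ∀ e h, ℓ e h ≤ Λ)
    (n n' : ℕ) (x : G) :
    ∫ ω, Np F ℓ ω (n + 1) x * Np F ℓ ω (n' + 1) x ∂(Measure.infinitePi fun _ : G => m) =
      ∑ h ∈ F, ∑ h' ∈ F, (∫ e, ℓ e h * ℓ e h' ∂m) *
        ∫ ω, Np F ℓ ω n (x * h) * Np F ℓ ω n' (x * h')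
          ∂(Measure.infinitePi fun _ : G => m) := by
  have e1 : ∀ ω : G → E, Np F ℓ ω (n + 1) x * Np F ℓ ω (n' + 1) x =
      ∑ h ∈ F, ∑ h' ∈ F, (ℓ (ω x) h * ℓ (ω x) h') *
        (Np F ℓ ω n (x * h) * Np F ℓ ω n' (x * h')) := fun ω => by
    simp only [Np, Finset.sum_mul_sum]
    exact Finset.sum_congr rfl fun _ _ => Finset.sum_congr rfl fun _ _ => by ring
  have e2 : ∀ h ∈ F, ∀ h' ∈ F, Integrable (fun ω : G → E => (ℓ (ω x) h * ℓ (ω x) h') *
        (Np F ℓ ω n (x * h) * Np F ℓ ω n' (x * h'))) (Measure.infinitePi fun _ : G => m) := by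
    intro h _ h' _
    refine int_bdd (c := (Λ * Λ) * ((F.card * Λ) ^ n * (F.card * Λ) ^ n'))
      ((((hℓ h).comp (measurable_pi_apply x)).mul ((hℓ h').comp (measurable_pi_apply x))).mul
        ((meas_Np' hφ hF hℓ n _).mul (meas_Np' hφ hF hℓ n' _))) fun ω => ?_
    have hΛ0 : 0 ≤ Λ := (h0 (ω 1) 1).trans (hΛ _ _)
    have n1 := Np_nonneg (F := F) h0 ω n (x * h)
    have n2 := Np_nonneg (F := F) h0 ω n' (x * h')
    rw [abs_of_nonneg (mul_nonneg (mul_nonneg (h0 _ _) (h0 _ _)) (mul_nonneg n1 n2))]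
    exact mul_le_mul (mul_le_mul (hΛ _ _) (hΛ _ _) (h0 _ _) hΛ0)
      (mul_le_mul (Np_le h0 hΛ ω _ _) (Np_le h0 hΛ ω _ _) n2 (by positivity))
      (mul_nonneg n1 n2) (by positivity)
  simp only [e1]
  rw [integral_finsetSum _ fun h hh => integrable_finsetSum _ fun h' hh' => e2 h hh h' hh']
  refine Finset.sum_congr rfl fun h hh => ?_
  rw [integral_finsetSum _ fun h' hh' => e2 h hh h' hh']
  exact Finset.sum_congr rfl fun h' hh' => indep m x ((hℓ h).mul (hℓ h'))
    ((meas_Np_mul hφ hF hℓ n x hh).mul (meas_Np_mul hφ hF hℓ n' x hh'))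

lemma mean (hφ : ∀ x y, φ (x * y) = φ x + φ y) (hF : ∀ h ∈ F, 1 ≤ φ h)
    (hℓ : ∀ h, Measurable fun e => ℓ e h) (h0 : ∀ e h, 0 ≤ ℓ e h) (hΛ : ∀ e h, ℓ e h ≤ Λ)
    (h1 : ∑ h ∈ F, ∫ e, ℓ e h ∂m = 1) :
    ∀ (n : ℕ) (x : G), ∫ ω, Np F ℓ ω n x ∂(Measure.infinitePi fun _ : G => m) = 1 := by
  intro n
  induction n with
  | zero => intro x; simp [Np]
  | succ n ih =>
    intro x
    have := expand (m := m) hφ hF hℓ h0 hΛ n x (f := fun _ => (1 : ℝ)) measurable_const (c := 1)
      (fun _ => by simp)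
    simp only [mul_one, ih] at this
    rw [this, h1]

end main

theorem main : S_A1 := by
  intro G _ φ E _ m _ F ℓ μ g Δ Λ K hφ hF hℓ h0 hΛ hμ hμ1 hK hΔ hg0 hg1 hgx hgy hgD
  have hmean := mean (m := m) hφ hF hℓ h0 hΛ (by rw [← hμ1]; exact Finset.sum_congr rfl hμ)
  have hμ0 : ∀ h ∈ F, 0 ≤ μ h := fun h hh => by
    rw [← hμ h hh]; exact integral_nonneg fun e => h0 e h
  set b := max 1 (K / (1 - Δ)) with hb
  have hb1 : 1 ≤ b := le_max_left _ _
  have hb2 : K + b * Δ ≤ b := by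
    have h2 : K / (1 - Δ) ≤ b := le_max_right _ _
    rw [div_le_iff₀ (by linarith)] at h2
    linarith
  have key : ∀ N n n' : ℕ, n + n' = N → ∀ x y : G,
      ∫ ω, Np F ℓ ω n x * Np F ℓ ω n' y ∂(Measure.infinitePi fun _ : G => m) ≤
        1 + b * g n n' x y ∧
      (x = y → ∫ ω, Np F ℓ ω n x * Np F ℓ ω n' y ∂(Measure.infinitePi fun _ : G => m) ≤ b) := by
    intro N
    induction N using Nat.strong_induction_on with
    | _ N ih =>
      intro n n' hn x y
      have hgxy := mul_nonneg (zero_le_one.trans hb1) (hg0 n n' x y)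
      rcases n with _ | n
      · simp only [Np, one_mul, hmean]
        exact ⟨by linarith, fun _ => hb1⟩
      rcases n' with _ | n'
      · simp only [Np, mul_one]
        have := hmean (n + 1) x
        simp only [Np] at this
        rw [this]
        exact ⟨by linarith, fun _ => hb1⟩
      by_cases hxy : x = y
      · subst hxy
        have h3 : ∫ ω, Np F ℓ ω (n + 1) x * Np F ℓ ω (n' + 1) x
            ∂(Measure.infinitePi fun _ : G => m) ≤ b := by
          rw [expand2 hφ hF hℓ h0 hΛ]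
          refine le_trans ?_ hb2
          calc ∑ h ∈ F, ∑ h' ∈ F, (∫ e, ℓ e h * ℓ e h' ∂m) *
                ∫ ω, Np F ℓ ω n (x * h) * Np F ℓ ω n' (x * h')
                  ∂(Measure.infinitePi fun _ : G => m)
              ≤ ∑ h ∈ F, ∑ h' ∈ F, (∫ e, ℓ e h * ℓ e h' ∂m) *
                  (1 + b * g n n' (x * h) (x * h')) :=
                Finset.sum_le_sum fun h _ => Finset.sum_le_sum fun h' _ =>
                  mul_le_mul_of_nonneg_left
                    (ih (n + n') (by omega) n n' rfl (x * h) (x * h')).1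
                    (integral_nonneg fun e => mul_nonneg (h0 _ _) (h0 _ _))
            _ = (∑ h ∈ F, ∑ h' ∈ F, ∫ e, ℓ e h * ℓ e h' ∂m) +
                b * ∑ h ∈ F, ∑ h' ∈ F, (∫ e, ℓ e h * ℓ e h' ∂m) *
                  g n n' (x * h) (x * h') := by
                simp only [Finset.mul_sum, ← Finset.sum_add_distrib]
                exact Finset.sum_congr rfl fun _ _ => Finset.sum_congr rfl fun _ _ => by ring
            _ ≤ K + b * Δ := add_le_add hK
                (mul_le_mul_of_nonneg_left (hgD n n' x) (zero_le_one.trans hb1))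
        refine ⟨h3.trans ?_, fun _ => h3⟩
        have := mul_le_mul_of_nonneg_left (hg1 (n + 1) (n' + 1) x) (zero_le_one.trans hb1)
        linarith
      · refine ⟨?_, fun h => absurd h hxy⟩
        rcases le_total (φ x) (φ y) with hle | hle
        · rw [expand hφ hF hℓ h0 hΛ n x (meas_Np_ne hφ hF hℓ (n' + 1) hxy hle)
            (c := (F.card * Λ) ^ (n' + 1)) fun ω => by
              rw [abs_of_nonneg (Np_nonneg h0 ω _ _)]; exact Np_le h0 hΛ ω _ _]
          calc ∑ h ∈ F, (∫ e, ℓ e h ∂m) * ∫ ω, Np F ℓ ω n (x * h) * Np F ℓ ω (n' + 1) y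
                  ∂(Measure.infinitePi fun _ : G => m)
              ≤ ∑ h ∈ F, μ h * (1 + b * g n (n' + 1) (x * h) y) :=
                Finset.sum_le_sum fun h hh => by
                  rw [hμ h hh]
                  exact mul_le_mul_of_nonneg_left
                    (ih (n + (n' + 1)) (by omega) n (n' + 1) rfl (x * h) y).1 (hμ0 h hh)
            _ = 1 + b * ∑ h ∈ F, μ h * g n (n' + 1) (x * h) y := by
                conv_rhs => rw [← hμ1, Finset.mul_sum, ← Finset.sum_add_distrib]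
                exact Finset.sum_congr rfl fun _ _ => by ring
            _ ≤ 1 + b * g (n + 1) (n' + 1) x y := by
                have := mul_le_mul_of_nonneg_left (hgx n (n' + 1) x y hxy hle)
                  (zero_le_one.trans hb1)
                linarith
        · simp only [mul_comm (Np F ℓ _ (n + 1) x)]
          rw [expand hφ hF hℓ h0 hΛ n' y (meas_Np_ne hφ hF hℓ (n + 1) (Ne.symm hxy) hle)
            (c := (F.card * Λ) ^ (n + 1)) fun ω => by
              rw [abs_of_nonneg (Np_nonneg h0 ω _ _)]; exact Np_le h0 hΛ ω _ _]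
          calc ∑ h ∈ F, (∫ e, ℓ e h ∂m) * ∫ ω, Np F ℓ ω n' (y * h) * Np F ℓ ω (n + 1) x
                  ∂(Measure.infinitePi fun _ : G => m)
              ≤ ∑ h ∈ F, μ h * (1 + b * g (n + 1) n' x (y * h)) :=
                Finset.sum_le_sum fun h hh => by
                  rw [hμ h hh]
                  refine mul_le_mul_of_nonneg_left ?_ (hμ0 h hh)
                  have := (ih (n + 1 + n') (by omega) (n + 1) n' rfl x (y * h)).1
                  simpa only [mul_comm (Np F ℓ _ (n + 1) x)] using this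
            _ = 1 + b * ∑ h ∈ F, μ h * g (n + 1) n' x (y * h) := by
                conv_rhs => rw [← hμ1, Finset.mul_sum, ← Finset.sum_add_distrib]
                exact Finset.sum_congr rfl fun _ _ => by ring
            _ ≤ 1 + b * g (n + 1) (n' + 1) x y := by
                have := mul_le_mul_of_nonneg_left (hgy (n + 1) n' x y hxy hle)
                  (zero_le_one.trans hb1)
                linarith
  intro n
  refine ⟨hmean n 1, ?_⟩
  simp only [sq]
  exact (key _ n n rfl 1 1).2 rfl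

end A1

/-- Leaf A1. -/
theorem a1 : S_A1 := A1.main

end K9h87.FD
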