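import Pool.Agent.K9h87.FD.Basic

/-!
# Leaf A2: the Green function of two directed walks
-/

set_option autoImplicit false

open MeasureTheory ProbabilityTheory Finset Filter Topology
open scoped NNReal ENNReal
open MonoidAlgebra

namespace K9h87.FD
namespace A2

variable {G : Type} [Group G]

lemma step {μ : MonoidAlgebra ℝ G} (x : G) (i : ℕ) (f : MonoidAlgebra ℝ G) :
    ∑ h ∈ μ.coeff.support, μ.coeff h * ip (single (x * h) 1 * μ ^ i) f =
      ip (single x 1 * μ ^ (i + 1)) f := by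
  have h1 : single x (1 : ℝ) * μ ^ (i + 1) =
      ∑ h ∈ μ.coeff.support, μ.coeff h • (single (x * h) 1 * μ ^ i) := by
    have h0 : single x (1 : ℝ) * μ =
        ∑ h ∈ μ.coeff.support, μ.coeff h • single (x * h) (1 : ℝ) := by
      conv_lhs => rw [eq_sum_single μ]
      rw [Finset.mul_sum]
      refine Finset.sum_congr rfl fun h _ => ?_
      rw [single_mul_single, one_mul, smul_single, smul_eq_mul, mul_one]
    rw [pow_succ', ← mul_assoc, h0, Finset.sum_mul]
    exact Finset.sum_congr rfl fun h _ => smul_mul_assoc _ _ _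
  rw [h1, ip_sum_left]
  exact Finset.sum_congr rfl fun h _ => (ip_smul_left _ _ _).symm

lemma term_nonneg {μ : MonoidAlgebra ℝ G} (hμ : IsProb μ) (x y : G) (i j : ℕ) :
    0 ≤ ip (single x 1 * μ ^ i) (single y 1 * μ ^ j) :=
  ip_nonneg ((isProb_single x).mul (hμ.pow i)).1 ((isProb_single y).mul (hμ.pow j)).1

lemma Gr_comm (μ : MonoidAlgebra ℝ G) (n n' : ℕ) (x y : G) : Gr μ n n' x y = Gr μ n' n y x := by
  unfold Gr
  rw [Finset.sum_comm]
  exact Finset.sum_congr rfl fun _ _ => Finset.sum_congr rfl fun _ _ => ip_comm _ _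

lemma rec {μ : MonoidAlgebra ℝ G} (hμ : IsProb μ) (n n' : ℕ) (x y : G) :
    ∑ h ∈ μ.coeff.support, μ.coeff h * Gr μ n n' (x * h) y ≤ Gr μ (n + 1) n' x y := by
  have h1 : ∑ h ∈ μ.coeff.support, μ.coeff h * Gr μ n n' (x * h) y =
      ∑ i ∈ range (n + 1), ∑ j ∈ range (n' + 1),
        ip (single x 1 * μ ^ (i + 1)) (single y 1 * μ ^ j) := by
    unfold Gr
    simp only [Finset.mul_sum]
    rw [Finset.sum_comm]
    refine Finset.sum_congr rfl fun i _ => ?_
    rw [Finset.sum_comm]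
    exact Finset.sum_congr rfl fun j _ => step x i _
  rw [h1]
  unfold Gr
  rw [Finset.sum_range_succ' _ (n + 1)]
  exact le_add_of_nonneg_right (Finset.sum_nonneg fun j _ => term_nonneg hμ x y 0 j)

lemma sum_shift (a : ℕ → ℝ) (n : ℕ) : ∑ k ∈ Icc 1 n, a k = ∑ i ∈ range n, a (i + 1) := by
  induction n with
  | zero => simp
  | succ n ih => rw [Finset.sum_Icc_succ_top (by omega), ih, Finset.sum_range_succ]

lemma norm_term (μ : MonoidAlgebra ℝ G) (x : G) (i : ℕ) :
    √(ip (single x 1 * μ ^ i) (single x 1 * μ ^ i)) = √(ip (μ ^ i) (μ ^ i)) := by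
  rw [ip_single_mul]

lemma bound {μ : MonoidAlgebra ℝ G} {T : ℝ}
    (hT : ∀ n, ∑ k ∈ Icc 1 n, √(ip (μ ^ k) (μ ^ k)) ≤ T) (n n' : ℕ) (x y : G) :
    Gr μ n n' x y ≤ ip (single x 1) (single y 1) + 2 * T + T ^ 2 := by
  set a : ℕ → ℝ := fun k => √(ip (μ ^ k) (μ ^ k)) with ha
  have ha0 : ∀ k, 0 ≤ a k := fun k => Real.sqrt_nonneg _
  have ha1 : a 0 = 1 := by
    simp only [ha, pow_zero]
    rw [show (1 : MonoidAlgebra ℝ G) = single 1 1 from rfl, ip_single_left]
    simp
  have ht : ∀ i j, ip (single x 1 * μ ^ i) (single y 1 * μ ^ j) ≤ a i * a j := fun i j => by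
    refine (ip_le _ _).trans_eq ?_
    rw [norm_term, norm_term]
  have hT' : ∀ n, ∑ i ∈ range n, a (i + 1) ≤ T := fun n => by rw [← sum_shift]; exact hT n
  have hT0 : ∀ n, 0 ≤ ∑ i ∈ range n, a (i + 1) := fun n => Finset.sum_nonneg fun _ _ => ha0 _
  have e1 : Gr μ n n' x y ≤ (∑ i ∈ range n, a (i + 1)) * (∑ j ∈ range n', a (j + 1)) +
      (∑ i ∈ range n, a (i + 1)) + ((∑ j ∈ range n', a (j + 1)) +
        ip (single x 1) (single y 1)) := by
    unfold Gr
    rw [Finset.sum_range_succ' _ n]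
    refine add_le_add ?_ ?_
    · rw [Finset.sum_mul, ← Finset.sum_add_distrib]
      refine Finset.sum_le_sum fun i _ => ?_
      rw [Finset.sum_range_succ' _ n', Finset.mul_sum]
      refine add_le_add (Finset.sum_le_sum fun j _ => ht _ _) ?_
      simpa [ha1] using ht (i + 1) 0
    · rw [Finset.sum_range_succ' _ n']
      refine add_le_add (Finset.sum_le_sum fun j _ => ?_) (by simp)
      simpa [ha1] using ht 0 (j + 1)
  have e2 := mul_le_mul (hT' n) (hT' n') (hT0 n') ((hT0 n).trans (hT' n))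
  have e3 := hT' n
  have e4 := hT' n'
  nlinarith

end A2

/-- Leaf A2. -/
theorem a2 : S_A2 := by
  intro G _ φ μ T _ hμ _ hT
  refine ⟨fun n n' x y => Finset.sum_nonneg fun i _ => Finset.sum_nonneg fun j _ =>
    A2.term_nonneg hμ x y i j, fun n n' x => ?_, fun n n' x y _ _ => A2.rec hμ n n' x y,
    fun n n' x y _ _ => ?_, fun n n' x y => ⟨?_, ?_⟩⟩
  · have h1 : ip (single x 1 * μ ^ 0) (single x 1 * μ ^ 0) = 1 := by
      simp [ip_single_left]
    refine h1.symm.le.trans (le_trans ?_ (Finset.single_le_sum (f := fun i =>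
      ∑ j ∈ range (n' + 1), ip (single x 1 * μ ^ i) (single x 1 * μ ^ j))
        (fun i _ => Finset.sum_nonneg fun j _ => A2.term_nonneg hμ x x i j)
        (Finset.mem_range.2 (Nat.succ_pos n))))
    exact Finset.single_le_sum (f := fun j => ip (single x 1 * μ ^ 0) (single x 1 * μ ^ j))
      (fun j _ => A2.term_nonneg hμ x x 0 j) (Finset.mem_range.2 (Nat.succ_pos n'))
  · simp only [A2.Gr_comm μ _ _ x]
    exact A2.rec hμ n' n y x
  · rintro rfl
    refine (A2.bound hT n n' x x).trans_eq ?_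
    simp [ip_single_left]
  · intro hxy
    refine (A2.bound hT n n' x y).trans_eq ?_
    rw [ip_single_left]
    simp [hxy.symm]

end K9h87.FD
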