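import Pool.Agent.K9h87.FD.Stm

set_option autoImplicit false

/-!
Leaf A3 of the project FD (helper87): the second moment method and compactness (by helper32).
-/

open MeasureTheory ProbabilityTheory Finset Filter Topology
open scoped NNReal ENNReal

namespace K9h87.FD

section A3

variable {G : Type} [Group G] {E : Type} {F : Finset G} {ℓ : E → G → ℝ}

lemma Np_nonneg (h0 : ∀ e h, 0 ≤ ℓ e h) (ω : G → E) (n : ℕ) (x : G) : 0 ≤ Np F ℓ ω n x := by
  induction n generalizing x with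
  | zero => simp [Np]
  | succ n ih => exact Finset.sum_nonneg fun g _ => mul_nonneg (h0 _ _) (ih _)

lemma Np_pos_succ (h0 : ∀ e h, 0 ≤ ℓ e h) {ω : G → E} {n : ℕ} {x : G}
    (h : 0 < Np F ℓ ω (n + 1) x) : ∃ g ∈ F, 0 < ℓ (ω x) g ∧ 0 < Np F ℓ ω n (x * g) := by
  by_contra hc
  push Not at hc
  refine absurd h (not_lt.2 (Finset.sum_nonpos fun g hg => ?_))
  rcases (h0 (ω x) g).eq_or_lt with h1 | h1
  · rw [← h1, zero_mul]
  · exact mul_nonpos_of_nonneg_of_nonpos h1.le (hc g hg h1)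

lemma Np_pos_of (h0 : ∀ e h, 0 ≤ ℓ e h) {ω : G → E} {n : ℕ} {x g : G} (hg : g ∈ F)
    (h1 : 0 < ℓ (ω x) g) (h2 : 0 < Np F ℓ ω n (x * g)) : 0 < Np F ℓ ω (n + 1) x := by
  have : ℓ (ω x) g * Np F ℓ ω n (x * g) ≤ Np F ℓ ω (n + 1) x :=
    Finset.single_le_sum (f := fun g => ℓ (ω x) g * Np F ℓ ω n (x * g))
      (fun g _ => mul_nonneg (h0 _ _) (Np_nonneg h0 _ _ _)) hg
  exact lt_of_lt_of_le (mul_pos h1 h2) this

lemma Np_pos_pred (h0 : ∀ e h, 0 ≤ ℓ e h) {ω : G → E} {n : ℕ} {x : G}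
    (h : 0 < Np F ℓ ω (n + 1) x) : 0 < Np F ℓ ω n x := by
  induction n generalizing x with
  | zero => simp [Np]
  | succ n ih =>
    obtain ⟨g, hg, h1, h2⟩ := Np_pos_succ h0 h
    exact Np_pos_of h0 hg h1 (ih h2)

lemma Np_le {Λ : ℝ} (h0 : ∀ e h, 0 ≤ ℓ e h) (hΛ : ∀ e h, ℓ e h ≤ Λ) (ω : G → E) (n : ℕ) (x : G) :
    Np F ℓ ω n x ≤ (F.card * |Λ|) ^ n := by
  induction n generalizing x with
  | zero => simp [Np]
  | succ n ih =>
    have hb : 0 ≤ (F.card * |Λ|) ^ n := by positivity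
    calc Np F ℓ ω (n + 1) x ≤ ∑ g ∈ F, |Λ| * (F.card * |Λ|) ^ n :=
          Finset.sum_le_sum fun g _ =>
            mul_le_mul ((hΛ _ _).trans (le_abs_self _)) (ih _) (Np_nonneg h0 _ _ _) (abs_nonneg _)
      _ = (F.card * |Λ|) ^ (n + 1) := by
          rw [Finset.sum_const, nsmul_eq_mul]; ring

lemma Np_meas [MeasurableSpace E] (hm : ∀ h, Measurable fun e => ℓ e h) (n : ℕ) (x : G) :
    Measurable fun ω : G → E => Np F ℓ ω n x := by
  induction n generalizing x with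
  | zero => simp only [Np]; exact measurable_const
  | succ n ih =>
    simp only [Np]
    exact Finset.measurable_sum _ fun g _ => ((hm g).comp (measurable_pi_apply x)).mul (ih _)

lemma Np_path (φ : G → ℤ) (hφ : ∀ x y, φ (x * y) = φ x + φ y) (hF : ∀ h ∈ F, 1 ≤ φ h)
    (h0 : ∀ e h, 0 ≤ ℓ e h) {ω : G → E} {n : ℕ} {x : G} (h : 0 < Np F ℓ ω n x) :
    ∃ y, Relation.ReflTransGen (fun x y => ∃ h ∈ F, 0 < ℓ (ω x) h ∧ y = x * h) x y ∧
      φ x + n ≤ φ y := by
  induction n generalizing x with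
  | zero => exact ⟨x, Relation.ReflTransGen.refl, by simp⟩
  | succ n ih =>
    obtain ⟨g, hg, h1, h2⟩ := Np_pos_succ h0 h
    obtain ⟨y, hy, hy'⟩ := ih h2
    refine ⟨y, Relation.ReflTransGen.head ⟨g, hg, h1, rfl⟩ hy, ?_⟩
    have := hF g hg
    rw [hφ] at hy'
    push_cast
    linarith

end A3

theorem a3 : S_A3 := by
  intro G _ φ E _ m _ F ℓ Λ b hφ hF hm h0 hΛ hb hN
  set P : Measure (G → E) := Measure.infinitePi fun _ : G => m with hP
  have : IsProbabilityMeasure P := by rw [hP]; infer_instance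
  set A : ℕ → Set (G → E) := fun n => {ω | 0 < Np F ℓ ω n 1} with hA
  have hAm : ∀ n, MeasurableSet (A n) := fun n =>
    measurableSet_lt measurable_const (Np_meas hm n 1)
  have hanti : Antitone A := antitone_nat_of_succ_le fun n ω hω => Np_pos_pred h0 hω
  have hint : ∀ n, Integrable (fun ω => Np F ℓ ω n 1) P := fun n =>
    Integrable.of_bound (Np_meas hm n 1).aestronglyMeasurable ((F.card * |Λ|) ^ n)
      (Eventually.of_forall fun ω => by
        rw [Real.norm_eq_abs, abs_of_nonneg (Np_nonneg h0 _ _ _)]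
        exact Np_le h0 hΛ _ _ _)
  have hint2 : ∀ n, Integrable (fun ω => (Np F ℓ ω n 1) ^ 2) P := fun n =>
    Integrable.of_bound ((Np_meas hm n 1).pow_const 2).aestronglyMeasurable
      (((F.card * |Λ|) ^ n) ^ 2)
      (Eventually.of_forall fun ω => by
        rw [Real.norm_eq_abs, abs_of_nonneg (sq_nonneg _)]
        exact pow_le_pow_left₀ (Np_nonneg h0 _ _ _) (Np_le h0 hΛ _ _ _) 2)
  have hAn : ∀ n, ENNReal.ofReal (1 / b) ≤ P (A n) := by
    intro n
    have h1 : ∀ ω, Np F ℓ ω n 1 ≤ (Np F ℓ ω n 1) ^ 2 / (2 * b) +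
        (A n).indicator (fun _ => b / 2) ω := by
      intro ω
      by_cases hω : ω ∈ A n
      · rw [Set.indicator_of_mem hω]
        have : 0 ≤ (Np F ℓ ω n 1 - b) ^ 2 / (2 * b) := by positivity
        have h2 : (Np F ℓ ω n 1 - b) ^ 2 / (2 * b) =
            (Np F ℓ ω n 1) ^ 2 / (2 * b) + b / 2 - Np F ℓ ω n 1 := by
          field_simp
          ring
        linarith
      · rw [Set.indicator_of_notMem hω]
        have h3 : Np F ℓ ω n 1 ≤ 0 := not_lt.1 hω
        have : 0 ≤ (Np F ℓ ω n 1) ^ 2 / (2 * b) := by positivity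
        linarith
    have hi : Integrable ((A n).indicator fun _ : G → E => b / 2) P :=
      (integrable_const _).indicator (hAm n)
    have h2 := integral_mono (hint n) (((hint2 n).div_const (2 * b)).add hi) h1
    have h3 : ∫ ω, (Np F ℓ ω n 1 ^ 2 / (2 * b) +
        (A n).indicator (fun _ => b / 2) ω) ∂P =
        (∫ ω, (Np F ℓ ω n 1) ^ 2 ∂P) / (2 * b) + P.real (A n) * (b / 2) := by
      rw [integral_add ((hint2 n).div_const (2 * b)) hi, integral_div,
        integral_indicator (hAm n), setIntegral_const, smul_eq_mul]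
    have h4 : (1 : ℝ) ≤ b / (2 * b) + P.real (A n) * (b / 2) := by
      rw [(hN n).1] at h2
      refine h2.trans ?_
      refine (le_of_eq h3).trans ?_
      have := div_le_div_of_nonneg_right (hN n).2 (by positivity : 0 ≤ 2 * b)
      linarith
    have h5 : 1 / b ≤ P.real (A n) := by
      have h6 : b / (2 * b) = 1 / 2 := by field_simp
      rw [h6] at h4
      rw [div_le_iff₀ hb]
      linarith
    rw [← ENNReal.ofReal_toReal (measure_ne_top P (A n))]
    exact ENNReal.ofReal_le_ofReal h5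
  have hlim := tendsto_measure_iInter_atTop (μ := P) (s := A)
    (fun n => (hAm n).nullMeasurableSet) hanti ⟨0, measure_ne_top _ _⟩
  have hI : ENNReal.ofReal (1 / b) ≤ P (⋂ n, A n) := ge_of_tendsto' hlim hAn
  refine hI.trans (measure_mono fun ω hω => ?_)
  rw [Set.mem_ofPred_eq]
  intro hfin
  obtain ⟨M, hM⟩ := (hfin.image φ).bddAbove
  have hω' : ∀ n, 0 < Np F ℓ ω n 1 := fun n => Set.mem_iInter.1 hω n
  obtain ⟨y, hy, hy'⟩ := Np_path φ hφ hF h0 (hω' ((M - φ 1 + 1).toNat))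
  have h7 : φ y ≤ M := hM ⟨y, hy, rfl⟩
  have h8 : M - φ 1 + 1 ≤ ((M - φ 1 + 1).toNat : ℤ) := Int.self_le_toNat _
  linarith

end K9h87.FD
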