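import Pool.Agent.K9h87.FD.Stm

set_option autoImplicit false

/-!
Basic lemmas on `mass`, `ip`, `IsProb` (group algebra over `ℝ`).
-/

open MeasureTheory ProbabilityTheory Finset Filter Topology MonoidAlgebra
open scoped NNReal ENNReal

namespace K9h87.FD

noncomputable section

variable {G : Type}

lemma mass_eq_sum (f : MonoidAlgebra ℝ G) {s : Finset G} (h : f.coeff.support ⊆ s) :
    mass f = ∑ g ∈ s, f.coeff g := by
  unfold mass
  rw [Finsupp.sum]
  exact Finset.sum_subset h fun x _ hx => by simpa using hx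

lemma ip_eq_sum (f h : MonoidAlgebra ℝ G) {s : Finset G} (hs : f.coeff.support ⊆ s) :
    ip f h = ∑ g ∈ s, f.coeff g * h.coeff g := by
  unfold ip
  rw [Finsupp.sum]
  refine Finset.sum_subset hs fun x _ hx => ?_
  have : f.coeff x = 0 := by simpa using hx
  rw [this, zero_mul]

lemma mass_add (f h : MonoidAlgebra ℝ G) : mass (f + h) = mass f + mass h := by
  classical
  unfold mass
  rw [coeff_add, Finsupp.sum_add_index] <;> simp

lemma mass_zero : mass (0 : MonoidAlgebra ℝ G) = 0 := by simp [mass]

lemma mass_single (g : G) (a : ℝ) : mass (single g a) = a := by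
  simp [mass]

lemma mass_smul (c : ℝ) (f : MonoidAlgebra ℝ G) : mass (c • f) = c * mass f := by
  rw [mass_eq_sum (s := f.coeff.support) (c • f) (by
    rw [coeff_smul]; exact Finsupp.support_smul), mass_eq_sum f (le_refl _), Finset.mul_sum]
  simp

lemma mass_sum {ι : Type*} (s : Finset ι) (f : ι → MonoidAlgebra ℝ G) :
    mass (∑ i ∈ s, f i) = ∑ i ∈ s, mass (f i) := by
  classical
  induction s using Finset.induction_on with
  | empty => simp [mass_zero]
  | insert a s ha ih => rw [Finset.sum_insert ha, Finset.sum_insert ha, mass_add, ih]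

lemma mass_mul [Group G] (f h : MonoidAlgebra ℝ G) : mass (f * h) = mass f * mass h := by
  induction f using MonoidAlgebra.induction_linear with
  | zero => simp [mass_zero]
  | add x y hx hy => rw [add_mul, mass_add, hx, hy, mass_add, add_mul]
  | single g a =>
    induction h using MonoidAlgebra.induction_linear with
    | zero => simp [mass_zero]
    | add x y hx hy => rw [mul_add, mass_add, hx, hy, mass_add, mul_add]
    | single g' a' => rw [single_mul_single, mass_single, mass_single, mass_single]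

lemma ip_comm (f h : MonoidAlgebra ℝ G) : ip f h = ip h f := by
  classical
  rw [ip_eq_sum f h (s := f.coeff.support ∪ h.coeff.support) subset_union_left,
    ip_eq_sum h f (s := f.coeff.support ∪ h.coeff.support) subset_union_right]
  exact Finset.sum_congr rfl fun _ _ => mul_comm _ _

lemma ip_add_left (f f' h : MonoidAlgebra ℝ G) : ip (f + f') h = ip f h + ip f' h := by
  classical
  unfold ip
  rw [coeff_add, Finsupp.sum_add_index] <;> intros <;> simp [add_mul]

lemma ip_add_right (f h h' : MonoidAlgebra ℝ G) : ip f (h + h') = ip f h + ip f h' := by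
  rw [ip_comm, ip_add_left, ip_comm h, ip_comm h']

lemma ip_smul_left (c : ℝ) (f h : MonoidAlgebra ℝ G) : ip (c • f) h = c * ip f h := by
  rw [ip_eq_sum (c • f) h (s := f.coeff.support) (by
    rw [coeff_smul]; exact Finsupp.support_smul), ip_eq_sum f h (le_refl _), Finset.mul_sum]
  simp [mul_assoc]

lemma ip_smul_right (c : ℝ) (f h : MonoidAlgebra ℝ G) : ip f (c • h) = c * ip f h := by
  rw [ip_comm, ip_smul_left, ip_comm]

lemma ip_zero_left (h : MonoidAlgebra ℝ G) : ip 0 h = 0 := by simp [ip]

lemma ip_zero_right (h : MonoidAlgebra ℝ G) : ip h 0 = 0 := by rw [ip_comm, ip_zero_left]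

lemma ip_neg_left (f h : MonoidAlgebra ℝ G) : ip (-f) h = -ip f h := by
  have := ip_add_left f (-f) h
  rw [add_neg_cancel, ip_zero_left] at this
  linarith

lemma ip_neg_right (f h : MonoidAlgebra ℝ G) : ip f (-h) = -ip f h := by
  rw [ip_comm, ip_neg_left, ip_comm]

lemma ip_sub_left (f f' h : MonoidAlgebra ℝ G) : ip (f - f') h = ip f h - ip f' h := by
  rw [sub_eq_add_neg, ip_add_left, ip_neg_left]; ring

lemma ip_sub_right (f h h' : MonoidAlgebra ℝ G) : ip f (h - h') = ip f h - ip f h' := by
  rw [ip_comm, ip_sub_left, ip_comm h, ip_comm h']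

lemma ip_sum_left {ι : Type*} (s : Finset ι) (f : ι → MonoidAlgebra ℝ G) (h : MonoidAlgebra ℝ G) :
    ip (∑ i ∈ s, f i) h = ∑ i ∈ s, ip (f i) h := by
  classical
  induction s using Finset.induction_on with
  | empty => simp [ip_zero_left]
  | insert a s ha ih => rw [Finset.sum_insert ha, Finset.sum_insert ha, ip_add_left, ih]

lemma ip_sum_right {ι : Type*} (s : Finset ι) (f : ι → MonoidAlgebra ℝ G) (h : MonoidAlgebra ℝ G) :
    ip h (∑ i ∈ s, f i) = ∑ i ∈ s, ip h (f i) := by
  rw [ip_comm, ip_sum_left]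
  exact Finset.sum_congr rfl fun _ _ => ip_comm _ _

lemma ip_single_left (g : G) (a : ℝ) (h : MonoidAlgebra ℝ G) : ip (single g a) h = a * h.coeff g := by
  simp [ip]

lemma ip_single_right (g : G) (a : ℝ) (h : MonoidAlgebra ℝ G) : ip h (single g a) = a * h.coeff g := by
  rw [ip_comm, ip_single_left]

lemma ip_self_nonneg (f : MonoidAlgebra ℝ G) : 0 ≤ ip f f := by
  rw [ip_eq_sum f f (le_refl _)]
  exact Finset.sum_nonneg fun _ _ => mul_self_nonneg _

lemma ip_nonneg {f h : MonoidAlgebra ℝ G} (hf : ∀ g, 0 ≤ f.coeff g) (hh : ∀ g, 0 ≤ h.coeff g) :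
    0 ≤ ip f h := by
  rw [ip_eq_sum f h (le_refl _)]
  exact Finset.sum_nonneg fun _ _ => mul_nonneg (hf _) (hh _)

/-- Cauchy-Schwarz. -/
lemma ip_le (f h : MonoidAlgebra ℝ G) : ip f h ≤ √(ip f f) * √(ip h h) := by
  classical
  set s := f.coeff.support ∪ h.coeff.support
  rw [ip_eq_sum f h (s := s) subset_union_left, ip_eq_sum f f (s := s) subset_union_left,
    ip_eq_sum h h (s := s) subset_union_right]
  have := Real.sum_mul_le_sqrt_mul_sqrt s (fun g => f.coeff g) (fun g => h.coeff g)
  simpa [sq] using this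

/-- Triangle inequality. -/
lemma norm_add_le' (f h : MonoidAlgebra ℝ G) :
    √(ip (f + h) (f + h)) ≤ √(ip f f) + √(ip h h) := by
  apply Real.sqrt_le_iff.2
  refine ⟨by positivity, ?_⟩
  have h1 := ip_le f h
  have h2 := Real.sq_sqrt (ip_self_nonneg f)
  have h3 := Real.sq_sqrt (ip_self_nonneg h)
  rw [ip_add_left, ip_add_right, ip_add_right, ip_comm h f]
  nlinarith

lemma norm_sum_le' {ι : Type*} (s : Finset ι) (f : ι → MonoidAlgebra ℝ G) :
    √(ip (∑ i ∈ s, f i) (∑ i ∈ s, f i)) ≤ ∑ i ∈ s, √(ip (f i) (f i)) := by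
  classical
  induction s using Finset.induction_on with
  | empty => simp [ip_zero_left]
  | insert a s ha ih =>
    rw [Finset.sum_insert ha, Finset.sum_insert ha]
    exact (norm_add_le' _ _).trans (by linarith)

lemma norm_smul' {c : ℝ} (hc : 0 ≤ c) (f : MonoidAlgebra ℝ G) :
    √(ip (c • f) (c • f)) = c * √(ip f f) := by
  rw [ip_smul_left, ip_smul_right, ← mul_assoc, Real.sqrt_mul (by positivity),
    Real.sqrt_mul_self hc]

lemma eq_sum_single (f : MonoidAlgebra ℝ G) : f = ∑ g ∈ f.coeff.support, single g (f.coeff g) := by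
  classical
  ext g
  rw [coeff_sum, Finsupp.finsetSum_apply]
  simp [Finsupp.single_apply]

section
variable [Group G]

/-- Left translations are isometric. -/
lemma ip_single_mul (g : G) (f h : MonoidAlgebra ℝ G) :
    ip (single g 1 * f) (single g 1 * h) = ip f h := by
  induction f using MonoidAlgebra.induction_linear with
  | zero => simp [ip_zero_left]
  | add x y hx hy => rw [mul_add, ip_add_left, hx, hy, ip_add_left]
  | single g' a => rw [single_mul_single, ip_single_left, ip_single_left]; simp

/-- Right translations are isometric. -/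
lemma ip_mul_single (g : G) (f h : MonoidAlgebra ℝ G) :
    ip (f * single g 1) (h * single g 1) = ip f h := by
  induction f using MonoidAlgebra.induction_linear with
  | zero => simp [ip_zero_left]
  | add x y hx hy => rw [add_mul, ip_add_left, hx, hy, ip_add_left]
  | single g' a => rw [single_mul_single, ip_single_left, ip_single_left]; simp

/-- Right convolution with a symmetric element is self-adjoint. -/
lemma ip_mul_sym {σ : MonoidAlgebra ℝ G} (hσ : Sym σ) (f h : MonoidAlgebra ℝ G) :
    ip (f * σ) h = ip f (h * σ) := by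
  induction f using MonoidAlgebra.induction_linear with
  | zero => simp [ip_zero_left]
  | add x y hx hy => rw [add_mul, ip_add_left, hx, hy, ip_add_left]
  | single g a =>
    induction h using MonoidAlgebra.induction_linear with
    | zero => simp [ip_zero_right]
    | add x y hx hy => rw [add_mul, ip_add_right, hx, hy, ip_add_right]
    | single g' a' =>
      rw [ip_single_right, ip_single_left]
      simp only [coeff_single_mul_apply]
      rw [← hσ (g⁻¹ * g')]
      simp only [mul_inv_rev, inv_inv]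
      ring

omit [Group G] in
lemma isProb_single (g : G) : IsProb (single g (1 : ℝ)) := by
  classical
  refine ⟨fun h => ?_, mass_single _ _⟩
  rw [coeff_single, Finsupp.single_apply]
  split_ifs <;> norm_num

lemma isProb_one : IsProb (1 : MonoidAlgebra ℝ G) := isProb_single 1

lemma coeff_mul_nonneg {f h : MonoidAlgebra ℝ G} (hf : ∀ g, 0 ≤ f.coeff g)
    (hh : ∀ g, 0 ≤ h.coeff g) (g : G) : 0 ≤ (f * h).coeff g := by
  rw [coeff_mul_apply_left]
  exact Finset.sum_nonneg fun _ _ => mul_nonneg (hf _) (hh _)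

lemma IsProb.mul {f h : MonoidAlgebra ℝ G} (hf : IsProb f) (hh : IsProb h) : IsProb (f * h) :=
  ⟨coeff_mul_nonneg hf.1 hh.1, by rw [mass_mul, hf.2, hh.2, mul_one]⟩

lemma IsProb.pow {f : MonoidAlgebra ℝ G} (hf : IsProb f) (n : ℕ) : IsProb (f ^ n) := by
  induction n with
  | zero => simpa using isProb_one
  | succ n ih => rw [pow_succ]; exact ih.mul hf

lemma Sym.pow {f : MonoidAlgebra ℝ G} (hf : Sym f) (n : ℕ) : Sym (f ^ n) := by
  -- `f ^ n` commutes with `f`
  have key : ∀ h : MonoidAlgebra ℝ G, Sym h → Commute f h → Sym (f * h) := by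
    intro h hh hc g
    have h1 : (f * h).coeff g⁻¹ = f.coeff.sum fun a r => r * h.coeff (a⁻¹ * g⁻¹) :=
      coeff_mul_apply_left _ _ _
    have h2 : (f * h).coeff g = f.coeff.sum fun a r => h.coeff (g * a⁻¹) * r := by
      rw [hc.eq]; exact coeff_mul_apply_right _ _ _
    rw [h1, h2]
    -- reindex by inversion
    classical
    rw [Finsupp.sum, Finsupp.sum]
    refine Finset.sum_bij' (fun a _ => a⁻¹) (fun a _ => a⁻¹) ?_ ?_ ?_ ?_ ?_
    · intro a ha; rw [Finsupp.mem_support_iff] at ha ⊢; rwa [hf a]
    · intro a ha; rw [Finsupp.mem_support_iff] at ha ⊢; rwa [hf a]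
    · intro a _; simp
    · intro a _; simp
    · intro a _
      rw [hf a, ← hh (a⁻¹ * g⁻¹)]
      simp only [mul_inv_rev, inv_inv]
      rw [mul_comm]
  induction n with
  | zero =>
    intro g
    classical
    rw [pow_zero, MonoidAlgebra.one_def, coeff_single, Finsupp.single_apply, Finsupp.single_apply]
    congr 1
    rw [eq_iff_iff]
    constructor
    · intro h
      have h2 := congrArg (fun x : G => x⁻¹) h
      simpa using h2
    · intro h
      have h2 := congrArg (fun x : G => x⁻¹) h
      simpa using h2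
  | succ n ih =>
    rw [pow_succ']
    exact key _ ih (Commute.self_pow f n)

/-- Contraction. -/
lemma norm_mul_prob {ν : MonoidAlgebra ℝ G} (hν : IsProb ν) (f : MonoidAlgebra ℝ G) :
    √(ip (f * ν) (f * ν)) ≤ √(ip f f) := by
  have h1 : f * ν = ∑ g ∈ ν.coeff.support, ν.coeff g • (f * single g 1) := by
    conv_lhs => rw [eq_sum_single ν]
    rw [Finset.mul_sum]
    refine Finset.sum_congr rfl fun g _ => ?_
    rw [← mul_smul_comm, smul_single]
    simp
  rw [h1]
  refine (norm_sum_le' _ _).trans ?_
  have h2 : ∀ g ∈ ν.coeff.support, √(ip (ν.coeff g • (f * single g 1)) (ν.coeff g • (f * single g 1)))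
      = ν.coeff g * √(ip f f) := by
    intro g _
    rw [norm_smul' (hν.1 g), ip_mul_single]
  rw [Finset.sum_congr rfl h2, ← Finset.sum_mul, ← mass_eq_sum ν (le_refl _), hν.2, one_mul]

lemma ip_mul_prob {ν : MonoidAlgebra ℝ G} (hν : IsProb ν) (f : MonoidAlgebra ℝ G) :
    ip (f * ν) (f * ν) ≤ ip f f :=
  (Real.sqrt_le_sqrt_iff (ip_self_nonneg f)).1 (norm_mul_prob hν f)

/-- Convolution from the left with a probability is a contraction. -/
lemma norm_prob_mul {ν : MonoidAlgebra ℝ G} (hν : IsProb ν) (f : MonoidAlgebra ℝ G) :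
    √(ip (ν * f) (ν * f)) ≤ √(ip f f) := by
  have h1 : ν * f = ∑ g ∈ ν.coeff.support, ν.coeff g • (single g 1 * f) := by
    conv_lhs => rw [eq_sum_single ν]
    rw [Finset.sum_mul]
    refine Finset.sum_congr rfl fun g _ => ?_
    rw [← smul_mul_assoc, smul_single]
    simp
  rw [h1]
  refine (norm_sum_le' _ _).trans ?_
  have h2 : ∀ g ∈ ν.coeff.support, √(ip (ν.coeff g • (single g 1 * f)) (ν.coeff g • (single g 1 * f)))
      = ν.coeff g * √(ip f f) := by
    intro g _
    rw [norm_smul' (hν.1 g), ip_single_mul]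
  rw [Finset.sum_congr rfl h2, ← Finset.sum_mul, ← mass_eq_sum ν (le_refl _), hν.2, one_mul]

end

lemma coeff_le_norm (f : MonoidAlgebra ℝ G) (g : G) : f.coeff g ≤ √(ip f f) := by
  classical
  have h : f.coeff g ≤ √(ip (single g 1) (single g (1 : ℝ))) * √(ip f f) := by
    have := ip_le (single g 1) f
    rwa [ip_single_left, one_mul] at this
  rw [ip_single_left] at h
  simpa using h

lemma IsProb.coeff_le_one {f : MonoidAlgebra ℝ G} (hf : IsProb f) (g : G) : f.coeff g ≤ 1 := by
  classical
  rw [← hf.2, mass_eq_sum f (s := insert g f.coeff.support) (Finset.subset_insert _ _)]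
  exact Finset.single_le_sum (fun x _ => hf.1 x) (Finset.mem_insert_self _ _)

lemma IsProb.ip_le_one {f : MonoidAlgebra ℝ G} (hf : IsProb f) : ip f f ≤ 1 := by
  rw [ip_eq_sum f f (le_refl _), ← hf.2, mass_eq_sum f (le_refl _)]
  refine Finset.sum_le_sum fun g _ => ?_
  have h1 := hf.1 g
  have h2 := hf.coeff_le_one g
  nlinarith

lemma IsProb.ip_pos {f : MonoidAlgebra ℝ G} (hf : IsProb f) : 0 < ip f f := by
  rcases (ip_self_nonneg f).lt_or_eq with h | h
  · exact h
  exfalso
  rw [ip_eq_sum f f (le_refl _)] at h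
  have h0 : ∀ g ∈ f.coeff.support, f.coeff g * f.coeff g = 0 :=
    (Finset.sum_eq_zero_iff_of_nonneg fun _ _ => mul_self_nonneg _).1 h.symm
  have h1 : mass f = 0 := by
    rw [mass_eq_sum f (le_refl _)]
    exact Finset.sum_eq_zero fun g hg => by simpa using h0 g hg
  rw [hf.2] at h1
  norm_num at h1

lemma isProb_unif {S : Finset G} (hS : S.Nonempty) : IsProb (unif S) := by
  classical
  refine ⟨fun g => ?_, ?_⟩
  · unfold unif
    rw [coeff_sum, Finsupp.finsetSum_apply]
    refine Finset.sum_nonneg fun s _ => ?_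
    rw [coeff_single, Finsupp.single_apply]
    split_ifs <;> positivity
  · unfold unif
    rw [mass_sum]
    simp only [mass_single, Finset.sum_const, nsmul_eq_mul]
    have : (S.card : ℝ) ≠ 0 := by exact_mod_cast hS.card_ne_zero
    field_simp

lemma unif_coeff [DecidableEq G] (S : Finset G) (g : G) :
    (unif S).coeff g = if g ∈ S then (S.card : ℝ)⁻¹ else 0 := by
  unfold unif
  rw [coeff_sum, Finsupp.finsetSum_apply]
  simp [Finsupp.single_apply]

lemma sym_unif [Group G] {S : Finset G} (hS : ∀ s ∈ S, s⁻¹ ∈ S) : Sym (unif S) := by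
  classical
  intro g
  rw [unif_coeff, unif_coeff]
  congr 1
  simp only [eq_iff_iff]
  exact ⟨fun h => by simpa using hS _ h, fun h => hS _ h⟩

end

end K9h87.FD
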