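import Pool.Agent.K9h87.FD.Stm2
import Pool.Agent.K9h87.FD.Basic

/-! Leaf CES (helper24, for helper87). -/

set_option autoImplicit false

open MeasureTheory ProbabilityTheory Finset Filter Topology

namespace K9h87.FD

noncomputable section

theorem ces (h : S_ZERO) : S_CES := by
  intro G _ A c hc hA ε hε
  have hε2 : 0 < (ε / 4) ^ 2 := by positivity
  obtain ⟨U, hU⟩ := h G A c hc hA ((ε / 4) ^ 2) hε2
  refine ⟨⌈(1 + 2 * (U : ℝ)) / (ε / 2)⌉₊, ?_⟩
  intro σ hσ hs hσA M hM
  have h1 : ∀ j, (σ ^ j).coeff 1 ≤ 1 := fun j => (hσ.pow j).coeff_le_one 1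
  have h2 : ∀ j ≥ U, (σ ^ j).coeff 1 ≤ ε / 4 := by
    intro j hj
    have := hU σ hσ hs hσA j hj
    refine (coeff_le_norm (σ ^ j) 1).trans ?_
    rw [← Real.sqrt_sq (show 0 ≤ ε / 4 by positivity)]
    exact Real.sqrt_le_sqrt this
  have h3 : ∀ j ∈ Ico 1 M, (σ ^ j).coeff 1 ≤ (if j < U then 1 else 0) + ε / 4 := by
    intro j _
    by_cases hj : j < U
    · rw [if_pos hj]; linarith [h1 j]
    · rw [if_neg hj, zero_add]; exact h2 j (by omega)
  have h4 := Finset.sum_le_sum h3
  rw [Finset.sum_add_distrib, Finset.sum_const, nsmul_eq_mul, ← Finset.sum_filter,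
    Finset.sum_const, nsmul_eq_mul, mul_one, Nat.card_Ico] at h4
  have h5 : (((Ico 1 M).filter (fun j => j < U)).card : ℝ) ≤ U := by
    have : ((Ico 1 M).filter (fun j => j < U)) ⊆ range U := by
      intro j hj
      simp only [Finset.mem_filter] at hj
      exact Finset.mem_range.2 hj.2
    have := Finset.card_le_card this
    rw [Finset.card_range] at this
    exact_mod_cast this
  have h6 : ((M - 1 : ℕ) : ℝ) ≤ M := by exact_mod_cast Nat.sub_le M 1
  have h7 : (1 + 2 * (U : ℝ)) / (ε / 2) ≤ M := (Nat.le_ceil _).trans (by exact_mod_cast hM)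
  rw [div_le_iff₀ (by positivity)] at h7
  nlinarith [mul_le_mul_of_nonneg_right h6 (show 0 ≤ ε / 4 by positivity)]

end

end K9h87.FD
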