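import Pool.Agent.K9h87.FD.Stm2
import Pool.Agent.K9h87.FD.Basic

set_option autoImplicit false

open MeasureTheory ProbabilityTheory Finset Filter Topology MonoidAlgebra
open scoped NNReal ENNReal

namespace K9h87.FD.Fin1

noncomputable section

lemma mem_words {α : Type} (S : Finset α) (n : ℕ) (v : List α) :
    v ∈ words S n ↔ v.length = n ∧ ∀ a ∈ v, a ∈ S := by
  classical
  induction n generalizing v with
  | zero =>
    simp only [words, Finset.mem_singleton, List.length_eq_zero_iff]
    constructor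
    · rintro rfl; simp
    · exact fun h => h.1
  | succ n ih =>
    simp only [words, Finset.mem_image, Finset.mem_product, Prod.exists]
    constructor
    · rintro ⟨a, l, ⟨ha, hl⟩, rfl⟩
      rw [ih] at hl
      refine ⟨by simp [hl.1], ?_⟩
      intro b hb
      rcases List.mem_cons.1 hb with rfl | hb
      · exact ha
      · exact hl.2 b hb
    · rintro ⟨h1, h2⟩
      cases v with
      | nil => simp at h1
      | cons a l =>
        refine ⟨a, l, ⟨h2 a List.mem_cons_self, (ih l).2 ⟨by simpa using h1, fun b hb =>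
          h2 b (List.mem_cons_of_mem _ hb)⟩⟩, rfl⟩

variable {G : Type} [Group G]

lemma mem_ret {S : Finset G} {H : Subgroup G} {L : ℕ} {v : List G} :
    v ∈ ret S H L ↔ v.length ≤ L ∧ (∀ a ∈ v, a ∈ S) ∧ IsRet H v := by
  classical
  simp only [ret, Finset.mem_biUnion, Finset.mem_filter, Finset.mem_range, mem_words]
  constructor
  · rintro ⟨n, hn, ⟨h1, h2⟩, h3⟩
    exact ⟨by omega, h2, h3⟩
  · rintro ⟨h1, h2, h3⟩
    exact ⟨v.length, by omega, ⟨rfl, h2⟩, h3⟩

lemma ret_prefix {S : Finset G} {H : Subgroup G} {L : ℕ} {v v' : List G} (hv : v ∈ ret S H L)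
    (hv' : v' ∈ ret S H L) (h : v <+: v') : v = v' := by
  rw [mem_ret] at hv hv'
  obtain ⟨_, _, hne, hH, _⟩ := hv
  obtain ⟨_, _, _, _, h3⟩ := hv'
  have h4 : v = v'.take v.length := List.prefix_iff_eq_take.1 h
  by_contra hcon
  have hlt : v.length < v'.length := by
    refine lt_of_le_of_ne h.length_le fun he => hcon ?_
    rw [h4, he, List.take_length]
  have h5 := h3 v.length (List.length_pos_iff.2 hne) hlt
  rw [← h4] at h5
  exact h5 hH

lemma ret_mono {S : Finset G} {H : Subgroup G} {L L' : ℕ} (h : L ≤ L') : ret S H L ⊆ ret S H L' := by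
  intro v hv
  rw [mem_ret] at hv ⊢
  exact ⟨hv.1.trans h, hv.2⟩

lemma coe_val {H : Subgroup G} {v : List G} (h : v.prod ∈ H) : (val H v : G) = v.prod := by
  unfold val
  rw [dif_pos h]

lemma prod_map_val {H : Subgroup G} (l : List (List G)) (h : ∀ v ∈ l, v.prod ∈ H) :
    (((l.map (val H)).prod : H) : G) = l.flatten.prod := by
  induction l with
  | nil => simp
  | cons v l ih =>
    rw [List.map_cons, List.prod_cons, List.flatten_cons, List.prod_append, Subgroup.coe_mul,
      coe_val (h v List.mem_cons_self), ih fun v hv => h v (List.mem_cons_of_mem _ hv)]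

omit [Group G] in
lemma length_flatten_le (l : List (List G)) (L : ℕ) (h : ∀ v ∈ l, v.length ≤ L) :
    l.flatten.length ≤ l.length * L := by
  induction l with
  | nil => simp
  | cons v l ih =>
    rw [List.flatten_cons, List.length_append, List.length_cons]
    have h1 := h v List.mem_cons_self
    have h2 := ih fun v hv => h v (List.mem_cons_of_mem _ hv)
    nlinarith

lemma disp_of_starts {w : ℕ × ℕ → G} {v : List G} (h : Starts w v) : disp w 0 v.length = v.prod := by
  unfold Starts at h
  unfold disp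
  rw [h]

/-- If the macroscopic kernel is positive then there is a visit. -/
lemma visits_of_Rw {S : Finset G} {H : Subgroup G} {φ : H → ℤ} {L₁ L₂ r U M : ℕ} {B : ℤ}
    {D : G → Site G} {t : ℝ} {x : G} {h : H} {k : ℕ} (hk : r * L₁ + (U + M) * L₂ ≤ k)
    (hη : 1 ≤ (D x).1) (ht : ∀ s ≤ k, ∑ j ∈ range s, (D x).2.1 (0, j) ≤ t)
    (hR : 0 < Rw (val H) φ (ret S H L₁) (ret S H L₂) r U M B (D x).2.2 h) :
    Visits D t x (x * h) := by
  classical
  unfold Rw at hR
  obtain ⟨u, hu, h1⟩ := Finset.exists_ne_zero_of_sum_ne_zero hR.ne'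
  obtain ⟨a, ha, h2⟩ := Finset.exists_ne_zero_of_sum_ne_zero h1
  obtain ⟨b, hb, h3⟩ := Finset.exists_ne_zero_of_sum_ne_zero h2
  split_ifs at h3 with hcond
  swap
  · exact absurd rfl h3
  obtain ⟨hst, hval, _⟩ := hcond
  rw [mem_words] at ha hb
  have hu' : u < M := Finset.mem_range.1 hu
  have hpa : ((a.map (val H)).prod : G) = a.flatten.prod :=
    prod_map_val a fun v hv => ((mem_ret.1 (ha.2 v hv)).2.2).2.1
  have hpb : ((b.map (val H)).prod : G) = b.flatten.prod :=
    prod_map_val b fun v hv => ((mem_ret.1 (hb.2 v hv)).2.2).2.1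
  have hla : a.flatten.length ≤ r * L₁ := by
    have := length_flatten_le a L₁ fun v hv => (mem_ret.1 (ha.2 v hv)).1
    rwa [ha.1] at this
  have hlb : b.flatten.length ≤ (U + M) * L₂ := by
    have := length_flatten_le b L₂ fun v hv => (mem_ret.1 (hb.2 v hv)).1
    rw [hb.1] at this
    refine this.trans (Nat.mul_le_mul_right _ (by omega))
  refine ⟨0, hη, (a.flatten ++ b.flatten).length, ht _ (by rw [List.length_append]; omega), ?_⟩
  rw [disp_of_starts hst, List.prod_append, ← hpa, ← hpb, ← Subgroup.coe_mul, hval]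

end

end K9h87.FD.Fin1
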