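import Pool.Agent.K9h87.FD.Stm2
import Pool.Agent.K9h87.FD.Basic

set_option autoImplicit false

open MeasureTheory ProbabilityTheory Finset Filter Topology MonoidAlgebra
open scoped NNReal ENNReal

namespace K9h87.FD.Fin2

noncomputable section

variable {G : Type} [MeasurableSpace G] [DiscreteMeasurableSpace G]

set_option linter.unusedSectionVars false

/-- There is a particle, and the first `k` jumps of particle `0` happen before time `t`. -/
def Ev (G : Type) (k : ℕ) (t : ℝ) : Set (Site G) :=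
  {e | 1 ≤ e.1 ∧ ∀ s ≤ k, ∑ j ∈ range s, e.2.1 (0, j) ≤ t}

/-- The clock part of the event. -/
def Cl (k : ℕ) (t : ℝ) : Set (ℕ × ℕ → ℝ) := {c | ∀ s ≤ k, ∑ j ∈ range s, c (0, j) ≤ t}

lemma meas_Cl (k : ℕ) (t : ℝ) : MeasurableSet (Cl k t) := by
  have : Cl k t = ⋂ s ∈ Set.Iic k, {c : ℕ × ℕ → ℝ | ∑ j ∈ range s, c (0, j) ≤ t} := by
    ext c
    simp [Cl]
  rw [this]
  refine MeasurableSet.biInter (Set.to_countable _) fun s _ => ?_
  exact measurableSet_le (Finset.measurable_sum _ fun j _ => measurable_pi_apply _) measurable_const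

lemma Ev_eq (k : ℕ) (t : ℝ) : Ev G k t = {e | 1 ≤ e.1 ∧ e.2.1 ∈ Cl k t} := rfl

lemma meas_Ev (k : ℕ) (t : ℝ) : MeasurableSet (Ev G k t) := by
  rw [Ev_eq]
  have h1 : MeasurableSet {e : Site G | 1 ≤ e.1} :=
    measurable_fst (MeasurableSet.of_discrete (s := {n : ℕ | 1 ≤ n}))
  have h2 : MeasurableSet {e : Site G | e.2.1 ∈ Cl k t} :=
    (measurable_fst.comp measurable_snd) (meas_Cl k t)
  exact h1.inter h2

/-- The probability of `Ev`. -/
def pr (lam : ℝ≥0) (k : ℕ) (t : ℝ) : ℝ :=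
  (poissonMeasure lam).real {n | 1 ≤ n} * clockLaw.real (Cl k t)

lemma integral_site (S : Finset G) (hS : S.Nonempty) (lam : ℝ≥0) (k : ℕ) (t : ℝ)
    (f : (ℕ × ℕ → G) → ℝ) :
    ∫ e, (Ev G k t).indicator (fun e => f e.2.2) e ∂(siteLaw S lam)
      = pr lam k t * ∫ w, f w ∂(stepsLaw S) := by
  have : ∀ p : ℕ × ℕ, IsProbabilityMeasure (expMeasure 1) := fun _ => by
    exact isProbabilityMeasure_expMeasure one_pos
  have hc : IsProbabilityMeasure clockLaw := by
    unfold clockLaw; infer_instance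
  have hu : IsProbabilityMeasure (uniformOn (S : Set G)) :=
    isProbabilityMeasure_uniformOn S.finite_toSet hS
  have hs : IsProbabilityMeasure (stepsLaw S) := by
    unfold stepsLaw; infer_instance
  have h1 : ∀ e : Site G, (Ev G k t).indicator (fun e => f e.2.2) e
      = ({n : ℕ | 1 ≤ n}.indicator (fun _ => (1 : ℝ)) e.1) *
        ((Cl k t).indicator (fun _ => (1 : ℝ)) e.2.1 * f e.2.2) := by
    intro e
    by_cases h1 : 1 ≤ e.1
    · by_cases h2 : e.2.1 ∈ Cl k t
      · rw [Set.indicator_of_mem (show e ∈ Ev G k t from ⟨h1, h2⟩),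
          Set.indicator_of_mem (show e.1 ∈ {n : ℕ | 1 ≤ n} from h1), Set.indicator_of_mem h2]
        ring
      · rw [Set.indicator_of_notMem (show e ∉ Ev G k t from fun h => h2 h.2),
          Set.indicator_of_notMem h2]
        ring
    · rw [Set.indicator_of_notMem (show e ∉ Ev G k t from fun h => h1 h.1),
          Set.indicator_of_notMem (show e.1 ∉ {n : ℕ | 1 ≤ n} from h1)]
      ring
  rw [integral_congr_ae (Eventually.of_forall h1)]
  unfold siteLaw
  rw [integral_prod_mul (μ := poissonMeasure lam) (ν := clockLaw.prod (stepsLaw S))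
    (f := fun n => {n : ℕ | 1 ≤ n}.indicator (fun _ => (1 : ℝ)) n)
    (g := fun z => (Cl k t).indicator (fun _ => (1 : ℝ)) z.1 * f z.2)]
  rw [integral_prod_mul (μ := clockLaw) (ν := stepsLaw S)
    (f := fun c => (Cl k t).indicator (fun _ => (1 : ℝ)) c) (g := fun w => f w)]
  rw [integral_indicator (MeasurableSet.of_discrete), integral_indicator (meas_Cl k t)]
  simp [pr]
  ring

variable {K : Type} {R : (ℕ × ℕ → G) → K → ℝ}

/-- The kernel. -/
def ker (G : Type) {K : Type} (R : (ℕ × ℕ → G) → K → ℝ) (k : ℕ) (t c : ℝ) (e : Site G) (h : K) : ℝ :=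
  (Ev G k t).indicator (fun e => R e.2.2 h) e * c

lemma ker_meas (hR : ∀ h, Measurable fun w => R w h) (k : ℕ) (t c : ℝ) (h : K) :
    Measurable fun e => ker G R k t c e h := by
  unfold ker
  exact (((hR h).comp (measurable_snd.comp measurable_snd)).indicator (meas_Ev k t)).mul_const c

lemma ker_nonneg (hR : ∀ w h, 0 ≤ R w h) (k : ℕ) (t : ℝ) {c : ℝ} (hc : 0 ≤ c) (e : Site G) (h : K) :
    0 ≤ ker G R k t c e h :=
  mul_nonneg (Set.indicator_nonneg (fun _ _ => hR _ _) _) hc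

lemma ker_le {M : ℝ} (hM : 0 ≤ M) (hR : ∀ w h, R w h ≤ M) (k : ℕ) (t : ℝ) {c : ℝ} (hc : 0 ≤ c)
    (e : Site G) (h : K) : ker G R k t c e h ≤ M * c := by
  unfold ker
  refine mul_le_mul_of_nonneg_right ?_ hc
  by_cases he : e ∈ Ev G k t
  · rw [Set.indicator_of_mem he]; exact hR _ _
  · rw [Set.indicator_of_notMem he]; exact hM

lemma ker_pos {k : ℕ} {t c : ℝ} {e : Site G} {h : K}
    (hp : 0 < ker G R k t c e h) (hc : 0 ≤ c) : e ∈ Ev G k t ∧ 0 < R e.2.2 h := by
  unfold ker at hp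
  by_cases he : e ∈ Ev G k t
  · rw [Set.indicator_of_mem he] at hp
    refine ⟨he, ?_⟩
    by_contra hcon
    exact absurd hp (not_lt.2 (mul_nonpos_of_nonpos_of_nonneg (not_lt.1 hcon) hc))
  · rw [Set.indicator_of_notMem he, zero_mul] at hp
    exact absurd hp (lt_irrefl _)

lemma ker_int (S : Finset G) (hS : S.Nonempty) (lam : ℝ≥0) (k : ℕ) (t c : ℝ) (h : K) :
    ∫ e, ker G R k t c e h ∂(siteLaw S lam) = c * pr lam k t * ∫ w, R w h ∂(stepsLaw S) := by
  unfold ker
  rw [integral_mul_const, integral_site S hS lam k t (fun w => R w h)]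
  ring

lemma ker_int2 (S : Finset G) (hS : S.Nonempty) (lam : ℝ≥0) (k : ℕ) (t c : ℝ) (h h' : K) :
    ∫ e, ker G R k t c e h * ker G R k t c e h' ∂(siteLaw S lam)
      = c ^ 2 * pr lam k t * ∫ w, R w h * R w h' ∂(stepsLaw S) := by
  have h1 : ∀ e : Site G, ker G R k t c e h * ker G R k t c e h'
      = (Ev G k t).indicator (fun e => R e.2.2 h * R e.2.2 h') e * c ^ 2 := by
    intro e
    unfold ker
    by_cases he : e ∈ Ev G k t
    · simp only [Set.indicator_of_mem he]; ring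
    · simp only [Set.indicator_of_notMem he]; ring
  rw [integral_congr_ae (Eventually.of_forall h1), integral_mul_const,
    integral_site S hS lam k t (fun w => R w h * R w h')]
  ring

/-- Sum of all second moments. -/
lemma ker_sum2 (S : Finset G) (hS : S.Nonempty) (lam : ℝ≥0) (k : ℕ) (t c : ℝ) (F : Finset K) {M : ℝ}
    (hRm : ∀ h, Measurable fun w => R w h) (hR0 : ∀ w h, 0 ≤ R w h)
    (hRM : ∀ w, ∑ h ∈ F, R w h ≤ M) (hM : 0 ≤ M) :
    ∑ h ∈ F, ∑ h' ∈ F, ∫ e, ker G R k t c e h * ker G R k t c e h' ∂(siteLaw S lam)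
      ≤ c ^ 2 * pr lam k t * M ^ 2 := by
  have hu : IsProbabilityMeasure (uniformOn (S : Set G)) :=
    isProbabilityMeasure_uniformOn S.finite_toSet hS
  have hs : IsProbabilityMeasure (stepsLaw S) := by
    unfold stepsLaw; infer_instance
  have hle : ∀ w, ∀ h ∈ F, R w h ≤ M := fun w h hh =>
    (Finset.single_le_sum (f := fun h => R w h) (fun x _ => hR0 w x) hh).trans (hRM w)
  have hint : ∀ h ∈ F, ∀ h' ∈ F, Integrable (fun w => R w h * R w h') (stepsLaw S) := by
    intro h hh h' hh'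
    refine Integrable.of_bound ((hRm h).mul (hRm h')).aestronglyMeasurable (M * M)
      (Eventually.of_forall fun w => ?_)
    rw [Real.norm_eq_abs, abs_of_nonneg (mul_nonneg (hR0 _ _) (hR0 _ _))]
    exact mul_le_mul (hle w h hh) (hle w h' hh') (hR0 _ _) hM
  simp only [ker_int2 S hS]
  rw [Finset.sum_congr rfl fun h _ => (Finset.mul_sum _ _ _).symm, ← Finset.mul_sum]
  have hp : 0 ≤ pr lam k t := by unfold pr; positivity
  refine mul_le_mul_of_nonneg_left ?_ (by positivity)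
  rw [Finset.sum_congr rfl fun h hh => (integral_finsetSum F fun h' hh' => hint h hh h' hh').symm]
  rw [← integral_finsetSum F fun h hh => integrable_finsetSum F fun h' hh' => hint h hh h' hh']
  have h2 : ∀ w, ∑ h ∈ F, ∑ h' ∈ F, R w h * R w h' ≤ M ^ 2 := by
    intro w
    rw [← Finset.sum_mul_sum, ← sq]
    exact pow_le_pow_left₀ (Finset.sum_nonneg fun _ _ => hR0 _ _) (hRM w) 2
  calc ∫ w, ∑ h ∈ F, ∑ h' ∈ F, R w h * R w h' ∂(stepsLaw S) ≤ ∫ w, M ^ 2 ∂(stepsLaw S) := by
        refine integral_mono (integrable_finsetSum F fun h hh =>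
          integrable_finsetSum F fun h' hh' => hint h hh h' hh') (integrable_const _) h2
    _ = M ^ 2 := by simp

lemma ker_sum1 (S : Finset G) (hS : S.Nonempty) (lam : ℝ≥0) (k : ℕ) (t c : ℝ) (F : Finset K) {Y : ℝ}
    (hY : ∑ h ∈ F, ∫ w, (R w h) ^ 2 ∂(stepsLaw S) ≤ Y) :
    ∑ h ∈ F, ∫ e, (ker G R k t c e h) ^ 2 ∂(siteLaw S lam) ≤ c ^ 2 * pr lam k t * Y := by
  have h1 : ∀ h ∈ F, ∫ e, (ker G R k t c e h) ^ 2 ∂(siteLaw S lam)
      = c ^ 2 * pr lam k t * ∫ w, (R w h) ^ 2 ∂(stepsLaw S) := by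
    intro h _
    have := ker_int2 (R := R) S hS lam k t c h h
    simpa only [← sq] using this
  rw [Finset.sum_congr rfl h1, ← Finset.mul_sum]
  have hp : 0 ≤ pr lam k t := by unfold pr; positivity
  exact mul_le_mul_of_nonneg_left hY (by positivity)

end

end K9h87.FD.Fin2
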