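import Pool.Agent.K9h87.FD.Fin1
import Pool.Agent.K9h87.FD.Fin2

set_option autoImplicit false

open MeasureTheory ProbabilityTheory Finset Filter Topology MonoidAlgebra
open scoped NNReal ENNReal

namespace K9h87.FD.Fin3

noncomputable section

section alg

variable {G K : Type}

lemma mass_codeM (c : ℝ) (val : List G → K) (C : Finset (List G)) :
    mass (codeM c val C) = ∑ v ∈ C, c ^ v.length := by
  unfold codeM
  rw [mass_sum]
  simp only [mass_single]

lemma codeM_nonneg {c : ℝ} (hc : 0 ≤ c) (val : List G → K) (C : Finset (List G)) (h : K) :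
    0 ≤ (codeM c val C).coeff h := by
  classical
  unfold codeM
  rw [coeff_sum, Finsupp.finsetSum_apply]
  refine Finset.sum_nonneg fun v _ => ?_
  rw [coeff_single, Finsupp.single_apply]
  split_ifs <;> positivity

lemma codeM_ge {c : ℝ} (hc : 0 ≤ c) (val : List G → K) {C : Finset (List G)} {v : List G}
    (hv : v ∈ C) : c ^ v.length ≤ (codeM c val C).coeff (val v) := by
  classical
  unfold codeM
  rw [coeff_sum, Finsupp.finsetSum_apply]
  have h1 : c ^ v.length = (single (val v) (c ^ v.length)).coeff (val v) := by simp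
  conv_lhs => rw [h1]
  refine Finset.single_le_sum (f := fun v' => (single (val v') (c ^ v'.length)).coeff (val v))
    (fun v' _ => ?_) hv
  simp only [coeff_single, Finsupp.single_apply]
  split_ifs <;> positivity

lemma coeff_mul_ge [Group K] {f h : MonoidAlgebra ℝ K} (hf : ∀ g, 0 ≤ f.coeff g)
    (hh : ∀ g, 0 ≤ h.coeff g) (x y : K) : f.coeff x * h.coeff y ≤ (f * h).coeff (x * y) := by
  classical
  rw [coeff_mul_apply_left, Finsupp.sum]
  by_cases hx : x ∈ f.coeff.support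
  · have := Finset.single_le_sum (f := fun a => f.coeff a * h.coeff (a⁻¹ * (x * y)))
      (fun a _ => mul_nonneg (hf a) (hh _)) hx
    simpa using this
  · have : f.coeff x = 0 := by simpa using hx
    rw [this, zero_mul]
    exact Finset.sum_nonneg fun a _ => mul_nonneg (hf a) (hh _)

lemma isProb_normalize {f : MonoidAlgebra ℝ K} (hf : ∀ g, 0 ≤ f.coeff g) (hm : 0 < mass f) :
    IsProb ((mass f)⁻¹ • f) := by
  refine ⟨fun g => ?_, ?_⟩
  · rw [coeff_smul, Finsupp.smul_apply, smul_eq_mul]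
    exact mul_nonneg (by positivity) (hf g)
  · rw [mass_smul, inv_mul_cancel₀ hm.ne']

lemma sym_smul [Group K] {f : MonoidAlgebra ℝ K} (hf : Sym f) (c : ℝ) : Sym (c • f) := by
  intro g
  rw [coeff_smul, Finsupp.smul_apply, Finsupp.smul_apply, hf g]

lemma cut_coeff (φ : K → ℤ) (B : ℤ) (f : MonoidAlgebra ℝ K) (g : K) [Decidable (B < φ g)] :
    (cut φ B f).coeff g = if B < φ g then f.coeff g else 0 := by
  classical
  unfold cut
  rw [coeff_ofCoeff, Finsupp.filter_apply]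
  congr

lemma cut_nonneg {φ : K → ℤ} {B : ℤ} {f : MonoidAlgebra ℝ K} (hf : ∀ g, 0 ≤ f.coeff g) (g : K) :
    0 ≤ (cut φ B f).coeff g := by
  classical
  rw [cut_coeff]
  split_ifs
  · exact hf g
  · exact le_rfl

lemma cut_smul (φ : K → ℤ) (B : ℤ) (c : ℝ) (f : MonoidAlgebra ℝ K) :
    cut φ B (c • f) = c • cut φ B f := by
  classical
  ext g
  rw [cut_coeff, coeff_smul, coeff_smul, Finsupp.smul_apply, Finsupp.smul_apply, cut_coeff]
  split_ifs <;> simp

lemma mass_nonneg {f : MonoidAlgebra ℝ K} (hf : ∀ g, 0 ≤ f.coeff g) : 0 ≤ mass f := by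
  rw [mass_eq_sum f (le_refl _)]
  exact Finset.sum_nonneg fun g _ => hf g

end alg

/-- The percolation theorem in the form needed here. -/
def S_PERC : Prop := ∀ (K : Type) [Group K] (φ : K → ℤ) (E : Type) [MeasurableSpace E]
  (m : Measure E) [IsProbabilityMeasure m] (μ : MonoidAlgebra ℝ K) (ℓ : E → K → ℝ)
  (Λ C T X : ℝ),
  (∀ x y, φ (x * y) = φ x + φ y) → IsProb μ → (∀ h ∈ μ.coeff.support, 1 ≤ φ h) →
  (∀ h, Measurable fun e => ℓ e h) → (∀ e h, 0 ≤ ℓ e h) → (∀ e h, ℓ e h ≤ Λ) →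
  (∀ h ∈ μ.coeff.support, ∫ e, ℓ e h ∂m = μ.coeff h) →
  (∑ h ∈ μ.coeff.support, ∑ h' ∈ μ.coeff.support, ∫ e, ℓ e h * ℓ e h' ∂m) ≤ C →
  (∀ n, ∑ k ∈ Icc 1 n, √(ip (μ ^ k) (μ ^ k)) ≤ T) →
  (∑ h ∈ μ.coeff.support, ∫ e, (ℓ e h) ^ 2 ∂m) ≤ X → X + C * (2 * T + T ^ 2) < 1 →
  ∃ δ : ℝ, 0 < δ ∧ ∃ T₀ : Set (K → E), MeasurableSet T₀ ∧
    ENNReal.ofReal δ ≤ (Measure.infinitePi fun _ : K => m) T₀ ∧
    ∀ ω ∈ T₀, {y | Relation.ReflTransGen
      (fun x y => ∃ h ∈ μ.coeff.support, 0 < ℓ (ω x) h ∧ y = x * h) 1 y}.Infinite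

/-- Existence of a good `r`. -/
lemma exists_r (c₂ K₀ : ℝ) (hc : 0 < c₂) (hK : 0 < K₀) : ∃ r : ℕ, 1 ≤ r ∧
    K₀ * (2 * (2 / (c₂ * r) ^ 2) + (2 / (c₂ * r) ^ 2) ^ 2) ≤ 1 / 4 := by
  set q := 2 / c₂ ^ 2 with hq
  have hq0 : 0 < q := by positivity
  obtain ⟨r, hr⟩ := exists_nat_gt (max 1 (max q (12 * K₀ * q)))
  have hr1 : (1 : ℝ) < r := (le_max_left _ _).trans_lt hr
  have hrq : q < r := ((le_max_left _ _).trans (le_max_right _ _)).trans_lt hr
  have hrK : 12 * K₀ * q < r := ((le_max_right _ _).trans (le_max_right _ _)).trans_lt hr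
  have hr0 : (0 : ℝ) < r := by linarith
  refine ⟨r, by exact_mod_cast hr1.le, ?_⟩
  have hT : 2 / (c₂ * r) ^ 2 = q / (r : ℝ) ^ 2 := by
    rw [hq]; field_simp
  rw [hT]
  set T := q / (r : ℝ) ^ 2 with hTd
  have hT0 : 0 < T := by positivity
  have hTr : T ≤ q / r := by
    rw [hTd, div_le_div_iff₀ (by positivity) hr0]
    have := mul_le_mul_of_nonneg_left hr1.le (mul_pos hq0 hr0).le
    nlinarith
  have hT1 : T ≤ 1 := hTr.trans (by rw [div_le_one hr0]; exact hrq.le)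
  have hTK : 12 * K₀ * T ≤ 1 := by
    have h1 : 12 * K₀ * T ≤ 12 * K₀ * (q / r) := by gcongr
    have h2 : 12 * K₀ * (q / r) = (12 * K₀ * q) / r := by ring
    rw [h2] at h1
    exact h1.trans (by rw [div_le_one hr0]; exact hrK.le)
  have h3 : T ^ 2 ≤ T := by nlinarith
  nlinarith

end

end K9h87.FD.Fin3
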