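import Pool.Agent.K9h87.FD.Fin3

set_option autoImplicit false

open MeasureTheory ProbabilityTheory Finset Filter Topology MonoidAlgebra
open scoped NNReal ENNReal

namespace K9h87.FD.Fin4

noncomputable section

open K9h87.FD.Fin1 K9h87.FD.Fin2 K9h87.FD.Fin3

/-- Package of facts about the return walk on `H`. -/
lemma walk (hmass : S_MASS) (hsymr : S_SYMR) (hgrb : S_GRB)
    (G : Type) [Group G] (S : Finset G) (hgen : Subgroup.closure (S : Set G) = ⊤)
    (hsym : ∀ s ∈ S, s⁻¹ ∈ S) (hS : S.Nonempty) (H : Subgroup G) (hfin : H.FiniteIndex)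
    (φ : H → ℤ) (hφ : ∀ x y, φ (x * y) = φ x + φ y) (hφ0 : ∃ h, φ h ≠ 0)
    (c : ℝ) (hc : 0 < c) (hgr : ∀ n : ℕ, 1 ≤ n → c * (n : ℝ) ^ 8 ≤ (ball S n).ncard) :
    ∃ (L₀ : ℕ) (A : Finset H) (a : H) (c' cA : ℝ), 1 ∈ A ∧ a ∈ A ∧ φ a ≠ 0 ∧ 0 < c' ∧ 0 < cA ∧
      (∀ n : ℕ, 1 ≤ n → ∃ W : Finset H, InPow A n W ∧ c' * (n : ℝ) ^ 8 ≤ W.card) ∧
      Tendsto (fun L => mass (codeM (S.card : ℝ)⁻¹ (val H) (ret S H L))) atTop (𝓝 1) ∧
      (∀ L, mass (codeM (S.card : ℝ)⁻¹ (val H) (ret S H L)) ≤ 1) ∧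
      (∀ L, L₀ ≤ L → 0 < mass (codeM (S.card : ℝ)⁻¹ (val H) (ret S H L))) ∧
      ∀ L, L₀ ≤ L → ∃ σ : MonoidAlgebra ℝ H, IsProb σ ∧ Sym σ ∧ (∀ x ∈ A, cA ≤ (σ * σ).coeff x) ∧
        codeM (S.card : ℝ)⁻¹ (val H) (ret S H L) =
          mass (codeM (S.card : ℝ)⁻¹ (val H) (ret S H L)) • σ := by
  classical
  obtain ⟨L₀, A, a, c', h1A, haA, hφa, hc', hAret, hW⟩ :=
    hgrb G S H hfin hS hsym hgen φ hφ hφ0 c hc hgr
  have hcard : (1 : ℝ) ≤ S.card := by exact_mod_cast hS.card_pos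
  set s : ℝ := (S.card : ℝ)⁻¹ with hs
  have hs0 : 0 < s := by positivity
  have hs1 : s ≤ 1 := inv_le_one_of_one_le₀ hcard
  have hmt : Tendsto (fun L => mass (codeM s (val H) (ret S H L))) atTop (𝓝 1) := by
    simp only [mass_codeM]
    exact hmass G S H hfin hS hsym hgen
  have hmono : Monotone fun L => mass (codeM s (val H) (ret S H L)) := by
    intro L L' hLL'
    simp only [mass_codeM]
    exact Finset.sum_le_sum_of_subset_of_nonneg (ret_mono hLL') fun _ _ _ => by positivity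
  have hle : ∀ L, mass (codeM s (val H) (ret S H L)) ≤ 1 := fun L => hmono.ge_of_tendsto hmt L
  have hpos : ∀ L, L₀ ≤ L → 0 < mass (codeM s (val H) (ret S H L)) := by
    intro L hL
    obtain ⟨v, hv, _⟩ := hAret 1 h1A
    rw [mass_codeM]
    exact Finset.sum_pos (fun _ _ => by positivity) ⟨v, ret_mono hL hv⟩
  refine ⟨L₀, A, a, c', s ^ (2 * L₀), h1A, haA, hφa, hc', by positivity, hW, hmt, hle, hpos, ?_⟩
  intro L hL
  have hm := hpos L hL
  refine ⟨(mass (codeM s (val H) (ret S H L)))⁻¹ • codeM s (val H) (ret S H L),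
    isProb_normalize (codeM_nonneg hs0.le _ _) hm, sym_smul (hsymr G S H s L hsym) _, ?_, ?_⟩
  · intro x hx
    obtain ⟨v, hv, v', hv', rfl⟩ := hAret x hx
    set m := mass (codeM s (val H) (ret S H L)) with hmdef
    set f := codeM s (val H) (ret S H L) with hf
    have h1 : ((m⁻¹ • f) * (m⁻¹ • f)) = (m⁻¹ * m⁻¹) • (f * f) := by
      rw [smul_mul_assoc, mul_smul_comm, smul_smul]
    rw [h1, coeff_smul, Finsupp.smul_apply, smul_eq_mul]
    have h2 : s ^ (2 * L₀) ≤ (f * f).coeff (val H v * val H v') := by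
      have h3 := coeff_mul_ge (f := f) (h := f) (codeM_nonneg hs0.le _ _) (codeM_nonneg hs0.le _ _)
        (val H v) (val H v')
      have h4 := codeM_ge hs0.le (val H) (ret_mono hL hv)
      have h5 := codeM_ge hs0.le (val H) (ret_mono hL hv')
      have h6 : s ^ L₀ ≤ s ^ v.length := pow_le_pow_of_le_one hs0.le hs1 (mem_ret.1 hv).1
      have h7 : s ^ L₀ ≤ s ^ v'.length := pow_le_pow_of_le_one hs0.le hs1 (mem_ret.1 hv').1
      calc s ^ (2 * L₀) = s ^ L₀ * s ^ L₀ := by rw [two_mul, pow_add]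
        _ ≤ f.coeff (val H v) * f.coeff (val H v') :=
            mul_le_mul (h6.trans h4) (h7.trans h5) (by positivity)
              ((by positivity : (0 : ℝ) ≤ s ^ v.length).trans h4)
        _ ≤ _ := h3
    have h8 : 1 ≤ m⁻¹ * m⁻¹ := by
      have : 1 ≤ m⁻¹ := (one_le_inv₀ hm).2 (hle L)
      nlinarith
    have h9 : 0 ≤ (f * f).coeff (val H v * val H v') := (by positivity : (0 : ℝ) ≤ s ^ (2 * L₀)).trans h2
    nlinarith
  · rw [smul_smul, mul_inv_cancel₀ hm.ne', one_smul]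

/-- Growth gives arbitrarily large sets. -/
lemma big {K : Type} [Group K] {A : Finset K} {c' : ℝ} (hc' : 0 < c')
    (hW : ∀ n : ℕ, 1 ≤ n → ∃ W : Finset K, InPow A n W ∧ c' * (n : ℝ) ^ 8 ≤ W.card) (N : ℕ) :
    ∃ (n : ℕ) (W : Finset K), InPow A n W ∧ N ≤ W.card := by
  obtain ⟨n, hn⟩ := exists_nat_gt (max 1 (N / c'))
  have hn1 : (1 : ℝ) < n := (le_max_left _ _).trans_lt hn
  have hnN : N / c' < n := (le_max_right _ _).trans_lt hn
  obtain ⟨W, hWA, hWc⟩ := hW n (by exact_mod_cast hn1.le)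
  refine ⟨n, W, hWA, ?_⟩
  rw [div_lt_iff₀ hc'] at hnN
  have h1 : (n : ℝ) ≤ (n : ℝ) ^ 8 := by
    calc (n : ℝ) = (n : ℝ) ^ 1 := (pow_one _).symm
      _ ≤ (n : ℝ) ^ 8 := pow_le_pow_right₀ hn1.le (by norm_num)
  have h2 : (N : ℝ) ≤ W.card := by nlinarith
  exact_mod_cast h2

/-- A lower bound for the height of products of values. -/
lemma height {G K : Type} [Group K] (φ : K → ℤ) (hφ : ∀ x y, φ (x * y) = φ x + φ y)
    (f : List G → K) (C : Finset (List G)) : ∃ b : ℤ, 0 ≤ b ∧ ∀ (n : ℕ) (l : List (List G)),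
      l ∈ words C n → -(n * b) ≤ φ (l.map f).prod := by
  classical
  have hφ1 : φ 1 = 0 := by
    have := hφ 1 1
    rw [mul_one] at this
    omega
  refine ⟨∑ v ∈ C, |φ (f v)|, Finset.sum_nonneg fun _ _ => abs_nonneg _, ?_⟩
  intro n
  induction n with
  | zero =>
    intro l hl
    rw [mem_words] at hl
    have : l = [] := List.length_eq_zero_iff.1 hl.1
    subst this
    simp [hφ1]
  | succ n ih =>
    intro l hl
    rw [mem_words] at hl
    cases l with
    | nil => simp at hl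
    | cons v l =>
      have h1 : l ∈ words C n := (mem_words _ _ _).2 ⟨by simpa using hl.1, fun a ha =>
        hl.2 a (List.mem_cons_of_mem _ ha)⟩
      have h2 := ih l h1
      have h3 : |φ (f v)| ≤ ∑ v ∈ C, |φ (f v)| :=
        Finset.single_le_sum (f := fun v => |φ (f v)|) (fun _ _ => abs_nonneg _)
          (hl.2 v List.mem_cons_self)
      have h4 := neg_abs_le (φ (f v))
      rw [List.map_cons, List.prod_cons, hφ]
      push_cast
      nlinarith

end

end K9h87.FD.Fin4
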