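import Pool.Agent.K9h87.FD.Fin4

set_option autoImplicit false

open MeasureTheory ProbabilityTheory Finset Filter Topology MonoidAlgebra
open scoped NNReal ENNReal

namespace K9h87.FD.Fin5

noncomputable section

open K9h87.FD.Fin1 K9h87.FD.Fin2 K9h87.FD.Fin3 K9h87.FD.Fin4

lemma supp_mul {K : Type} [Group K] {f g : MonoidAlgebra ℝ K} {h : K} (hh : (f * g).coeff h ≠ 0) :
    ∃ y z, f.coeff y ≠ 0 ∧ g.coeff z ≠ 0 ∧ h = y * z := by
  classical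
  rw [coeff_mul_apply_left, Finsupp.sum] at hh
  obtain ⟨a, ha, hne⟩ := Finset.exists_ne_zero_of_sum_ne_zero hh
  refine ⟨a, a⁻¹ * h, left_ne_zero_of_mul hne, right_ne_zero_of_mul hne, by group⟩

lemma supp_codeM {G K : Type} {c : ℝ} {f : List G → K} {C : Finset (List G)} {h : K}
    (hh : (codeM c f C).coeff h ≠ 0) : ∃ v ∈ C, f v = h := by
  classical
  unfold codeM at hh
  rw [coeff_sum, Finsupp.finsetSum_apply] at hh
  obtain ⟨v, hv, hne⟩ := Finset.exists_ne_zero_of_sum_ne_zero hh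
  refine ⟨v, hv, ?_⟩
  by_contra hcon
  apply hne
  rw [coeff_single, Finsupp.single_apply, if_neg hcon]

lemma supp_pow {G K : Type} [Group K] {c : ℝ} {f : List G → K} {C : Finset (List G)} {n : ℕ} {h : K}
    (hh : (codeM c f C ^ n).coeff h ≠ 0) : ∃ l ∈ words C n, (l.map f).prod = h := by
  classical
  induction n generalizing h with
  | zero =>
    rw [pow_zero, MonoidAlgebra.one_def, coeff_single, Finsupp.single_apply] at hh
    refine ⟨[], (mem_words _ _ _).2 ⟨rfl, by simp⟩, ?_⟩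
    by_contra hcon
    exact hh (if_neg fun h1 => hcon (by simpa using h1))
  | succ n ih =>
    rw [pow_succ'] at hh
    obtain ⟨y, z, hy, hz, rfl⟩ := supp_mul hh
    obtain ⟨v, hv, rfl⟩ := supp_codeM hy
    obtain ⟨l, hl, rfl⟩ := ih hz
    rw [mem_words] at hl
    refine ⟨v :: l, (mem_words _ _ _).2 ⟨by simp [hl.1], ?_⟩, by simp⟩
    intro a ha
    rcases List.mem_cons.1 ha with rfl | ha
    · exact hv
    · exact hl.2 a ha

lemma coeff_pow_nonneg {K : Type} [Group K] {f : MonoidAlgebra ℝ K} (hf : ∀ g, 0 ≤ f.coeff g)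
    (n : ℕ) (g : K) : 0 ≤ (f ^ n).coeff g := by
  induction n generalizing g with
  | zero => rw [pow_zero]; exact isProb_one.1 g
  | succ n ih => rw [pow_succ]; exact coeff_mul_nonneg ih hf g

lemma isProb_siteLaw {G : Type} [MeasurableSpace G] [DiscreteMeasurableSpace G] {S : Finset G}
    (hS : S.Nonempty) (lam : ℝ≥0) : IsProbabilityMeasure (siteLaw S lam) := by
  have : ∀ p : ℕ × ℕ, IsProbabilityMeasure (expMeasure 1) := fun _ =>
    isProbabilityMeasure_expMeasure one_pos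
  have hc : IsProbabilityMeasure clockLaw := by
    unfold clockLaw; infer_instance
  have hu : IsProbabilityMeasure (uniformOn (S : Set G)) :=
    isProbabilityMeasure_uniformOn S.finite_toSet hS
  have hs : IsProbabilityMeasure (stepsLaw S) := by
    unfold stepsLaw; infer_instance
  unfold siteLaw
  infer_instance

theorem core (hperc : S_PERC) (hstc : S_STC) (hmass : S_MASS) (hsymr : S_SYMR) (hgrb : S_GRB)
    (hces : S_CES) (hpq : S_PQ) (hnash : S_NASH) (hsum : S_SUM) (hzb : S_ZB)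
    (G : Type) [Group G] [Countable G] [MeasurableSpace G] [DiscreteMeasurableSpace G]
    (S : Finset G) (hgen : Subgroup.closure (S : Set G) = ⊤)
    (hsym : ∀ s ∈ S, s⁻¹ ∈ S) (hS : S.Nonempty) (H : Subgroup G) (hfin : H.FiniteIndex)
    (φ : H → ℤ) (hφ : ∀ x y, φ (x * y) = φ x + φ y) (hφ0 : ∃ h, φ h ≠ 0)
    (c : ℝ) (hc : 0 < c) (hgr : ∀ n : ℕ, 1 ≤ n → c * (n : ℝ) ^ 8 ≤ (ball S n).ncard)
    (lam : ℝ≥0) (hlam : 0 < lam) :
    ∃ t₀ : ℝ, ∀ t ≥ t₀, 0 < frogLaw S lam (survives G t) := by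
  classical
  obtain ⟨L₀, A, a, c', cA, h1A, haA, hφa, hc', hcA, hW, hmt, hm1, hmpos, hwalk⟩ :=
    walk hmass hsymr hgrb G S hgen hsym hS H hfin φ hφ hφ0 c hc hgr
  set s : ℝ := (S.card : ℝ)⁻¹ with hs
  have hs0 : 0 ≤ s := by positivity
  set cM : ℕ → MonoidAlgebra ℝ H := fun L => codeM s (val H) (ret S H L) with hcM
  have hcM0 : ∀ L g, 0 ≤ (cM L).coeff g := fun L g => codeM_nonneg hs0 _ _ g
  -- constants
  obtain ⟨c₂, hc₂, hnash'⟩ := hnash H A cA c' hcA hc' hW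
  obtain ⟨p₀, hp₀⟩ : ∃ p₀ : ℝ, p₀ = (1 - Real.exp (-lam)) / 2 := ⟨_, rfl⟩
  have hp₀0 : 0 < p₀ := by
    rw [hp₀]
    have : Real.exp (-(lam : ℝ)) < 1 := by
      rw [Real.exp_lt_one_iff]
      have : (0 : ℝ) < lam := by exact_mod_cast hlam
      linarith
    linarith
  obtain ⟨r, hr1, hr⟩ := exists_r c₂ (64 / p₀) hc₂ (by positivity)
  -- L₁
  obtain ⟨L₁, hL₁0, hL₁⟩ : ∃ L₁, L₀ ≤ L₁ ∧ 3 / 4 ≤ mass (cM L₁) ^ r := by
    have h1 : Tendsto (fun L => mass (cM L) ^ r) atTop (𝓝 (1 ^ r)) := hmt.pow r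
    rw [one_pow] at h1
    have h2 := (h1.eventually (lt_mem_nhds (show (3 / 4 : ℝ) < 1 by norm_num))).and
      (eventually_ge_atTop L₀)
    obtain ⟨L, h3, h4⟩ := h2.exists
    exact ⟨L, h4, h3.le⟩
  obtain ⟨b, hb0, hb⟩ := height φ hφ (val H) (ret S H L₁)
  obtain ⟨B, hB⟩ : ∃ B : ℤ, B = r * b := ⟨_, rfl⟩
  have hB0 : 0 ≤ B := by rw [hB]; positivity
  obtain ⟨U, hU⟩ := hzb H φ hφ a cA hcA hφa B hB0
  obtain ⟨M₀, hM₀⟩ := hces H A cA hcA (big hc' hW) (p₀ / 256) (by positivity)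
  obtain ⟨M, hM⟩ : ∃ M, M = max M₀ 1 := ⟨_, rfl⟩
  have hMM₀ : M₀ ≤ M := hM ▸ le_max_left _ _
  have hM1 : 1 ≤ M := hM ▸ le_max_right _ _
  have hMpos : (0 : ℝ) < M := by exact_mod_cast hM1
  obtain ⟨L₂, hL₂0, hL₂⟩ : ∃ L₂, L₀ ≤ L₂ ∧ 3 / 4 ≤ mass (cM L₂) ^ (U + M) := by
    have h1 : Tendsto (fun L => mass (cM L) ^ (U + M)) atTop (𝓝 (1 ^ (U + M))) := hmt.pow _
    rw [one_pow] at h1
    have h2 := (h1.eventually (lt_mem_nhds (show (3 / 4 : ℝ) < 1 by norm_num))).and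
      (eventually_ge_atTop L₀)
    obtain ⟨L, h3, h4⟩ := h2.exists
    exact ⟨L, h4, h3.le⟩
  obtain ⟨σ₁, hσ₁, hσ₁s, hσ₁A, hσ₁e⟩ := hwalk L₁ hL₁0
  obtain ⟨σ₂, hσ₂, hσ₂s, hσ₂A, hσ₂e⟩ := hwalk L₂ hL₂0
  obtain ⟨k, hk⟩ : ∃ k, k = r * L₁ + (U + M) * L₂ := ⟨_, rfl⟩
  obtain ⟨t₀, ht₀⟩ := hpq lam k hlam
  refine ⟨t₀, fun t ht => ?_⟩
  -- the law of the walk
  obtain ⟨⟨hRm, hR0, hRM⟩, hRint, hRsq⟩ := hstc G S H (val H) φ (ret S H L₁) (ret S H L₂) r U M B hS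
    (fun v hv => ⟨(mem_ret.1 hv).2.2.1, (mem_ret.1 hv).2.1⟩)
    (fun v hv => ⟨(mem_ret.1 hv).2.2.1, (mem_ret.1 hv).2.1⟩)
    (fun v hv v' hv' h => ret_prefix hv hv' h) (fun v hv v' hv' h => ret_prefix hv hv' h)
  set R := Rw (val H) φ (ret S H L₁) (ret S H L₂) r U M B with hR
  set ρ₂ : MonoidAlgebra ℝ H := ∑ u ∈ range M, cut φ B (cM L₂ ^ (U + u)) with hρ₂
  set ρ : MonoidAlgebra ℝ H := cM L₁ ^ r * ρ₂ with hρ
  have hρ₂0 : ∀ g, 0 ≤ ρ₂.coeff g := by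
    intro g
    rw [hρ₂, coeff_sum, Finsupp.finsetSum_apply]
    exact Finset.sum_nonneg fun u _ => cut_nonneg (coeff_pow_nonneg (hcM0 _) _) g
  have hρ0 : ∀ g, 0 ≤ ρ.coeff g := coeff_mul_nonneg (coeff_pow_nonneg (hcM0 _) _) hρ₂0
  -- masses
  set m₁ := mass (cM L₁) with hm₁
  set m₂ := mass (cM L₂) with hm₂
  have hm₁0 : 0 < m₁ := hmpos _ hL₁0
  have hm₂0 : 0 < m₂ := hmpos _ hL₂0
  have hm₂1 : m₂ ≤ 1 := hm1 _
  have hmass_pow : mass (cM L₁ ^ r) = m₁ ^ r := by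
    have e1 : cM L₁ = m₁ • σ₁ := hσ₁e
    rw [e1, smul_pow, mass_smul, (hσ₁.pow r).2, mul_one]
  have hcut : ∀ u ∈ range M, 3 / 16 ≤ mass (cut φ B (cM L₂ ^ (U + u))) := by
    intro u hu
    have hu' : u < M := Finset.mem_range.1 hu
    have e2 : cM L₂ = m₂ • σ₂ := hσ₂e
    rw [e2, smul_pow, cut_smul, mass_smul]
    have h1 := hU σ₂ hσ₂ hσ₂s (hσ₂A 1 h1A) (hσ₂A a haA) (U + u) (by omega)
    have h2 : m₂ ^ (U + M) ≤ m₂ ^ (U + u) := pow_le_pow_of_le_one hm₂0.le hm₂1 (by omega)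
    have h3 : 3 / 4 ≤ m₂ ^ (U + u) := hL₂.trans h2
    nlinarith
  have hmρ₂ : 3 / 16 * (M : ℝ) ≤ mass ρ₂ := by
    rw [hρ₂, mass_sum]
    have := Finset.sum_le_sum hcut
    rw [Finset.sum_const, Finset.card_range, nsmul_eq_mul] at this
    linarith
  set Z := mass ρ with hZ
  have hZeq : Z = m₁ ^ r * mass ρ₂ := by rw [hZ, hρ, mass_mul, hmass_pow]
  have hZM : (M : ℝ) / 8 ≤ Z := by
    rw [hZeq]
    have h1 : 3 / 4 * (3 / 16 * (M : ℝ)) ≤ m₁ ^ r * mass ρ₂ :=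
      mul_le_mul hL₁ hmρ₂ (by positivity) (by positivity)
    linarith
  have hZ0 : 0 < Z := lt_of_lt_of_le (by positivity) hZM
  have hmρ₂0 : 0 < mass ρ₂ := lt_of_lt_of_le (by positivity) hmρ₂
  set μ : MonoidAlgebra ℝ H := Z⁻¹ • ρ with hμ
  have hμP : IsProb μ := isProb_normalize hρ0 hZ0
  have hμfac : μ = σ₁ ^ r * ((mass ρ₂)⁻¹ • ρ₂) := by
    have e1 : cM L₁ = m₁ • σ₁ := hσ₁e
    rw [hμ, hρ, e1, smul_pow, hZeq, smul_mul_assoc, smul_smul, mul_smul_comm]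
    congr 1
    field_simp
  have hμsupp : ∀ h ∈ μ.coeff.support, 1 ≤ φ h := by
    intro h hh
    have h1 : ρ.coeff h ≠ 0 := by
      intro h0
      rw [Finsupp.mem_support_iff] at hh
      apply hh
      rw [hμ, coeff_smul, Finsupp.smul_apply, h0, smul_zero]
    obtain ⟨y, z, hy, hz, rfl⟩ := supp_mul h1
    obtain ⟨l, hl, rfl⟩ := supp_pow hy
    have h2 := hb r l hl
    have h3 : B < φ z := by
      rw [hρ₂, coeff_sum, Finsupp.finsetSum_apply] at hz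
      obtain ⟨u, _, hu⟩ := Finset.exists_ne_zero_of_sum_ne_zero hz
      rw [cut_coeff] at hu
      by_contra hcon
      exact hu (if_neg hcon)
    rw [hφ]
    omega
  -- the kernel
  have hp : p₀ ≤ pr lam k t := by
    rw [hp₀]
    exact ht₀ t ht
  have hp0 : 0 < pr lam k t := hp₀0.trans_le hp
  set p := pr lam k t with hpdef
  set C₀ : ℝ := (p * Z)⁻¹ with hC₀
  have hC₀0 : 0 ≤ C₀ := by positivity
  have hPr : IsProbabilityMeasure (siteLaw S lam) := isProb_siteLaw hS lam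
  have hRle : ∀ w h, R w h ≤ M := by
    intro w h
    have := hRM w {h}
    rwa [Finset.sum_singleton] at this
  have hC₀2 : C₀ ^ 2 * p * (M : ℝ) ^ 2 ≤ 64 / p₀ := by
    have h1 : C₀ ^ 2 * p * (M : ℝ) ^ 2 = (M / Z) ^ 2 / p := by
      rw [hC₀]; field_simp
    have h2 : (M : ℝ) / Z ≤ 8 := by rw [div_le_iff₀ hZ0]; linarith
    have h3 : ((M : ℝ) / Z) ^ 2 ≤ 64 := by
      have : 0 ≤ (M : ℝ) / Z := by positivity
      nlinarith
    rw [h1]
    calc ((M : ℝ) / Z) ^ 2 / p ≤ 64 / p := by gcongr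
      _ ≤ 64 / p₀ := by gcongr
  have hsum1 : (∑ h ∈ μ.coeff.support, ∑ h' ∈ μ.coeff.support,
      ∫ e, ker G R k t C₀ e h * ker G R k t C₀ e h' ∂(siteLaw S lam)) ≤ 64 / p₀ :=
    (ker_sum2 S hS lam k t C₀ _ hRm hR0 (fun w => hRM w _) hMpos.le).trans hC₀2
  have hY : (M : ℝ) * (1 + 2 * ∑ j ∈ Ico 1 M, (cM L₂ ^ j).coeff 1) ≤ M * (p₀ / 256 * M) := by
    refine mul_le_mul_of_nonneg_left ?_ hMpos.le
    refine le_trans ?_ (hM₀ σ₂ hσ₂ hσ₂s hσ₂A M hMM₀)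
    have h1 : ∑ j ∈ Ico 1 M, (cM L₂ ^ j).coeff 1 ≤ ∑ j ∈ Ico 1 M, (σ₂ ^ j).coeff 1 := by
      refine Finset.sum_le_sum fun j _ => ?_
      have e2 : cM L₂ = m₂ • σ₂ := hσ₂e
      rw [e2, smul_pow, coeff_smul, Finsupp.smul_apply, smul_eq_mul]
      have h2 : m₂ ^ j ≤ 1 := pow_le_one₀ hm₂0.le hm₂1
      have h3 := (hσ₂.pow j).1 1
      nlinarith
    linarith
  have hX : (∑ h ∈ μ.coeff.support, ∫ e, (ker G R k t C₀ e h) ^ 2 ∂(siteLaw S lam)) ≤ 1 / 4 := by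
    have h1 := ker_sum1 S hS lam k t C₀ μ.coeff.support ((hRsq μ.coeff.support).trans hY)
    refine h1.trans ?_
    have h2 : C₀ ^ 2 * pr lam k t * ((M : ℝ) * (p₀ / 256 * M))
        = (C₀ ^ 2 * p * (M : ℝ) ^ 2) * (p₀ / 256) := by rw [hpdef]; ring
    rw [h2]
    calc (C₀ ^ 2 * p * (M : ℝ) ^ 2) * (p₀ / 256) ≤ (64 / p₀) * (p₀ / 256) := by gcongr
      _ = 1 / 4 := by field_simp; norm_num
  have hkint : ∀ h ∈ μ.coeff.support, ∫ e, ker G R k t C₀ e h ∂(siteLaw S lam) = μ.coeff h := by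
    intro h _
    rw [ker_int S hS lam k t C₀ h, hRint h, hμ, coeff_smul, Finsupp.smul_apply, smul_eq_mul, hC₀,
      ← hpdef]
    have : (p * Z)⁻¹ * p = Z⁻¹ := by field_simp
    rw [this]
  have hT : ∀ n, ∑ k ∈ Icc 1 n, √(ip (μ ^ k) (μ ^ k)) ≤ 2 / (c₂ * r) ^ 2 := by
    intro n
    rw [hμfac]
    exact hsum H σ₁ ((mass ρ₂)⁻¹ • ρ₂) hσ₁ (isProb_normalize hρ₂0 hmρ₂0) c₂ hc₂
      (hnash' σ₁ hσ₁ hσ₁s hσ₁A) r hr1 n
  obtain ⟨δ, hδ, T₀, hT₀m, hT₀P, hT₀⟩ := hperc H φ (Site G) (siteLaw S lam) μ (ker G R k t C₀)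
    (M * C₀) (64 / p₀) (2 / (c₂ * r) ^ 2) (1 / 4) hφ hμP hμsupp (fun h => ker_meas hRm k t C₀ h)
    (ker_nonneg hR0 k t hC₀0) (ker_le hMpos.le hRle k t hC₀0) hkint hsum1 hT hX (by linarith)
  -- back to the frog model
  have hmap : (frogLaw S lam).map (fun (D : G → Site G) (h : H) => D (h : G))
      = Measure.infinitePi fun _ : H => siteLaw S lam := by
    unfold frogLaw
    exact Measure.map_infinitePi_infinitePi_of_inj Subtype.val_injective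
  have hπm : Measurable (fun (D : G → Site G) (h : H) => D (h : G)) := by fun_prop
  have h1 : 0 < frogLaw S lam ((fun (D : G → Site G) (h : H) => D (h : G)) ⁻¹' T₀) := by
    rw [← Measure.map_apply hπm hT₀m, hmap]
    exact (ENNReal.ofReal_pos.2 hδ).trans_le hT₀P
  refine h1.trans_le (measure_mono fun D hD => ?_)
  have h2 := hT₀ _ hD
  have h3 : ((fun y : H => (y : G)) '' {y : H | Relation.ReflTransGen
      (fun (x y : H) => ∃ h ∈ μ.coeff.support, 0 < ker G R k t C₀ (D (x : G)) h ∧ y = x * h) 1 y}).Infinite :=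
    h2.image Subtype.val_injective.injOn
  refine h3.mono ?_
  rintro _ ⟨y, hy, rfl⟩
  have h4 : ∀ y : H, Relation.ReflTransGen
      (fun (x y : H) => ∃ h ∈ μ.coeff.support, 0 < ker G R k t C₀ (D (x : G)) h ∧ y = x * h) 1 y →
      Relation.ReflTransGen (Visits D t) 1 (y : G) := by
    intro y hy
    induction hy with
    | refl => exact Relation.ReflTransGen.refl
    | tail _ hst ih =>
      refine ih.tail ?_
      obtain ⟨h, _, hpos, rfl⟩ := hst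
      obtain ⟨hEv, hRpos⟩ := ker_pos hpos hC₀0
      rw [Subgroup.coe_mul]
      exact visits_of_Rw hk.ge hEv.1 hEv.2 hRpos
  exact h4 y hy

end

end K9h87.FD.Fin5
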