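import Pool.Agent.K9h87.FD.Stm2

/-!
# Leaf GRA of project FD: the Schreier decomposition into first return words
-/

set_option autoImplicit false
set_option linter.all false

open Finset Filter Topology

namespace K9h87.FD

noncomputable section

section GRA

theorem GRA_mem_words {α : Type} (S : Finset α) (n : ℕ) (v : List α) :
    v ∈ words S n ↔ v.length = n ∧ ∀ a ∈ v, a ∈ S := by
  induction n generalizing v with
  | zero =>
    rw [words, Finset.mem_singleton]
    constructor
    · rintro rfl
      simp
    · rintro ⟨h, -⟩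
      exact List.eq_nil_of_length_eq_zero h
  | succ n ih =>
    classical
    simp only [words, Finset.mem_image, Finset.mem_product, Prod.exists]
    constructor
    · rintro ⟨a, l, ⟨ha, hl⟩, rfl⟩
      obtain ⟨h1, h2⟩ := (ih l).1 hl
      refine ⟨by simp [h1], ?_⟩
      intro b hb
      rcases List.mem_cons.1 hb with rfl | hb
      · exact ha
      · exact h2 b hb
    · rintro ⟨h1, h2⟩
      cases v with
      | nil => simp at h1
      | cons a l =>
        refine ⟨a, l, ⟨h2 a List.mem_cons_self, (ih l).2 ⟨by simpa using h1, fun b hb =>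
          h2 b (List.mem_cons_of_mem _ hb)⟩⟩, rfl⟩

variable {G : Type} [Group G]

theorem GRA_mem_ret (S : Finset G) (H : Subgroup G) (L : ℕ) (v : List G) :
    v ∈ ret S H L ↔ v.length ≤ L ∧ (∀ a ∈ v, a ∈ S) ∧ IsRet H v := by
  classical
  unfold ret
  rw [Finset.mem_biUnion]
  constructor
  · rintro ⟨n, hn, hv⟩
    obtain ⟨h1, h2⟩ := Finset.mem_filter.1 hv
    obtain ⟨h3, h4⟩ := (GRA_mem_words S n v).1 h1
    rw [Finset.mem_range] at hn
    exact ⟨by omega, h4, h2⟩
  · rintro ⟨h1, h2, h3⟩
    exact ⟨v.length, Finset.mem_range.2 (by omega), Finset.mem_filter.2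
      ⟨(GRA_mem_words S _ v).2 ⟨rfl, h2⟩, h3⟩⟩

/-- words with value in `H` are concatenations of first return words -/
theorem GRA_parse (H : Subgroup G) : ∀ (n : ℕ) (v : List G), v.length = n → v.prod ∈ H →
    ∃ l : List (List G), l.flatten = v ∧ l.length ≤ n ∧ ∀ w ∈ l, IsRet H w := by
  intro n
  induction n using Nat.strong_induction_on with
  | _ n ih =>
    classical
    intro v hv hH
    by_cases h0 : v = []
    · exact ⟨[], by simp [h0], Nat.zero_le _, by simp⟩
    · have hlen : 0 < v.length := List.length_pos_iff.2 h0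
      have hex : ∃ k, 1 ≤ k ∧ (v.take k).prod ∈ H := ⟨v.length, hlen, by rw [List.take_length]; exact hH⟩
      set k := Nat.find hex with hk
      obtain ⟨hk1, hk2⟩ := Nat.find_spec hex
      have hkmin : ∀ j, 1 ≤ j → j < k → (v.take j).prod ∉ H := fun j h1 h2 h3 =>
        Nat.find_min hex h2 ⟨h1, h3⟩
      have hkle : k ≤ v.length := Nat.find_min' hex ⟨hlen, by rw [List.take_length]; exact hH⟩
      have hd : (v.drop k).prod ∈ H := by
        have h1 : (v.take k).prod * (v.drop k).prod = v.prod := by
          rw [← List.prod_append, List.take_append_drop]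
        have h2 : (v.drop k).prod = (v.take k).prod⁻¹ * v.prod := by
          rw [← h1]
          group
        rw [h2]
        exact H.mul_mem (H.inv_mem hk2) hH
      obtain ⟨l, hl1, hl2, hl3⟩ := ih (v.drop k).length (by
        rw [List.length_drop]
        omega) (v.drop k) rfl hd
      refine ⟨v.take k :: l, ?_, ?_, ?_⟩
      · rw [List.flatten_cons, hl1, List.take_append_drop]
      · rw [List.length_cons]
        rw [List.length_drop] at hl2
        omega
      · intro w hw
        rcases List.mem_cons.1 hw with rfl | hw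
        · refine ⟨?_, hk2, ?_⟩
          · intro h
            have := congrArg List.length h
            rw [List.length_take, List.length_nil] at this
            omega
          · intro j h1 h2
            rw [List.length_take] at h2
            rw [List.take_take]
            rw [Nat.min_eq_left (by omega)]
            exact hkmin j h1 (by omega)
        · exact hl3 w hw

theorem GRA_val (H : Subgroup G) (l : List (List G)) (h : ∀ w ∈ l, IsRet H w) :
    (((l.map (val H)).prod : H) : G) = l.flatten.prod := by
  induction l with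
  | nil => simp
  | cons w l ih =>
    rw [List.map_cons, List.prod_cons, List.flatten_cons, List.prod_append, Subgroup.coe_mul,
      ih (fun w' hw' => h w' (List.mem_cons_of_mem _ hw'))]
    congr 1
    unfold val
    rw [dif_pos (h w List.mem_cons_self).2.1]

/-- a word in `H` is a product of values of first return words -/
theorem GRA_parse2 (S : Finset G) (H : Subgroup G) (v : List G) (hS : ∀ a ∈ v, a ∈ S)
    (hH : v.prod ∈ H) (L : ℕ) (hL : v.length ≤ L) :
    ∃ l : List (List G), l.flatten = v ∧ l.length ≤ v.length ∧ (∀ w ∈ l, w ∈ ret S H L) ∧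
      (((l.map (val H)).prod : H) : G) = v.prod := by
  obtain ⟨l, h1, h2, h3⟩ := GRA_parse H v.length v rfl hH
  refine ⟨l, h1, h2, ?_, ?_⟩
  · intro w hw
    rw [GRA_mem_ret]
    refine ⟨?_, ?_, h3 w hw⟩
    · have h4 : w.length ≤ l.flatten.length := (List.sublist_flatten_of_mem hw).length_le
      rw [h1] at h4
      exact h4.trans hL
    · intro a ha
      apply hS
      rw [← h1]
      exact List.mem_flatten.2 ⟨w, hw, ha⟩
  · rw [GRA_val H l h3, h1]

theorem GRA_gen (S : Finset G) (hsym : ∀ s ∈ S, s⁻¹ ∈ S)
    (hgen : Subgroup.closure (S : Set G) = ⊤) (x : G) :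
    ∃ l : List G, (∀ a ∈ l, a ∈ S) ∧ l.prod = x := by
  have h1 : x ∈ Subgroup.closure (S : Set G) := by
    rw [hgen]
    exact Subgroup.mem_top x
  have h2 : x ∈ Submonoid.closure ((S : Set G) ∪ (S : Set G)⁻¹) := by
    rw [← Subgroup.closure_toSubmonoid]
    exact h1
  obtain ⟨l, hl1, hl2⟩ := Submonoid.exists_list_of_mem_closure h2
  refine ⟨l, fun a ha => ?_, hl2⟩
  rcases hl1 a ha with h | h
  · exact h
  · have h3 : a⁻¹ ∈ S := h
    have := hsym _ h3
    rwa [inv_inv] at this

/-- the words `u x` -/
theorem GRA_u (S : Finset G) (H : Subgroup G) (hfin : H.FiniteIndex) (hsym : ∀ s ∈ S, s⁻¹ ∈ S)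
    (hgen : Subgroup.closure (S : Set G) = ⊤) :
    ∃ (u : G → List G) (d : ℕ), (∀ x, ∀ a ∈ u x, a ∈ S) ∧ (∀ x, x * (u x).prod ∈ H) ∧
      (∀ x ∈ H, u x = []) ∧ (∀ x, (u x).length ≤ d) ∧ (Set.range u).Finite := by
  classical
  have hF : Finite (G ⧸ H) := inferInstance
  choose W hW1 hW2 using GRA_gen S hsym hgen
  obtain ⟨d, hd⟩ := (Set.finite_range (fun q : G ⧸ H => (W q.out).length)).bddAbove
  refine ⟨fun x => if x ∈ H then [] else W (QuotientGroup.mk (s := H) x⁻¹).out, d, ?_, ?_, ?_, ?_, ?_⟩
  · intro x a ha
    dsimp only at ha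
    split_ifs at ha with h
    · simp at ha
    · exact hW1 _ a ha
  · intro x
    dsimp only
    split_ifs with h
    · simpa using h
    · rw [hW2]
      have h1 : (QuotientGroup.mk (s := H) x⁻¹) =
          QuotientGroup.mk (s := H) (QuotientGroup.mk (s := H) x⁻¹).out := by
        rw [QuotientGroup.out_eq']
      rw [QuotientGroup.eq, inv_inv] at h1
      exact h1
  · intro x hx
    dsimp only
    rw [if_pos hx]
  · intro x
    dsimp only
    split_ifs with h
    · simp
    · exact hd ⟨_, rfl⟩
  · apply ((Set.finite_range (fun q : G ⧸ H => W q.out)).union (Set.finite_singleton [])).subset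
    rintro _ ⟨x, rfl⟩
    dsimp only
    split_ifs with h
    · right; rfl
    · left; exact ⟨_, rfl⟩

theorem GRA_ball_finite (S : Finset G) (n : ℕ) : (ball S n).Finite := by
  classical
  apply (((Finset.range (n + 1)).biUnion (words S)).image List.prod).finite_toSet.subset
  rintro x ⟨l, h1, h2, h3⟩
  rw [Finset.mem_coe, Finset.mem_image]
  refine ⟨l, ?_, h3⟩
  rw [Finset.mem_biUnion]
  exact ⟨l.length, Finset.mem_range.2 (by omega), (GRA_mem_words S _ l).2 ⟨rfl, h2⟩⟩

theorem GRA_inv_word (S : Finset G) (hsym : ∀ s ∈ S, s⁻¹ ∈ S) (u : List G) (hu : ∀ a ∈ u, a ∈ S) :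
    (∀ a ∈ (u.map (·⁻¹)).reverse, a ∈ S) ∧ ((u.map (·⁻¹)).reverse).prod = u.prod⁻¹ ∧
      ((u.map (·⁻¹)).reverse).length = u.length := by
  refine ⟨?_, ?_, by simp⟩
  · intro a ha
    rw [List.mem_reverse, List.mem_map] at ha
    obtain ⟨b, hb, rfl⟩ := ha
    exact hsym b (hu b hb)
  · rw [List.prod_inv_reverse]

end GRA

theorem gra : S_GRA := by
  intro G _ S H hfin hne hsym hgen
  classical
  obtain ⟨u, d, hu1, hu2, hu3, hu4, hu5⟩ := GRA_u S H hfin hsym hgen
  refine ⟨2 * (d + 1) + 1, by omega, ?_, ?_, d, (Set.range u).ncard, ?_, ?_⟩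
  · intro n h hh
    obtain ⟨s, hs1, hs2, hs3⟩ := hh
    have key : ∀ (s : List G) (x : G), (∀ a ∈ s, a ∈ S) →
        ∃ l : List (List G), l.length ≤ (2 * (d + 1) + 1) * s.length ∧
          (∀ v ∈ l, v ∈ ret S H (2 * (d + 1) + 1)) ∧
          (((l.map (val H)).prod : H) : G) = (u x).prod⁻¹ * s.prod * (u (x * s.prod)).prod := by
      intro s
      induction s with
      | nil =>
        intro x _
        refine ⟨[], by simp, by simp, ?_⟩
        simp
      | cons a s ih =>
        intro x hs
        obtain ⟨l, hl1, hl2, hl3⟩ := ih (x * a) (fun b hb => hs b (List.mem_cons_of_mem _ hb))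
        obtain ⟨hi1, hi2, hi3⟩ := GRA_inv_word S hsym (u x) (hu1 x)
        set v : List G := ((u x).map (·⁻¹)).reverse ++ (a :: u (x * a)) with hv
        have hvp : v.prod = (u x).prod⁻¹ * a * (u (x * a)).prod := by
          rw [hv, List.prod_append, hi2, List.prod_cons, mul_assoc]
        have hvH : v.prod ∈ H := by
          have h1 : v.prod = (x * (u x).prod)⁻¹ * (x * a * (u (x * a)).prod) := by
            rw [hvp]
            group
          rw [h1]
          exact H.mul_mem (H.inv_mem (hu2 x)) (hu2 (x * a))
        have hvl : v.length ≤ 2 * (d + 1) + 1 := by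
          rw [hv, List.length_append, hi3, List.length_cons]
          have := hu4 x
          have := hu4 (x * a)
          omega
        have hvS : ∀ b ∈ v, b ∈ S := by
          intro b hb
          rw [hv, List.mem_append, List.mem_cons] at hb
          rcases hb with hb | rfl | hb
          · exact hi1 b hb
          · exact hs b List.mem_cons_self
          · exact hu1 _ b hb
        obtain ⟨l', h1, h2, h3, h4⟩ := GRA_parse2 S H v hvS hvH _ hvl
        refine ⟨l' ++ l, ?_, ?_, ?_⟩
        · rw [List.length_append, List.length_cons, Nat.mul_succ]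
          omega
        · intro w hw
          rcases List.mem_append.1 hw with hw | hw
          · exact h3 w hw
          · exact hl2 w hw
        · rw [List.map_append, List.prod_append, Subgroup.coe_mul, h4, hl3, hvp, List.prod_cons,
            mul_assoc x a]
          group
    obtain ⟨l, hl1, hl2, hl3⟩ := key s 1 hs2
    refine ⟨l, hl1.trans (Nat.mul_le_mul_left _ hs1), hl2, ?_⟩
    apply Subtype.ext
    rw [hl3, one_mul, hs3, hu3 1 H.one_mem, hu3 _ h.2]
    simp
  · obtain ⟨s, hs⟩ := hne
    obtain ⟨l, h1, h2, h3, h4⟩ := GRA_parse2 S H [s, s⁻¹] (by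
      intro a ha
      simp only [List.mem_cons, List.not_mem_nil, or_false] at ha
      rcases ha with rfl | rfl
      · exact hs
      · exact hsym _ hs) (by simp [H.one_mem]) (2 * (d + 1) + 1) (by simp; omega)
    cases l with
    | nil => simp at h1
    | cons w l => exact ⟨w, h3 w List.mem_cons_self⟩
  · have : 0 < (Set.range u).ncard := (Set.ncard_pos hu5).2 ⟨_, ⟨1, rfl⟩⟩
    exact this
  · intro n
    have hTfin : ({h : H | (h : G) ∈ ball S (n + d)} : Set H).Finite :=
      (GRA_ball_finite S (n + d)).preimage (Subtype.coe_injective.injOn)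
    rw [← Set.ncard_prod]
    refine Set.ncard_le_ncard_of_injOn (fun x => (u x, (⟨x * (u x).prod, hu2 x⟩ : H))) ?_ ?_
      (hu5.prod hTfin)
    · rintro x ⟨l, hl1, hl2, hl3⟩
      refine ⟨⟨x, rfl⟩, l ++ u x, ?_, ?_, ?_⟩
      · rw [List.length_append]
        have := hu4 x
        omega
      · intro a ha
        rcases List.mem_append.1 ha with ha | ha
        · exact hl2 a ha
        · exact hu1 x a ha
      · rw [List.prod_append, hl3]
    · intro x _ y _ hxy
      have h1 := (Prod.ext_iff.1 hxy).2
      have h2 : u x = u y := (Prod.ext_iff.1 hxy).1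
      have h3 : x * (u x).prod = y * (u y).prod := congrArg Subtype.val h1
      rw [h2] at h3
      exact mul_right_cancel h3

end

end K9h87.FD
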