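import Pool.Agent.K9h87.FD.Stm2

set_option autoImplicit false

/-!
# Leaf GRB: growth counting from the Schreier decomposition
-/

open Finset
open scoped Pointwise

namespace K9h87.FD

namespace Grb

lemma mem_words {α : Type} (S : Finset α) (n : ℕ) (v : List α) :
    v ∈ words S n ↔ v.length = n ∧ ∀ a ∈ v, a ∈ S := by
  classical
  induction n generalizing v with
  | zero =>
    simp only [words, Finset.mem_singleton, List.length_eq_zero_iff]
    constructor
    · rintro rfl
      simp
    · exact fun h => h.1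
  | succ n ih =>
    simp only [words, Finset.mem_image, Finset.mem_product, Prod.exists]
    constructor
    · rintro ⟨a, u, ⟨ha, hu⟩, rfl⟩
      rw [ih] at hu
      refine ⟨by simp [hu.1], ?_⟩
      intro b hb
      rcases List.mem_cons.mp hb with rfl | hb
      · exact ha
      · exact hu.2 b hb
    · rintro ⟨hl, hv⟩
      match v with
      | [] => simp at hl
      | a :: u =>
        refine ⟨a, u, ⟨hv a (by simp), ?_⟩, rfl⟩
        rw [ih]
        exact ⟨by simpa using hl, fun b hb => hv b (by simp [hb])⟩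

lemma mem_ret {G : Type} [Group G] (S : Finset G) (H : Subgroup G) (L : ℕ) (v : List G) :
    v ∈ ret S H L ↔ v.length ≤ L ∧ (∀ a ∈ v, a ∈ S) ∧ IsRet H v := by
  classical
  simp only [ret, Finset.mem_biUnion, Finset.mem_range, Finset.mem_filter, mem_words]
  constructor
  · rintro ⟨n, hn, ⟨h1, h2⟩, h3⟩
    exact ⟨by omega, h2, h3⟩
  · rintro ⟨h1, h2, h3⟩
    exact ⟨v.length, by omega, ⟨rfl, h2⟩, h3⟩

/-- the inverse of the reversed word -/
def rv {G : Type} [Group G] (v : List G) : List G := (v.map fun x => x⁻¹).reverse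

lemma rv_prod {G : Type} [Group G] (v : List G) : (rv v).prod = v.prod⁻¹ :=
  (List.prod_inv_reverse v).symm

lemma rv_take {G : Type} [Group G] (v : List G) (k : ℕ) :
    (rv v).take k = rv (v.drop (v.length - k)) := by
  unfold rv
  rw [List.take_reverse, List.map_drop, List.length_map]

lemma rv_ret {G : Type} [Group G] {S : Finset G} {H : Subgroup G} {L : ℕ} (hS : ∀ s ∈ S, s⁻¹ ∈ S)
    {v : List G} (hv : v ∈ ret S H L) : rv v ∈ ret S H L := by
  rw [mem_ret] at hv ⊢
  obtain ⟨h1, h2, h3, h4, h5⟩ := hv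
  have hlen : (rv v).length = v.length := by simp [rv]
  refine ⟨by rw [hlen]; exact h1, ?_, ?_, ?_, ?_⟩
  · intro a ha
    unfold rv at ha
    rw [List.mem_reverse, List.mem_map] at ha
    obtain ⟨b, hb, rfl⟩ := ha
    exact hS b (h2 b hb)
  · intro h
    apply h3
    rw [← List.length_eq_zero_iff, ← hlen, h, List.length_nil]
  · rw [rv_prod]
    exact H.inv_mem h4
  · intro k hk1 hk2 hk3
    rw [hlen] at hk2
    rw [rv_take v k, rv_prod, H.inv_mem_iff] at hk3
    refine h5 (v.length - k) (by omega) (by omega) ?_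
    have h6 : (v.take (v.length - k)).prod * (v.drop (v.length - k)).prod = v.prod := by
      rw [← List.prod_append, List.take_append_drop]
    rw [← h6] at h4
    exact (H.mul_mem_cancel_right hk3).mp h4

lemma val_coe {G : Type} [Group G] {S : Finset G} {H : Subgroup G} {L : ℕ} {v : List G}
    (hv : v ∈ ret S H L) : (val H v : G) = v.prod := by
  rw [mem_ret] at hv
  unfold val
  rw [dif_pos hv.2.2.2.1]

lemma val_rv {G : Type} [Group G] {S : Finset G} {H : Subgroup G} {L : ℕ}
    (hS : ∀ s ∈ S, s⁻¹ ∈ S) {v : List G} (hv : v ∈ ret S H L) :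
    val H (rv v) = (val H v)⁻¹ := by
  apply Subtype.ext
  rw [val_coe (rv_ret hS hv), Subgroup.coe_inv, val_coe hv, rv_prod]

lemma prod_mem_pow {K : Type} [Group K] [DecidableEq K] (V : Finset K) (l : List K)
    (h : ∀ x ∈ l, x ∈ V) : l.prod ∈ V ^ l.length := by
  induction l with
  | nil => simp
  | cons a l ih =>
    rw [List.prod_cons, List.length_cons, pow_succ']
    exact Finset.mul_mem_mul (h a (by simp)) (ih fun x hx => h x (by simp [hx]))

lemma inPow_pow {K : Type} [Group K] [DecidableEq K] (A : Finset K) (N : ℕ) :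
    InPow A N (A ^ N) := by
  induction N with
  | zero =>
    intro w hw
    rw [pow_zero, Finset.mem_one] at hw
    exact ⟨[], rfl, by simp, by simp [hw]⟩
  | succ N ih =>
    intro w hw
    rw [pow_succ', Finset.mem_mul] at hw
    obtain ⟨a, ha, b, hb, rfl⟩ := hw
    obtain ⟨l, h1, h2, h3⟩ := ih b hb
    refine ⟨a :: l, by simp [h1], ?_, by rw [List.prod_cons, h3]⟩
    intro x hx
    rcases List.mem_cons.mp hx with rfl | hx
    · exact ha
    · exact h2 x hx

lemma exists_phi {K : Type} [Group K] (φ : K → ℤ) (hφ : ∀ x y, φ (x * y) = φ x + φ y)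
    (l : List K) (h : φ l.prod ≠ 0) : ∃ x ∈ l, φ x ≠ 0 := by
  have h1 : φ 1 = 0 := by
    have := hφ 1 1
    rw [one_mul] at this
    omega
  induction l with
  | nil => exact absurd (by simpa using h1) h
  | cons a l ih =>
    by_cases ha : φ a = 0
    · rw [List.prod_cons, hφ, ha, zero_add] at h
      obtain ⟨x, hx, hx2⟩ := ih h
      exact ⟨x, by simp [hx], hx2⟩
    · exact ⟨a, by simp, ha⟩

end Grb

open Grb in
/-- Leaf GRB. -/
theorem grb (hGRA : S_GRA) : S_GRB := by
  classical
  intro G _ S H hH hSne hS hgen φ hφ hφne c hc hgr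
  obtain ⟨D, hD, hdec, hretne, d, k, hk, hball⟩ := hGRA G S H hH hSne hS hgen
  set V : Finset H := (ret S H D).image (val H) with hV
  obtain ⟨v₀, hv₀⟩ := hretne
  have hρ₀ : val H v₀ ∈ V := Finset.mem_image_of_mem _ hv₀
  have hVinv : ∀ x ∈ V, x⁻¹ ∈ V := by
    intro x hx
    rw [hV, Finset.mem_image] at hx ⊢
    obtain ⟨v, hv, rfl⟩ := hx
    exact ⟨rv v, rv_ret hS hv, val_rv hS hv⟩
  -- products of lists in `V`
  have hdec' : ∀ (n : ℕ) (h : H), (h : G) ∈ ball S n → ∃ q ≤ D * n, h ∈ V ^ q := by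
    intro n h hh
    obtain ⟨l, hl, hl2, hl3⟩ := hdec n h hh
    refine ⟨l.length, hl, ?_⟩
    have := prod_mem_pow V (l.map (val H)) (by
      intro x hx
      rw [List.mem_map] at hx
      obtain ⟨v, hv, rfl⟩ := hx
      exact Finset.mem_image_of_mem _ (hl2 v hv))
    rwa [hl3, List.length_map] at this
  -- an element of nonzero height
  obtain ⟨h₁, hh₁⟩ := hφne
  have hex : ∃ n, (h₁ : G) ∈ ball S n := by
    have h2 : (h₁ : G) ∈ Subgroup.closure (S : Set G) := by
      rw [hgen]
      exact Subgroup.mem_top _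
    rw [← Subgroup.mem_toSubmonoid, Subgroup.closure_toSubmonoid] at h2
    obtain ⟨l, hl, hl2⟩ := Submonoid.exists_list_of_mem_closure h2
    refine ⟨l.length, l, le_rfl, ?_, hl2⟩
    intro a ha
    rcases hl a ha with h3 | h3
    · exact h3
    · have := hS _ (Set.mem_inv.mp h3)
      rwa [inv_inv] at this
  obtain ⟨n₁, hn₁⟩ := hex
  obtain ⟨l, -, hl2, hl3⟩ := hdec n₁ h₁ hn₁
  rw [← hl3] at hh₁
  obtain ⟨ρ, hρl, hρ⟩ := exists_phi φ hφ _ hh₁
  have hρV : ρ ∈ V := by
    rw [List.mem_map] at hρl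
    obtain ⟨v, hv, rfl⟩ := hρl
    exact Finset.mem_image_of_mem _ (hl2 v hv)
  set A : Finset H := V * V with hA
  have hA2 : A = V ^ 2 := (pow_two V).symm
  have h1A : (1 : H) ∈ A := by
    rw [hA, Finset.mem_mul]
    exact ⟨_, hρ₀, _, hVinv _ hρ₀, mul_inv_cancel _⟩
  set D' : ℕ := D * (1 + d) + 1 with hD'
  have hD'0 : (0 : ℝ) < (D' : ℝ) := by
    rw [hD']
    positivity
  have hk0 : (0 : ℝ) < k := by exact_mod_cast hk
  set c₁ : ℝ := c / (2 * k * (2 * D') ^ 8) with hc₁
  have hc₁0 : 0 < c₁ := by positivity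
  refine ⟨D, A, ρ * ρ, min c₁ (1 / D' ^ 8), h1A, Finset.mul_mem_mul hρV hρV, ?_,
    lt_min hc₁0 (by positivity), ?_, ?_⟩
  · rw [hφ]
    omega
  · intro x hx
    rw [hA, Finset.mem_mul] at hx
    obtain ⟨y, hy, z, hz, rfl⟩ := hx
    rw [hV, Finset.mem_image] at hy hz
    obtain ⟨v, hv, rfl⟩ := hy
    obtain ⟨v', hv', rfl⟩ := hz
    exact ⟨v, hv, v', hv', rfl⟩
  · intro N hN
    refine ⟨A ^ N, inPow_pow A N, ?_⟩
    have hcard1 : 1 ≤ (A ^ N).card := by
      rw [Nat.one_le_iff_ne_zero, Ne, Finset.card_eq_zero, ← Ne, ← Finset.nonempty_iff_ne_empty]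
      refine ⟨1, ?_⟩
      have := Finset.one_mem_pow (n := N) h1A
      exact this
    by_cases hND : N < D'
    · have h1 : ((N : ℝ)) ^ 8 ≤ (D' : ℝ) ^ 8 :=
        pow_le_pow_left₀ (Nat.cast_nonneg _) (by exact_mod_cast hND.le) 8
      calc min c₁ (1 / (D' : ℝ) ^ 8) * (N : ℝ) ^ 8 ≤ 1 / (D' : ℝ) ^ 8 * (D' : ℝ) ^ 8 :=
            mul_le_mul (min_le_right _ _) h1 (by positivity) (by positivity)
        _ = 1 := by
            rw [one_div, inv_mul_cancel₀ (by positivity)]
        _ ≤ _ := by exact_mod_cast hcard1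
    · rw [not_lt] at hND
      set n : ℕ := N / D' with hn
      have hD'pos : 0 < D' := by rw [hD']; omega
      have hn1 : 1 ≤ n := (Nat.one_le_div_iff hD'pos).mpr hND
      have hnN : D' * n ≤ N := Nat.mul_div_le N D'
      have hDm : D * (n + d) ≤ N := by
        refine le_trans ?_ hnN
        rw [hD']
        nlinarith [Nat.zero_le (D * d * (n - 1)), Nat.mul_le_mul_left (D * d) hn1]
      -- the subset
      have hsub : {h : H | (h : G) ∈ ball S (n + d)} ⊆
          ((A ^ N ∪ (A ^ N).image (fun x => x * (val H v₀)⁻¹) : Finset H) : Set H) := by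
        intro h hh
        obtain ⟨q, hq, hq2⟩ := hdec' (n + d) h hh
        rw [Finset.mem_coe, Finset.mem_union]
        have hqN : q ≤ N := hq.trans hDm
        rcases Nat.even_or_odd' q with ⟨t, rfl | rfl⟩
        · left
          rw [pow_mul, ← hA2] at hq2
          exact Finset.pow_subset_pow_right h1A (by omega) hq2
        · right
          rw [Finset.mem_image]
          refine ⟨h * val H v₀, ?_, by group⟩
          have h3 : h * val H v₀ ∈ V ^ (2 * (t + 1)) := by
            have : 2 * (t + 1) = (2 * t + 1) + 1 := by ring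
            rw [this, pow_succ]
            exact Finset.mul_mem_mul hq2 hρ₀
          rw [pow_mul, ← hA2] at h3
          exact Finset.pow_subset_pow_right h1A (by omega) h3
      have hcard : ({h : H | (h : G) ∈ ball S (n + d)} : Set H).ncard ≤ 2 * (A ^ N).card := by
        refine (Set.ncard_le_ncard hsub (Finset.finite_toSet _)).trans ?_
        rw [Set.ncard_coe_finset]
        refine (Finset.card_union_le _ _).trans ?_
        have := Finset.card_image_le (s := A ^ N) (f := fun x => x * (val H v₀)⁻¹)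
        omega
      have h5 : c * (n : ℝ) ^ 8 ≤ k * (2 * (A ^ N).card) := by
        refine (hgr n hn1).trans ?_
        have h6 : (ball S n).ncard ≤ k * (2 * (A ^ N).card) :=
          (hball n).trans (Nat.mul_le_mul_left _ hcard)
        exact_mod_cast h6
      have h7 : (N : ℝ) ≤ 2 * D' * n := by
        have h8 : N < D' * (n + 1) := Nat.lt_mul_div_succ N hD'pos
        have h9 : (N : ℝ) < D' * (n + 1) := by exact_mod_cast h8
        have h10 : (1 : ℝ) ≤ n := by exact_mod_cast hn1
        nlinarith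
      have h8 : (N : ℝ) ^ 8 ≤ (2 * D' * n) ^ 8 := pow_le_pow_left₀ (Nat.cast_nonneg _) h7 8
      calc min c₁ (1 / (D' : ℝ) ^ 8) * (N : ℝ) ^ 8 ≤ c₁ * (2 * D' * n) ^ 8 :=
            mul_le_mul (min_le_left _ _) h8 (by positivity) hc₁0.le
        _ = c * n ^ 8 / (2 * k) := by
            rw [hc₁, mul_pow (2 * (D' : ℝ)) n]
            field_simp
        _ ≤ (A ^ N).card := by
            rw [div_le_iff₀ (by positivity)]
            linarith

end K9h87.FD
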