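import Pool.Agent.K9h87.FD.Stm2

set_option autoImplicit false

/-!
# Leaf MASS (helper81): the walk returns to a subgroup of finite index
-/

open Finset Filter Topology

namespace K9h87.FD

noncomputable section

namespace MassL

open Classical

variable {G : Type} [Group G]

/-- first return words from the starting point `x` -/
def IsR (H : Subgroup G) (x : G) (v : List G) : Prop :=
  v ≠ [] ∧ x * v.prod ∈ H ∧ ∀ k, 1 ≤ k → k < v.length → x * (v.take k).prod ∉ H

theorem isR_one (H : Subgroup G) (v : List G) : IsR H 1 v ↔ IsRet H v := by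
  unfold IsR IsRet
  simp only [one_mul]

theorem isR_cons_mem {H : Subgroup G} {x s : G} (h : x * s ∈ H) (v : List G) : IsR H x (s :: v) ↔ v = [] := by
  constructor
  · rintro ⟨-, -, h3⟩
    by_contra hv
    refine h3 1 le_rfl ?_ ?_
    · rw [List.length_cons]
      have := List.length_pos_iff.2 hv
      omega
    · simpa using h
  · rintro rfl
    refine ⟨List.cons_ne_nil _ _, by simpa using h, fun k h1 h2 => ?_⟩
    rw [List.length_singleton] at h2
    omega

theorem isR_cons {H : Subgroup G} {x s : G} (h : x * s ∉ H) (v : List G) :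
    IsR H x (s :: v) ↔ IsR H (x * s) v := by
  constructor
  · rintro ⟨-, h2, h3⟩
    rw [List.prod_cons, ← mul_assoc] at h2
    refine ⟨?_, h2, fun k h4 h5 => ?_⟩
    · rintro rfl
      rw [List.prod_nil, mul_one] at h2
      exact h h2
    · have h6 := h3 (k + 1) (by omega) (by rw [List.length_cons]; omega)
      rwa [List.take_succ_cons, List.prod_cons, ← mul_assoc] at h6
  · rintro ⟨h1, h2, h3⟩
    refine ⟨List.cons_ne_nil _ _, by rwa [List.prod_cons, ← mul_assoc], fun k h4 h5 => ?_⟩
    rcases Nat.eq_or_lt_of_le h4 with h6 | h6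
    · rw [← h6]
      simpa using h
    · obtain ⟨j, rfl⟩ : ∃ j, k = j + 1 := ⟨k - 1, by omega⟩
      rw [List.take_succ_cons, List.prod_cons, ← mul_assoc]
      refine h3 j (by omega) ?_
      rw [List.length_cons] at h5
      omega

theorem length_words {α : Type} (S : Finset α) (n : ℕ) : ∀ v ∈ words S n, v.length = n := by
  induction n with
  | zero =>
    intro v hv
    rw [words, Finset.mem_singleton] at hv
    rw [hv, List.length_nil]
  | succ n ih =>
    intro v hv
    rw [words, Finset.mem_image] at hv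
    obtain ⟨p, hp, rfl⟩ := hv
    rw [Finset.mem_product] at hp
    rw [List.length_cons, ih _ hp.2]

/-- the probability that the first return takes place at time `n` -/
def R (c : ℝ) (S : Finset G) (H : Subgroup G) (n : ℕ) (x : G) : ℝ :=
  ∑ v ∈ words S n, if IsR H x v then c ^ n else 0

/-- the probability that there is no return until time `n` -/
def F (c : ℝ) (S : Finset G) (H : Subgroup G) : ℕ → G → ℝ
  | 0, _ => 1
  | n + 1, x => c * ∑ s ∈ S, if x * s ∈ H then 0 else F c S H n (x * s)

theorem R_zero (c : ℝ) (S : Finset G) (H : Subgroup G) (x : G) : R c S H 0 x = 0 := by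
  unfold R
  rw [words, Finset.sum_singleton, if_neg]
  rintro ⟨h, -⟩
  exact h rfl

theorem R_succ (c : ℝ) (S : Finset G) (H : Subgroup G) (n : ℕ) (x : G) :
    R c S H (n + 1) x = c * ∑ s ∈ S, if x * s ∈ H then (if n = 0 then 1 else 0) else R c S H n (x * s) := by
  have h1 : R c S H (n + 1) x = ∑ s ∈ S, ∑ v ∈ words S n, if IsR H x (s :: v) then c ^ (n + 1) else 0 := by
    unfold R
    rw [words, Finset.sum_image, Finset.sum_product]
    rintro ⟨a, b⟩ _ ⟨a', b'⟩ _ h
    simp only [List.cons.injEq] at h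
    exact Prod.ext h.1 h.2
  rw [h1, Finset.mul_sum]
  refine Finset.sum_congr rfl fun s _ => ?_
  by_cases hs : x * s ∈ H
  · rw [if_pos hs]
    rcases Nat.eq_zero_or_pos n with hn | hn
    · subst hn
      rw [words, Finset.sum_singleton, if_pos ((isR_cons_mem hs []).2 rfl), if_pos rfl, zero_add, pow_one, mul_one]
    · rw [if_neg hn.ne', mul_zero]
      refine Finset.sum_eq_zero fun v hv => ?_
      rw [if_neg]
      intro h2
      have h3 := (isR_cons_mem hs v).1 h2
      have h4 := length_words S n v hv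
      rw [h3, List.length_nil] at h4
      omega
  · rw [if_neg hs, R, Finset.mul_sum]
    refine Finset.sum_congr rfl fun v _ => ?_
    by_cases h2 : IsR H (x * s) v
    · rw [if_pos h2, if_pos ((isR_cons hs v).2 h2), pow_succ, mul_comm]
    · rw [if_neg h2, if_neg fun h3 => h2 ((isR_cons hs v).1 h3), mul_zero]

theorem sum_R {c : ℝ} {S : Finset G} (hc : c * (S.card : ℝ) = 1) (H : Subgroup G) (L : ℕ) :
    ∀ x, ∑ n ∈ range (L + 1), R c S H n x = 1 - F c S H L x := by
  induction L with
  | zero =>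
    intro x
    rw [Finset.sum_range_one, R_zero, F, sub_self]
  | succ L ih =>
    intro x
    rw [Finset.sum_range_succ', R_zero, add_zero, F]
    have h1 : ∀ n, R c S H (n + 1) x =
        ∑ s ∈ S, c * (if x * s ∈ H then (if n = 0 then 1 else 0) else R c S H n (x * s)) := by
      intro n
      rw [R_succ, Finset.mul_sum]
    rw [Finset.sum_congr rfl fun n _ => h1 n, Finset.sum_comm]
    have h2 : (1 : ℝ) = ∑ s ∈ S, c := by
      rw [Finset.sum_const, nsmul_eq_mul, mul_comm, hc]
    rw [Finset.mul_sum]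
    nth_rewrite 2 [h2]
    rw [← Finset.sum_sub_distrib]
    refine Finset.sum_congr rfl fun s _ => ?_
    rw [← Finset.mul_sum]
    by_cases hs : x * s ∈ H
    · simp only [if_pos hs]
      rw [Finset.sum_ite_eq', if_pos (Finset.mem_range.2 (Nat.succ_pos L))]
      ring
    · simp only [if_neg hs]
      rw [ih (x * s)]
      ring

theorem F_nonneg {c : ℝ} (hc : 0 ≤ c) (S : Finset G) (H : Subgroup G) (n : ℕ) : ∀ x, 0 ≤ F c S H n x := by
  induction n with
  | zero =>
    intro x
    rw [F]
    exact zero_le_one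
  | succ n ih =>
    intro x
    rw [F]
    refine mul_nonneg hc (Finset.sum_nonneg fun s _ => ?_)
    split_ifs
    · exact le_rfl
    · exact ih _

theorem F_add {c : ℝ} (hc : 0 ≤ c) (S : Finset G) (H : Subgroup G) (m : ℕ) {B : ℝ}
    (hB : ∀ y, F c S H m y ≤ B) (n : ℕ) : ∀ x, F c S H (n + m) x ≤ B * F c S H n x := by
  induction n with
  | zero =>
    intro x
    rw [zero_add]
    show F c S H m x ≤ B * F c S H 0 x
    rw [F, mul_one]
    exact hB x
  | succ n ih =>
    intro x
    rw [show n + 1 + m = n + m + 1 by omega, F, F, mul_left_comm]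
    refine mul_le_mul_of_nonneg_left ?_ hc
    rw [Finset.mul_sum]
    refine Finset.sum_le_sum fun s _ => ?_
    split_ifs
    · rw [mul_zero]
    · exact ih _

theorem F_le_one {c : ℝ} {S : Finset G} (hc0 : 0 ≤ c) (hc : c * (S.card : ℝ) = 1) (H : Subgroup G) (n : ℕ) :
    ∀ x, F c S H n x ≤ 1 := by
  induction n with
  | zero =>
    intro x
    rw [F]
  | succ n ih =>
    intro x
    rw [F]
    calc c * ∑ s ∈ S, (if x * s ∈ H then 0 else F c S H n (x * s)) ≤ c * ∑ s ∈ S, (1 : ℝ) := by
          refine mul_le_mul_of_nonneg_left (Finset.sum_le_sum fun s _ => ?_) hc0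
          split_ifs
          · exact zero_le_one
          · exact ih _
      _ = 1 := by
          rw [Finset.sum_const, nsmul_eq_mul, mul_one, hc]

theorem F_anti {c : ℝ} {S : Finset G} (hc0 : 0 ≤ c) (hc : c * (S.card : ℝ) = 1) (H : Subgroup G) (n m : ℕ) (x : G) :
    F c S H (n + m) x ≤ F c S H n x := by
  have := F_add hc0 S H m (F_le_one hc0 hc H m) n x
  rwa [one_mul] at this

/-- a word into `H` gives a bound -/
theorem F_word {c : ℝ} {S : Finset G} (hc0 : 0 < c) (hc : c * (S.card : ℝ) = 1) (H : Subgroup G) (v : List G) :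
    ∀ x, (∀ a ∈ v, a ∈ S) → v ≠ [] → x * v.prod ∈ H → ∀ d, v.length ≤ d → F c S H d x ≤ 1 - c ^ d := by
  have hc1 : c ≤ 1 := by
    have h1 : 0 < S.card := by
      rw [Nat.pos_iff_ne_zero]
      intro h
      rw [h, Nat.cast_zero, mul_zero] at hc
      exact zero_ne_one hc
    have h2 : (1 : ℝ) ≤ S.card := by exact_mod_cast h1
    nlinarith
  induction v with
  | nil => exact fun _ _ h => absurd rfl h
  | cons s v ih =>
    intro x hS _ hH d hd
    obtain ⟨e, rfl⟩ : ∃ e, d = e + 1 := ⟨d - 1, by rw [List.length_cons] at hd; omega⟩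
    rw [List.length_cons] at hd
    have hs : s ∈ S := hS s List.mem_cons_self
    -- the term of `s`
    have h1 : (if x * s ∈ H then 0 else F c S H e (x * s)) ≤ 1 - c ^ e := by
      split_ifs with h
      · have := pow_le_one₀ (n := e) hc0.le hc1
        linarith
      · refine ih (x * s) (fun a ha => hS a (List.mem_cons_of_mem _ ha)) ?_ ?_ e (by omega)
        · rintro rfl
          rw [List.prod_singleton] at hH
          exact h hH
        · rwa [List.prod_cons, ← mul_assoc] at hH
    have h2 : ∑ t ∈ S.erase s, (if x * t ∈ H then 0 else F c S H e (x * t)) ≤ (S.card : ℝ) - 1 := by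
      have h3 : ∑ t ∈ S.erase s, (if x * t ∈ H then 0 else F c S H e (x * t)) ≤ ∑ t ∈ S.erase s, (1 : ℝ) := by
        refine Finset.sum_le_sum fun t _ => ?_
        split_ifs
        · exact zero_le_one
        · exact F_le_one hc0.le hc H e _
      rw [Finset.sum_const, nsmul_eq_mul, mul_one, Finset.card_erase_of_mem hs] at h3
      rwa [Nat.cast_sub (Finset.card_pos.2 ⟨s, hs⟩), Nat.cast_one] at h3
    rw [F, ← Finset.add_sum_erase S _ hs]
    calc c * ((if x * s ∈ H then 0 else F c S H e (x * s)) +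
          ∑ t ∈ S.erase s, (if x * t ∈ H then 0 else F c S H e (x * t)))
        ≤ c * ((1 - c ^ e) + ((S.card : ℝ) - 1)) := mul_le_mul_of_nonneg_left (add_le_add h1 h2) hc0.le
      _ = c * (S.card : ℝ) - c ^ (e + 1) := by ring
      _ = 1 - c ^ (e + 1) := by rw [hc]

/-- from every point there is a word into `H` -/
theorem exists_word {S : Finset G} (hne : S.Nonempty) (hinv : ∀ s ∈ S, s⁻¹ ∈ S)
    (hgen : Subgroup.closure (S : Set G) = ⊤) (H : Subgroup G) (x : G) :
    ∃ v : List G, (∀ a ∈ v, a ∈ S) ∧ v ≠ [] ∧ x * v.prod ∈ H := by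
  have hx : x⁻¹ ∈ Submonoid.closure ((S : Set G) ∪ (S : Set G)⁻¹) := by
    rw [← Subgroup.closure_toSubmonoid, hgen]
    exact Subgroup.mem_top _
  obtain ⟨l, hl, hlp⟩ := Submonoid.exists_list_of_mem_closure hx
  obtain ⟨s, hs⟩ := hne
  refine ⟨l ++ [s, s⁻¹], ?_, ?_, ?_⟩
  · intro a ha
    rw [List.mem_append] at ha
    rcases ha with ha | ha
    · rcases hl a ha with h | h
      · exact h
      · have := hinv _ (Set.mem_inv.1 h)
        rwa [inv_inv] at this
    · simp only [List.mem_cons, List.not_mem_nil, or_false] at ha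
      rcases ha with rfl | rfl
      · exact hs
      · exact hinv s hs
  · simp
  · rw [List.prod_append, hlp]
    simp

theorem exists_unif {S : Finset G} (hne : S.Nonempty) (hinv : ∀ s ∈ S, s⁻¹ ∈ S)
    (hgen : Subgroup.closure (S : Set G) = ⊤) (H : Subgroup G) (hH : H.FiniteIndex) :
    ∃ d : ℕ, ∀ x : G, ∃ v : List G, (∀ a ∈ v, a ∈ S) ∧ v ≠ [] ∧ x * v.prod ∈ H ∧ v.length ≤ d := by
  choose w h1 h2 h3 using fun q : G ⧸ H => exists_word hne hinv hgen H (q.out)⁻¹
  have : Finite (G ⧸ H) := Subgroup.finite_quotient_of_finiteIndex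
  obtain ⟨d, hd⟩ := (Set.finite_range fun q : G ⧸ H => (w q).length).bddAbove
  refine ⟨d, fun x => ?_⟩
  obtain ⟨h, hh⟩ := QuotientGroup.mk_out_eq_mul H x⁻¹
  refine ⟨w (QuotientGroup.mk x⁻¹), h1 _, h2 _, ?_, hd ⟨_, rfl⟩⟩
  have h4 := h3 (QuotientGroup.mk x⁻¹)
  rw [hh, mul_inv_rev, inv_inv, mul_assoc] at h4
  exact (H.mul_mem_cancel_left (H.inv_mem h.2)).1 h4

theorem tendsto_F {S : Finset G} (hne : S.Nonempty) (hinv : ∀ s ∈ S, s⁻¹ ∈ S)
    (hgen : Subgroup.closure (S : Set G) = ⊤) (H : Subgroup G) (hH : H.FiniteIndex) (x : G) :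
    Tendsto (fun L => F ((S.card : ℝ)⁻¹) S H L x) atTop (𝓝 0) := by
  have hcard : (0 : ℝ) < S.card := by exact_mod_cast Finset.card_pos.2 hne
  set c : ℝ := (S.card : ℝ)⁻¹ with hcdef
  have hc0 : 0 < c := inv_pos.2 hcard
  have hc : c * (S.card : ℝ) = 1 := inv_mul_cancel₀ hcard.ne'
  obtain ⟨d, hd⟩ := exists_unif hne hinv hgen H hH
  have h1 : ∀ y, F c S H d y ≤ 1 - c ^ d := by
    intro y
    obtain ⟨v, h2, h3, h4, h5⟩ := hd y
    exact F_word hc0 hc H v y h2 h3 h4 d h5
  have h0 : 0 ≤ 1 - c ^ d := (F_nonneg hc0.le S H d 1).trans (h1 1)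
  have h2 : ∀ j y, F c S H (j * d) y ≤ (1 - c ^ d) ^ j := by
    intro j
    induction j with
    | zero =>
      intro y
      rw [zero_mul, pow_zero]
      exact F_le_one hc0.le hc H 0 y
    | succ j ih =>
      intro y
      rw [Nat.succ_mul]
      refine (F_add hc0.le S H d h1 (j * d) y).trans ?_
      rw [pow_succ, mul_comm]
      exact mul_le_mul_of_nonneg_right (ih y) h0
  have h3 : 1 - c ^ d < 1 := by
    have := pow_pos hc0 d
    linarith
  rw [Metric.tendsto_atTop]
  intro ε hε
  obtain ⟨j, hj⟩ := exists_pow_lt_of_lt_one hε h3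
  refine ⟨j * d, fun n hn => ?_⟩
  obtain ⟨m, rfl⟩ := Nat.exists_eq_add_of_le hn
  rw [Real.dist_eq, sub_zero, abs_of_nonneg (F_nonneg hc0.le S H _ x)]
  exact ((F_anti hc0.le hc H (j * d) m x).trans (h2 j x)).trans_lt hj

end MassL

open MassL in
/-- **MASS** -/
theorem mass_ret : S_MASS := by
  classical
  intro G _ S H hH hne hinv hgen
  have hcard : (0 : ℝ) < S.card := by exact_mod_cast Finset.card_pos.2 hne
  set c : ℝ := (S.card : ℝ)⁻¹ with hcdef
  have hc : c * (S.card : ℝ) = 1 := inv_mul_cancel₀ hcard.ne'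
  have h1 : ∀ L, ∑ v ∈ ret S H L, c ^ v.length = 1 - F c S H L 1 := by
    intro L
    rw [← sum_R hc H L 1, ret, Finset.sum_biUnion]
    · refine Finset.sum_congr rfl fun n _ => ?_
      rw [R, Finset.sum_filter]
      refine Finset.sum_congr rfl fun v hv => ?_
      rw [length_words S n v hv]
      by_cases h : IsRet H v
      · rw [if_pos h, if_pos ((isR_one H v).2 h)]
      · rw [if_neg h, if_neg fun h2 => h ((isR_one H v).1 h2)]
    · intro i _ j _ hij
      rw [Function.onFun, Finset.disjoint_left]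
      intro v hv hv'
      have h2 := length_words S i v (Finset.mem_filter.1 hv).1
      have h3 := length_words S j v (Finset.mem_filter.1 hv').1
      exact hij (h2.symm.trans h3)
  have h2 := tendsto_F hne hinv hgen H hH 1
  have h3 : Tendsto (fun L => 1 - F c S H L 1) atTop (𝓝 (1 - 0)) := tendsto_const_nhds.sub h2
  rw [sub_zero] at h3
  exact h3.congr fun L => (h1 L).symm

end

end K9h87.FD
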