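import Pool.Agent.K9h87.FD.Basic

set_option autoImplicit false

/-!
Leaf NASH of the project FD (helper87): from the pseudo-Poincaré inequality and the growth `n ^ 8` to
the Nash type recursion (by helper32).
-/

open MeasureTheory ProbabilityTheory Finset Filter Topology MonoidAlgebra
open scoped NNReal ENNReal

namespace K9h87.FD

noncomputable section

/-- The real-variable part: `q ^ 4 - p ^ 4 ≥ c₁ q ^ 5` gives `1 / p - 1 / q ≥ c₁ / 4`. -/
lemma nash_real {p q c₁ : ℝ} (hp : 0 < p) (hpq : p ≤ q) (h : c₁ * q ^ 5 ≤ q ^ 4 - p ^ 4) :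
    q⁻¹ + c₁ / 4 ≤ p⁻¹ := by
  have hq : 0 < q := hp.trans_le hpq
  have h1 : q ^ 4 - p ^ 4 ≤ (q - p) * (4 * q ^ 3) := by
    have h2 : q ^ 4 - p ^ 4 = (q - p) * ((q + p) * (q ^ 2 + p ^ 2)) := by ring
    rw [h2]
    refine mul_le_mul_of_nonneg_left ?_ (by linarith)
    have h3 : q + p ≤ 2 * q := by linarith
    have h4 : q ^ 2 + p ^ 2 ≤ 2 * q ^ 2 := by nlinarith
    calc (q + p) * (q ^ 2 + p ^ 2) ≤ (2 * q) * (2 * q ^ 2) :=
          mul_le_mul h3 h4 (by positivity) (by positivity)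
      _ = 4 * q ^ 3 := by ring
  have h5 : c₁ / 4 * q ^ 2 ≤ q - p := by
    have h6 : (c₁ / 4 * q ^ 2) * (4 * q ^ 3) ≤ (q - p) * (4 * q ^ 3) := by
      calc (c₁ / 4 * q ^ 2) * (4 * q ^ 3) = c₁ * q ^ 5 := by ring
        _ ≤ _ := h.trans h1
    exact le_of_mul_le_mul_right h6 (by positivity)
  have h7 : p⁻¹ - q⁻¹ = (q - p) / (p * q) := by field_simp
  have h8 : c₁ / 4 ≤ (q - p) / (p * q) := by
    rw [le_div_iff₀ (by positivity)]
    rcases le_or_gt c₁ 0 with h9 | h9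
    · have : c₁ / 4 * (p * q) ≤ 0 :=
        mul_nonpos_of_nonpos_of_nonneg (by linarith) (by positivity)
      linarith
    · refine le_trans (mul_le_mul_of_nonneg_left ?_ (by positivity)) h5
      nlinarith
  linarith

theorem nash (h : S_PP) : S_NASH := by
  intro G _ A c c' hc hc' hW
  set K : ℝ := max 1 (2 / √c') with hK
  have hK1 : 1 ≤ K := le_max_left _ _
  have hK2 : 2 / √c' ≤ K := le_max_right _ _
  have hc's : 0 < √c' := Real.sqrt_pos.2 hc'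
  refine ⟨c / (32 * K ^ 2) / 4, by positivity, ?_⟩
  intro σ hσ hsym hA f hf
  have ha0 := hf.ip_pos
  have ha1 := hf.ip_le_one
  have hb0 := (hf.mul hσ).ip_pos
  have hba := ip_mul_prob hσ f
  obtain ⟨a, ha⟩ : ∃ a, a = ip f f := ⟨_, rfl⟩
  obtain ⟨b, hb⟩ : ∃ b, b = ip (f * σ) (f * σ) := ⟨_, rfl⟩
  have hPP := h G σ hσ hsym A c hc hA f hf
  rw [← ha, ← hb] at hPP
  rw [← ha] at ha0 ha1 hba
  rw [← hb] at hb0 hba
  rw [← ha, ← hb]
  set q : ℝ := √√a with hq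
  set p : ℝ := √√b with hp
  have hq0 : 0 < q := Real.sqrt_pos.2 (Real.sqrt_pos.2 ha0)
  have hp0 : 0 < p := Real.sqrt_pos.2 (Real.sqrt_pos.2 hb0)
  have hpq : p ≤ q := Real.sqrt_le_sqrt (Real.sqrt_le_sqrt hba)
  have hq2 : q ^ 2 = √a := Real.sq_sqrt (Real.sqrt_nonneg _)
  have hq4 : q ^ 4 = a := by
    have : q ^ 4 = (q ^ 2) ^ 2 := by ring
    rw [this, hq2, Real.sq_sqrt ha0.le]
  have hp4 : p ^ 4 = b := by
    have h2 : p ^ 2 = √b := Real.sq_sqrt (Real.sqrt_nonneg _)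
    have : p ^ 4 = (p ^ 2) ^ 2 := by ring
    rw [this, h2, Real.sq_sqrt hb0.le]
  have hq1 : q ≤ 1 := by
    rw [hq, Real.sqrt_le_one, Real.sqrt_le_one]
    exact ha1
  set r : ℝ := √q with hr
  have hr0 : 0 < r := Real.sqrt_pos.2 hq0
  have hr2 : r ^ 2 = q := Real.sq_sqrt hq0.le
  have hr1 : r ≤ 1 := by rw [hr, Real.sqrt_le_one]; exact hq1
  have hr4 : r ^ 4 = √a := by
    have : r ^ 4 = (r ^ 2) ^ 2 := by ring
    rw [this, hr2, hq2]
  refine nash_real hp0 hpq ?_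
  -- the choice of `n`
  set n : ℕ := ⌈K / r⌉₊ with hn
  have hKr : 1 ≤ K / r := by rw [le_div_iff₀ hr0]; linarith
  have hn1 : K / r ≤ n := Nat.le_ceil _
  have hn2 : (n : ℝ) ≤ 2 * K / r := by
    have := Nat.ceil_lt_add_one (show (0 : ℝ) ≤ K / r by positivity)
    have h3 : 2 * K / r = K / r + K / r := by ring
    rw [h3]
    linarith
  have hn0 : (0 : ℝ) < n := by linarith
  have hn3 : 1 ≤ n := by exact_mod_cast (hKr.trans hn1)
  obtain ⟨W, hWA, hWc⟩ := hW n hn3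
  have hWpos : (0 : ℝ) < W.card := lt_of_lt_of_le (by positivity) hWc
  have hWne : W.Nonempty := by
    rw [← Finset.card_pos]; exact_mod_cast hWpos
  have h1 := hPP n W hWne hWA
  have h2 : √c' * (n : ℝ) ^ 4 ≤ √(W.card) := by
    apply Real.le_sqrt_of_sq_le
    rw [mul_pow, Real.sq_sqrt hc'.le]
    calc c' * ((n : ℝ) ^ 4) ^ 2 = c' * (n : ℝ) ^ 8 := by ring
      _ ≤ _ := hWc
  have h3 : 2 / r ^ 4 ≤ √c' * (n : ℝ) ^ 4 := by
    have h4 : (K / r) ^ 4 ≤ (n : ℝ) ^ 4 := pow_le_pow_left₀ (by positivity) hn1 4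
    have h5 : 2 / √c' ≤ K ^ 4 := hK2.trans (le_self_pow₀ hK1 (by norm_num))
    have h6 : 2 ≤ √c' * K ^ 4 := by
      rw [div_le_iff₀ hc's] at h5
      linarith
    calc 2 / r ^ 4 ≤ √c' * K ^ 4 / r ^ 4 := div_le_div_of_nonneg_right h6 (by positivity)
      _ = √c' * (K / r) ^ 4 := by rw [div_pow]; ring
      _ ≤ _ := mul_le_mul_of_nonneg_left h4 hc's.le
  have h4 : 1 / √(W.card) ≤ r ^ 4 / 2 := by
    have h5 : 2 / r ^ 4 ≤ √(W.card) := h3.trans h2
    calc 1 / √(W.card) ≤ 1 / (2 / r ^ 4) :=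
          one_div_le_one_div_of_le (by positivity) h5
      _ = r ^ 4 / 2 := by rw [one_div_div]
  set D : ℝ := a - b with hD
  have hD0 : 0 ≤ D := by rw [hD]; linarith
  have h5 : r ^ 4 / 2 ≤ 2 * K / r * √(2 * D / c) := by
    have h6 : (n : ℝ) * √(2 * D / c) ≤ 2 * K / r * √(2 * D / c) :=
      mul_le_mul_of_nonneg_right hn2 (Real.sqrt_nonneg _)
    rw [← hr4] at h1
    linarith
  have h6 : r ^ 5 / (4 * K) ≤ √(2 * D / c) := by
    rw [div_le_iff₀ (by positivity)]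
    have h7 : r * (r ^ 4 / 2) ≤ r * (2 * K / r * √(2 * D / c)) :=
      mul_le_mul_of_nonneg_left h5 hr0.le
    have h8 : r * (2 * K / r * √(2 * D / c)) = 2 * K * √(2 * D / c) := by field_simp
    rw [h8] at h7
    have h9 : r ^ 5 = 2 * (r * (r ^ 4 / 2)) := by ring
    rw [h9]
    linarith
  have h7 : (r ^ 5 / (4 * K)) ^ 2 ≤ 2 * D / c := by
    have h8 := pow_le_pow_left₀ (by positivity) h6 2
    rwa [Real.sq_sqrt (by positivity)] at h8
  rw [hq4, hp4, ← hr2]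
  rw [le_div_iff₀ hc] at h7
  have h8 : c / (32 * K ^ 2) * (r ^ 2) ^ 5 = ((r ^ 5 / (4 * K)) ^ 2 * c) / 2 := by
    field_simp
    ring
  rw [h8]
  linarith

end

end K9h87.FD
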