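import Pool.Agent.K9h87.FD.Stm2

set_option autoImplicit false

/-!
Leaf PQ (helper92): as leaf P0 of helper90, with all partial sums.
-/

open MeasureTheory ProbabilityTheory Finset Filter Topology
open scoped NNReal ENNReal

namespace K9h87.FD

theorem pq : S_PQ := by
  intro lam k hlam
  haveI : IsProbabilityMeasure (expMeasure 1) := isProbabilityMeasure_expMeasure (by norm_num)
  haveI : IsProbabilityMeasure clockLaw := by
    unfold clockLaw
    infer_instance
  have h1 : (poissonMeasure lam).real {n | 1 ≤ n} = 1 - Real.exp (-lam) := by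
    have h2 : {n : ℕ | 1 ≤ n} = ({0} : Set ℕ)ᶜ := by
      ext n
      simp only [Set.mem_setOf_eq, Set.mem_compl_iff, Set.mem_singleton_iff]
      omega
    rw [h2, probReal_compl_eq_one_sub (measurableSet_singleton 0), poissonMeasure_real_singleton]
    simp
  set A : ℕ → Set (ℕ × ℕ → ℝ) := fun m => {c | ∀ s ≤ k, ∑ j ∈ range s, c (0, j) ≤ (m : ℝ)} with hA
  have hmono : Monotone A := by
    intro m m' hm c hc s hs
    have h3 : (m : ℝ) ≤ m' := by exact_mod_cast hm
    exact le_trans (hc s hs) h3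
  have hU : ⋃ m, A m = Set.univ := by
    rw [Set.eq_univ_iff_forall]
    intro c
    obtain ⟨m, hm⟩ := exists_nat_ge (∑ j ∈ range k, |c (0, j)|)
    refine Set.mem_iUnion.2 ⟨m, fun s hs => ?_⟩
    refine le_trans ?_ hm
    calc ∑ j ∈ range s, c (0, j) ≤ ∑ j ∈ range s, |c (0, j)| :=
          Finset.sum_le_sum fun j _ => le_abs_self _
      _ ≤ ∑ j ∈ range k, |c (0, j)| :=
          Finset.sum_le_sum_of_subset_of_nonneg (Finset.range_mono hs) fun j _ _ => abs_nonneg _
  have ht : Tendsto (fun m => clockLaw (A m)) atTop (𝓝 1) := by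
    have := tendsto_measure_iUnion_atTop (μ := clockLaw) hmono
    rw [hU, measure_univ] at this
    exact this
  have ht2 : Tendsto (fun m => clockLaw.real (A m)) atTop (𝓝 1) := by
    have := (ENNReal.tendsto_toReal ENNReal.one_ne_top).comp ht
    simpa [measureReal_def, Function.comp_def] using this
  have hev : ∀ᶠ m in atTop, (1 / 2 : ℝ) < clockLaw.real (A m) :=
    ht2.eventually (lt_mem_nhds (by norm_num))
  obtain ⟨m, hm⟩ := hev.exists
  refine ⟨m, fun t ht => ?_⟩
  have h3 : clockLaw.real (A m) ≤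
      clockLaw.real {c | ∀ s ≤ k, ∑ j ∈ range s, c (0, j) ≤ t} :=
    measureReal_mono (fun c hc s hs => le_trans (hc s hs) ht)
  rw [h1]
  have h4 : 0 ≤ 1 - Real.exp (-(lam : ℝ)) := by
    have : Real.exp (-(lam : ℝ)) ≤ 1 := Real.exp_le_one_iff.2 (by simp)
    linarith
  have h5 : (1 / 2 : ℝ) ≤
      clockLaw.real {c | ∀ s ≤ k, ∑ j ∈ range s, c (0, j) ≤ t} := by linarith
  nlinarith

end K9h87.FD
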