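import Pool.Agent.K9h87.FD.Fin3
import Pool.Agent.K9h87.FD.A1
import Pool.Agent.K9h87.FD.A2
import Pool.Agent.K9h87.FD.A3

set_option autoImplicit false

/-!
Percolation by the second moment method: A1, A2 and A3 together (helper62; the proof of `a3_meas` is
that of `a3` by helper32).
-/

open MeasureTheory ProbabilityTheory Finset Filter Topology
open scoped NNReal ENNReal

namespace K9h87.FD

/-- `S_A3` with a measurable set. -/
theorem a3_meas {G : Type} [Group G] (φ : G → ℤ) {E : Type} [MeasurableSpace E]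
    (m : Measure E) [IsProbabilityMeasure m] (F : Finset G) (ℓ : E → G → ℝ) (Λ b : ℝ)
    (hφ : ∀ x y, φ (x * y) = φ x + φ y) (hF : ∀ h ∈ F, 1 ≤ φ h)
    (hm : ∀ h, Measurable fun e => ℓ e h) (h0 : ∀ e h, 0 ≤ ℓ e h) (hΛ : ∀ e h, ℓ e h ≤ Λ)
    (hb : 0 < b)
    (hN : ∀ n, ∫ ω, Np F ℓ ω n 1 ∂(Measure.infinitePi fun _ : G => m) = 1 ∧
      ∫ ω, (Np F ℓ ω n 1) ^ 2 ∂(Measure.infinitePi fun _ : G => m) ≤ b) :
    ∃ T₀ : Set (G → E), MeasurableSet T₀ ∧
      ENNReal.ofReal (1 / b) ≤ (Measure.infinitePi fun _ : G => m) T₀ ∧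
      ∀ ω ∈ T₀, {y | Relation.ReflTransGen
        (fun x y => ∃ h ∈ F, 0 < ℓ (ω x) h ∧ y = x * h) 1 y}.Infinite := by
  set P : Measure (G → E) := Measure.infinitePi fun _ : G => m with hP
  have : IsProbabilityMeasure P := by rw [hP]; infer_instance
  set A : ℕ → Set (G → E) := fun n => {ω | 0 < Np F ℓ ω n 1} with hA
  have hAm : ∀ n, MeasurableSet (A n) := fun n =>
    measurableSet_lt measurable_const (Np_meas hm n 1)
  have hanti : Antitone A := antitone_nat_of_succ_le fun n ω hω => Np_pos_pred h0 hω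
  have hint : ∀ n, Integrable (fun ω => Np F ℓ ω n 1) P := fun n =>
    Integrable.of_bound (Np_meas hm n 1).aestronglyMeasurable ((F.card * |Λ|) ^ n)
      (Eventually.of_forall fun ω => by
        rw [Real.norm_eq_abs, abs_of_nonneg (Np_nonneg h0 _ _ _)]
        exact Np_le h0 hΛ _ _ _)
  have hint2 : ∀ n, Integrable (fun ω => (Np F ℓ ω n 1) ^ 2) P := fun n =>
    Integrable.of_bound ((Np_meas hm n 1).pow_const 2).aestronglyMeasurable
      (((F.card * |Λ|) ^ n) ^ 2)
      (Eventually.of_forall fun ω => by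
        rw [Real.norm_eq_abs, abs_of_nonneg (sq_nonneg _)]
        exact pow_le_pow_left₀ (Np_nonneg h0 _ _ _) (Np_le h0 hΛ _ _ _) 2)
  have hAn : ∀ n, ENNReal.ofReal (1 / b) ≤ P (A n) := by
    intro n
    have h1 : ∀ ω, Np F ℓ ω n 1 ≤ (Np F ℓ ω n 1) ^ 2 / (2 * b) +
        (A n).indicator (fun _ => b / 2) ω := by
      intro ω
      by_cases hω : ω ∈ A n
      · rw [Set.indicator_of_mem hω]
        have : 0 ≤ (Np F ℓ ω n 1 - b) ^ 2 / (2 * b) := by positivity
        have h2 : (Np F ℓ ω n 1 - b) ^ 2 / (2 * b) =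
            (Np F ℓ ω n 1) ^ 2 / (2 * b) + b / 2 - Np F ℓ ω n 1 := by
          field_simp
          ring
        linarith
      · rw [Set.indicator_of_notMem hω]
        have h3 : Np F ℓ ω n 1 ≤ 0 := not_lt.1 hω
        have : 0 ≤ (Np F ℓ ω n 1) ^ 2 / (2 * b) := by positivity
        linarith
    have hi : Integrable ((A n).indicator fun _ : G → E => b / 2) P :=
      (integrable_const _).indicator (hAm n)
    have h2 := integral_mono (hint n) (((hint2 n).div_const (2 * b)).add hi) h1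
    have h3 : ∫ ω, (Np F ℓ ω n 1 ^ 2 / (2 * b) +
        (A n).indicator (fun _ => b / 2) ω) ∂P =
        (∫ ω, (Np F ℓ ω n 1) ^ 2 ∂P) / (2 * b) + P.real (A n) * (b / 2) := by
      rw [integral_add ((hint2 n).div_const (2 * b)) hi, integral_div,
        integral_indicator (hAm n), setIntegral_const, smul_eq_mul]
    have h4 : (1 : ℝ) ≤ b / (2 * b) + P.real (A n) * (b / 2) := by
      rw [(hN n).1] at h2
      refine h2.trans ?_
      refine (le_of_eq h3).trans ?_
      have := div_le_div_of_nonneg_right (hN n).2 (by positivity : 0 ≤ 2 * b)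
      linarith
    have h5 : 1 / b ≤ P.real (A n) := by
      have h6 : b / (2 * b) = 1 / 2 := by field_simp
      rw [h6] at h4
      rw [div_le_iff₀ hb]
      linarith
    rw [← ENNReal.ofReal_toReal (measure_ne_top P (A n))]
    exact ENNReal.ofReal_le_ofReal h5
  have hlim := tendsto_measure_iInter_atTop (μ := P) (s := A)
    (fun n => (hAm n).nullMeasurableSet) hanti ⟨0, measure_ne_top _ _⟩
  have hI : ENNReal.ofReal (1 / b) ≤ P (⋂ n, A n) := ge_of_tendsto' hlim hAn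
  refine ⟨⋂ n, A n, MeasurableSet.iInter hAm, hI, fun ω hω => ?_⟩
  intro hfin
  obtain ⟨M, hM⟩ := (hfin.image φ).bddAbove
  have hω' : ∀ n, 0 < Np F ℓ ω n 1 := fun n => Set.mem_iInter.1 hω n
  obtain ⟨y, hy, hy'⟩ := Np_path φ hφ hF h0 (hω' ((M - φ 1 + 1).toNat))
  have h7 : φ y ≤ M := hM ⟨y, hy, rfl⟩
  have h8 : M - φ 1 + 1 ≤ ((M - φ 1 + 1).toNat : ℤ) := Int.self_le_toNat _
  linarith

theorem perc : Fin3.S_PERC := by
  intro K _ φ E _ m _ μ ℓ Λ C T X hφ hμ hF hm h0 hΛ hmean hC hT hX hlt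
  classical
  obtain ⟨g0, g1, gx, gy, gb⟩ := a2 K φ μ T hφ hμ hF hT
  have hT0 : 0 ≤ T := by simpa using hT 0
  have hκ : ∀ h h', 0 ≤ ∫ e, ℓ e h * ℓ e h' ∂m := fun h h' =>
    integral_nonneg fun e => mul_nonneg (h0 _ _) (h0 _ _)
  have hΔ : ∀ n n' x, ∑ h ∈ μ.coeff.support, ∑ h' ∈ μ.coeff.support,
      (∫ e, ℓ e h * ℓ e h' ∂m) * Gr μ n n' (x * h) (x * h') ≤ X + C * (2 * T + T ^ 2) := by
    intro n n' x
    have h1 : ∀ h h', Gr μ n n' (x * h) (x * h') ≤ (if h = h' then 1 else 0) + (2 * T + T ^ 2) := by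
      intro h h'
      by_cases hh : h = h'
      · rw [if_pos hh]
        have := (gb n n' (x * h) (x * h')).1 (by rw [hh])
        linarith
      · rw [if_neg hh]
        have := (gb n n' (x * h) (x * h')).2 fun h2 => hh (mul_left_cancel h2)
        linarith
    calc ∑ h ∈ μ.coeff.support, ∑ h' ∈ μ.coeff.support,
          (∫ e, ℓ e h * ℓ e h' ∂m) * Gr μ n n' (x * h) (x * h')
        ≤ ∑ h ∈ μ.coeff.support, ∑ h' ∈ μ.coeff.support,
            (∫ e, ℓ e h * ℓ e h' ∂m) * ((if h = h' then 1 else 0) + (2 * T + T ^ 2)) :=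
          Finset.sum_le_sum fun h _ => Finset.sum_le_sum fun h' _ =>
            mul_le_mul_of_nonneg_left (h1 h h') (hκ h h')
      _ = (∑ h ∈ μ.coeff.support, ∫ e, (ℓ e h) ^ 2 ∂m) +
            (∑ h ∈ μ.coeff.support, ∑ h' ∈ μ.coeff.support, ∫ e, ℓ e h * ℓ e h' ∂m) *
              (2 * T + T ^ 2) := by
          simp only [mul_add, Finset.sum_add_distrib, mul_ite, mul_one, mul_zero,
            Finset.sum_ite_eq, ← Finset.sum_mul, sq]
          exact congrArg (· + _) (Finset.sum_congr rfl fun h hh => if_pos hh)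
      _ ≤ X + C * (2 * T + T ^ 2) :=
          add_le_add hX (mul_le_mul_of_nonneg_right hC (by positivity))
  have hsum : ∑ h ∈ μ.coeff.support, μ.coeff h = 1 := by
    rw [← mass_eq_sum μ (le_refl _)]; exact hμ.2
  have key := a1 K φ E m μ.coeff.support ℓ (fun h => μ.coeff h) (Gr μ)
    (X + C * (2 * T + T ^ 2)) Λ C hφ hF hm h0 hΛ hmean hsum hC hlt g0 g1 gx gy hΔ
  have hb : 0 < max 1 (C / (1 - (X + C * (2 * T + T ^ 2)))) := lt_max_of_lt_left one_pos
  exact ⟨_, by positivity, a3_meas φ m μ.coeff.support ℓ Λ _ hφ hF hm h0 hΛ hb key⟩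

end K9h87.FD
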