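import Pool.Agent.K9h87.FD.Stm

/-!
# Leaf ST of project FD: the law of the walk
-/

set_option autoImplicit false
set_option linter.all false

open MeasureTheory ProbabilityTheory Finset Filter Topology
open scoped NNReal ENNReal

namespace K9h87.FD

noncomputable section

section ST

variable {G : Type} [Group G]

theorem ST_disp_zero (w : ℕ × ℕ → G) (i : ℕ) : disp w i 0 = 1 := by
  simp [disp]

theorem ST_disp_succ (w : ℕ × ℕ → G) (i s : ℕ) : disp w i (s + 1) = disp w i s * w (i, s) := by
  unfold disp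
  rw [List.range_succ, List.map_append, List.prod_append]
  simp

/-- the first `n` steps of the particle `0` -/
def ST_T (n : ℕ) : Finset (ℕ × ℕ) := (range n).image fun j => ((0 : ℕ), j)

/-- extension by `1` -/
def ST_ext (n : ℕ) (v : ST_T n → G) : ℕ × ℕ → G := fun p => if h : p ∈ ST_T n then v ⟨p, h⟩ else 1

theorem ST_ext_disp (n : ℕ) (w : ℕ × ℕ → G) (r : ℕ) (hr : r ≤ n) :
    disp (ST_ext n (fun i : ST_T n => w i)) 0 r = disp w 0 r := by
  induction r with
  | zero => rw [ST_disp_zero, ST_disp_zero]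
  | succ r ih =>
    rw [ST_disp_succ, ST_disp_succ, ih (by omega)]
    congr 1
    unfold ST_ext
    have h : ((0 : ℕ), r) ∈ ST_T n := Finset.mem_image.2 ⟨r, Finset.mem_range.2 (by omega), rfl⟩
    rw [dif_pos h]

variable [Countable G] [MeasurableSpace G] [DiscreteMeasurableSpace G]

theorem ST_disp_meas (s : ℕ) : Measurable fun w : ℕ × ℕ → G => disp w 0 s := by
  induction s with
  | zero =>
    simp_rw [ST_disp_zero]
    exact measurable_const
  | succ s ih =>
    simp_rw [ST_disp_succ]
    exact ih.mul (measurable_pi_apply _)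

theorem ST_ext_meas (n : ℕ) : Measurable (ST_ext (G := G) n) := by
  apply measurable_pi_lambda
  intro p
  unfold ST_ext
  by_cases h : p ∈ ST_T n
  · simp only [h, dif_pos]
    exact measurable_pi_apply _
  · simp only [h, dif_neg, not_false_eq_true]
    exact measurable_const

variable (S : Finset G)

theorem ST_unif_prob (hS : S.Nonempty) : IsProbabilityMeasure (uniformOn (S : Set G)) :=
  isProbabilityMeasure_uniformOn S.finite_toSet (by exact_mod_cast hS)

theorem ST_indep (hS : S.Nonempty) (r n : ℕ) (hr : r ≤ n) :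
    IndepFun (fun w : ℕ × ℕ → G => (disp w 0 r, disp w 0 n)) (fun w => w (0, n)) (stepsLaw S) := by
  have := ST_unif_prob S hS
  have h1 : iIndepFun (fun (i : ℕ × ℕ) (w : ℕ × ℕ → G) => w i) (stepsLaw S) :=
    iIndepFun_infinitePi (X := fun _ x => x) (fun _ => measurable_id)
  have hd : Disjoint (ST_T n) {((0 : ℕ), n)} := by
    rw [Finset.disjoint_singleton_right]
    intro h
    obtain ⟨j, hj, h2⟩ := Finset.mem_image.1 h
    have := (Prod.ext_iff.1 h2).2
    rw [Finset.mem_range] at hj
    simp only at this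
    omega
  have h2 := h1.indepFun_finset (ST_T n) {((0 : ℕ), n)} hd (fun i => measurable_pi_apply i)
  have hψ : Measurable (fun v : (({((0 : ℕ), n)} : Finset (ℕ × ℕ)) → G) =>
      v ⟨(0, n), Finset.mem_singleton_self _⟩) := measurable_pi_apply _
  have h3 := h2.comp
    (φ := fun v : ST_T n → G => (disp (ST_ext n v) 0 r, disp (ST_ext n v) 0 n))
    (ψ := fun v : (({((0 : ℕ), n)} : Finset (ℕ × ℕ)) → G) =>
      v ⟨(0, n), Finset.mem_singleton_self _⟩)
    (((ST_disp_meas r).comp (ST_ext_meas n)).prodMk ((ST_disp_meas n).comp (ST_ext_meas n)))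
    hψ
  have e1 : ((fun v : ST_T n → G => (disp (ST_ext n v) 0 r, disp (ST_ext n v) 0 n)) ∘
      (fun (w : ℕ × ℕ → G) (i : ST_T n) => w i)) = fun w : ℕ × ℕ → G => (disp w 0 r, disp w 0 n) := by
    funext w
    simp only [Function.comp]
    rw [ST_ext_disp n w r hr, ST_ext_disp n w n le_rfl]
  rw [e1] at h3
  exact h3

theorem ST_split {Ω : Type} [MeasurableSpace Ω] (μ : Measure Ω) [IsProbabilityMeasure μ]
    (f : Ω → G) (hf : Measurable f) (s : Finset G) (hs : μ {w | f w ∉ s} = 0) (A : Set Ω)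
    (hA : MeasurableSet A) : μ.real A = ∑ a ∈ s, μ.real (A ∩ {w | f w = a}) := by
  rw [← measureReal_biUnion_finset]
  · apply measureReal_congr
    have h : ∀ᵐ w ∂μ, f w ∈ s := hs
    filter_upwards [h] with w hw
    apply propext
    constructor
    · intro h1
      exact Set.mem_biUnion hw ⟨h1, rfl⟩
    · intro h1
      obtain ⟨a, -, h2⟩ := Set.mem_iUnion₂.1 h1
      exact h2.1
  · intro a _ b _ hab
    apply Set.disjoint_left.2
    rintro w ⟨-, h1⟩ ⟨-, h2⟩
    exact hab (h1.symm.trans h2)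
  · intro a _
    exact hA.inter (hf (measurableSet_singleton a))

theorem ST_prob (hS : S.Nonempty) : IsProbabilityMeasure (stepsLaw S) := by
  have := ST_unif_prob S hS
  unfold stepsLaw
  infer_instance

theorem ST_coord (hS : S.Nonempty) (p : ℕ × ℕ) (E : Set G) :
    (stepsLaw S) {w | w p ∈ E} = uniformOn (S : Set G) E := by
  have := ST_unif_prob S hS
  have h1 : (stepsLaw S).map (fun w => w p) = uniformOn (S : Set G) :=
    Measure.infinitePi_map_eval _ p
  rw [← h1, Measure.map_apply (measurable_pi_apply p) (MeasurableSet.of_discrete)]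
  rfl

theorem ST_unif_single (a : G) (ha : a ∈ S) :
    (uniformOn (S : Set G)).real {a} = (S.card : ℝ)⁻¹ := by
  classical
  unfold Measure.real
  have h1 := uniformOn_apply_finset (s := S) (t := {a})
  rw [Finset.coe_singleton] at h1
  rw [h1, Finset.inter_singleton_of_mem ha, Finset.card_singleton]
  simp

theorem ST_step (hS : S.Nonempty) (r n : ℕ) (hr : r ≤ n) (g k : G) :
    (stepsLaw S).real {w | disp w 0 r = g ∧ disp w 0 (n + 1) = k} =
      ∑ a ∈ S, (stepsLaw S).real {w | disp w 0 r = g ∧ disp w 0 n = k * a⁻¹} *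
        (S.card : ℝ)⁻¹ := by
  have := ST_prob S hS
  have h0 : (stepsLaw S) {w | w (0, n) ∉ S} = 0 := by
    have := ST_coord S hS (0, n) ((S : Set G)ᶜ)
    have h2 : {w : ℕ × ℕ → G | w (0, n) ∈ ((S : Set G)ᶜ)} = {w | w (0, n) ∉ S} := by
      ext w
      simp
    rw [h2] at this
    rw [this, uniformOn_eq_zero_iff S.finite_toSet]
    simp
  have hm : MeasurableSet {w : ℕ × ℕ → G | disp w 0 r = g ∧ disp w 0 (n + 1) = k} :=
    ((ST_disp_meas r) (measurableSet_singleton g)).inter
      ((ST_disp_meas (n + 1)) (measurableSet_singleton k))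
  rw [ST_split (stepsLaw S) (fun w => w (0, n)) (measurable_pi_apply _) S h0 _ hm]
  refine Finset.sum_congr rfl fun a ha => ?_
  have e1 : ({w : ℕ × ℕ → G | disp w 0 r = g ∧ disp w 0 (n + 1) = k} ∩ {w | w (0, n) = a}) =
      ((fun w : ℕ × ℕ → G => (disp w 0 r, disp w 0 n)) ⁻¹' {(g, k * a⁻¹)}) ∩
        ((fun w : ℕ × ℕ → G => w (0, n)) ⁻¹' {a}) := by
    ext w
    simp only [Set.mem_inter_iff, Set.mem_ofPred_eq, Set.mem_preimage, Set.mem_singleton_iff,
      Prod.mk.injEq]
    constructor
    · rintro ⟨⟨h1, h2⟩, h3⟩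
      rw [ST_disp_succ, h3] at h2
      exact ⟨⟨h1, by rw [← h2]; group⟩, h3⟩
    · rintro ⟨⟨h1, h2⟩, h3⟩
      exact ⟨⟨h1, by rw [ST_disp_succ, h3, h2]; group⟩, h3⟩
  have e2 : {w : ℕ × ℕ → G | disp w 0 r = g ∧ disp w 0 n = k * a⁻¹} =
      ((fun w : ℕ × ℕ → G => (disp w 0 r, disp w 0 n)) ⁻¹' {(g, k * a⁻¹)}) := by
    ext w
    simp
  have h1 := (ST_indep S hS r n hr).measure_inter_preimage_eq_mul {(g, k * a⁻¹)} {a}
    (measurableSet_singleton _) (measurableSet_singleton _)
  rw [e1, e2, measureReal_def, h1, ENNReal.toReal_mul]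
  congr 1
  have h2 := ST_coord S hS (0, n) {a}
  have h3 : {w : ℕ × ℕ → G | w (0, n) ∈ ({a} : Set G)} =
      ((fun w : ℕ × ℕ → G => w (0, n)) ⁻¹' {a}) := rfl
  rw [← h3, h2, ← measureReal_def, ST_unif_single S a ha]

theorem ST_mul_unif (x : MonoidAlgebra ℝ G) (h : G) :
    (x * unif S).coeff h = ∑ a ∈ S, x.coeff (h * a⁻¹) * (S.card : ℝ)⁻¹ := by
  unfold unif
  rw [Finset.mul_sum, MonoidAlgebra.coeff_sum, Finsupp.finsetSum_apply]
  refine Finset.sum_congr rfl fun a _ => ?_
  rw [MonoidAlgebra.coeff_mul_single_apply]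

theorem ST_one (h : G) [Decidable (h = 1)] :
    (1 : MonoidAlgebra ℝ G).coeff h = if h = 1 then 1 else 0 := by
  classical
  rw [MonoidAlgebra.one_def, MonoidAlgebra.coeff_single, Finsupp.single_apply]
  by_cases h1 : h = 1
  · rw [if_pos h1, if_pos h1.symm]
  · rw [if_neg h1, if_neg (fun h2 => h1 h2.symm)]

theorem ST_law0 (hS : S.Nonempty) (n : ℕ) (k : G) :
    (stepsLaw S).real {w | disp w 0 n = k} = (unif S ^ n).coeff k := by
  classical
  have := ST_prob S hS
  have e : ∀ n k, {w : ℕ × ℕ → G | disp w 0 0 = 1 ∧ disp w 0 n = k} = {w | disp w 0 n = k} := by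
    intro n k
    ext w
    simp [ST_disp_zero]
  induction n generalizing k with
  | zero =>
    rw [pow_zero, ST_one]
    by_cases h : k = 1
    · rw [if_pos h]
      have : {w : ℕ × ℕ → G | disp w 0 0 = k} = Set.univ := by
        ext w
        simp [ST_disp_zero, h]
      rw [this, probReal_univ]
    · rw [if_neg h]
      have : {w : ℕ × ℕ → G | disp w 0 0 = k} = ∅ := by
        ext w
        simp only [ST_disp_zero, Set.mem_ofPred_eq, Set.mem_empty_iff_false, iff_false]
        exact fun h2 => h h2.symm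
      rw [this, measureReal_empty]
  | succ n ih =>
    rw [pow_succ, ST_mul_unif, ← e, ST_step S hS 0 n (Nat.zero_le _)]
    refine Finset.sum_congr rfl fun a _ => ?_
    rw [e, ih]

theorem ST_law (hS : S.Nonempty) (r n : ℕ) (g k : G) :
    (stepsLaw S).real {w | disp w 0 r = g ∧ disp w 0 (r + n) = k} =
      (unif S ^ r).coeff g * (unif S ^ n).coeff (g⁻¹ * k) := by
  classical
  have := ST_prob S hS
  induction n generalizing k with
  | zero =>
    rw [pow_zero, ST_one, add_zero]
    by_cases h : g⁻¹ * k = 1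
    · rw [if_pos h, mul_one]
      have h2 : g = k := by
        rw [inv_mul_eq_one] at h
        exact h
      have : {w : ℕ × ℕ → G | disp w 0 r = g ∧ disp w 0 r = k} = {w | disp w 0 r = g} := by
        ext w
        simp [h2]
      rw [this, ST_law0 S hS]
    · rw [if_neg h, mul_zero]
      have : {w : ℕ × ℕ → G | disp w 0 r = g ∧ disp w 0 r = k} = ∅ := by
        ext w
        simp only [Set.mem_ofPred_eq, Set.mem_empty_iff_false, iff_false]
        rintro ⟨h1, h2⟩
        exact h (by rw [← h1, ← h2]; group)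
      rw [this, measureReal_empty]
  | succ n ih =>
    rw [pow_succ, ST_mul_unif, ← add_assoc, ST_step S hS r (r + n) (Nat.le_add_right _ _),
      Finset.mul_sum]
    refine Finset.sum_congr rfl fun a _ => ?_
    rw [ih, mul_assoc, mul_assoc g⁻¹]

theorem ST_supp (hS : S.Nonempty) (r : ℕ) :
    (stepsLaw S) {w | disp w 0 r ∉ (unif S ^ r).coeff.support} = 0 := by
  have := ST_prob S hS
  have e : {w : ℕ × ℕ → G | disp w 0 r ∉ (unif S ^ r).coeff.support} =
      ⋃ g ∈ {g : G | g ∉ (unif S ^ r).coeff.support}, {w | disp w 0 r = g} := by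
    ext w
    simp
  rw [e, measure_biUnion_null_iff (Set.to_countable _)]
  intro g hg
  have h1 := ST_law0 S hS r g
  have h2 : (unif S ^ r).coeff g = 0 := by
    simpa using hg
  rw [h2, measureReal_eq_zero_iff] at h1
  exact h1

theorem ST_split2 (hS : S.Nonempty) (r : ℕ) (A : Set (ℕ × ℕ → G)) (hA : MeasurableSet A) :
    (stepsLaw S).real A =
      ∑ g ∈ (unif S ^ r).coeff.support, (stepsLaw S).real (A ∩ {w | disp w 0 r = g}) := by
  have := ST_prob S hS
  exact ST_split (stepsLaw S) (fun w => disp w 0 r) (ST_disp_meas r) _ (ST_supp S hS r) A hA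

theorem ST_pow_nonneg (hS : S.Nonempty) (r : ℕ) (g : G) : 0 ≤ (unif S ^ r).coeff g := by
  rw [← ST_law0 S hS r g]
  exact measureReal_nonneg

theorem ST_mass (hS : S.Nonempty) (r : ℕ) :
    ∑ g ∈ (unif S ^ r).coeff.support, (unif S ^ r).coeff g = 1 := by
  have := ST_prob S hS
  have h1 := ST_split2 S hS r Set.univ MeasurableSet.univ
  rw [probReal_univ] at h1
  rw [h1]
  refine Finset.sum_congr rfl fun g _ => ?_
  rw [Set.univ_inter, ST_law0 S hS]

/-- the probability of a return between the times `a` and `a + n` -/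
theorem ST_return (hS : S.Nonempty) (a n : ℕ) :
    (stepsLaw S).real {w | disp w 0 a = disp w 0 (a + n)} = (unif S ^ n).coeff 1 := by
  have := ST_prob S hS
  have hm : MeasurableSet {w : ℕ × ℕ → G | disp w 0 a = disp w 0 (a + n)} :=
    measurableSet_eq_fun (ST_disp_meas a) (ST_disp_meas (a + n))
  rw [ST_split2 S hS a _ hm]
  have : ∀ g, ({w : ℕ × ℕ → G | disp w 0 a = disp w 0 (a + n)} ∩ {w | disp w 0 a = g}) =
      {w | disp w 0 a = g ∧ disp w 0 (a + n) = g} := by
    intro g
    ext w
    simp only [Set.mem_inter_iff, Set.mem_ofPred_eq]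
    constructor
    · rintro ⟨h1, h2⟩
      exact ⟨h2, by rw [← h1, h2]⟩
    · rintro ⟨h1, h2⟩
      exact ⟨by rw [h1, h2], h1⟩
  simp_rw [this, ST_law S hS, inv_mul_cancel]
  rw [← Finset.sum_mul, ST_mass S hS, one_mul]

/-- the event in `Rc` -/
def ST_ev (φ : G → ℤ) (r U : ℕ) (B : ℤ) (g : G) (u : ℕ) : Set (ℕ × ℕ → G) :=
  {w | disp w 0 (r + U + u) = g ∧ B < φ ((disp w 0 r)⁻¹ * disp w 0 (r + U + u))}

theorem ST_ev_meas (φ : G → ℤ) (r U : ℕ) (B : ℤ) (g : G) (u : ℕ) :
    MeasurableSet (ST_ev φ r U B g u) := by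
  have h1 : MeasurableSet {w : ℕ × ℕ → G | disp w 0 (r + U + u) = g} :=
    (ST_disp_meas (r + U + u)) (measurableSet_singleton g)
  have h2 : MeasurableSet {w : ℕ × ℕ → G | B < φ ((disp w 0 r)⁻¹ * disp w 0 (r + U + u))} :=
    (((ST_disp_meas r).inv).mul (ST_disp_meas (r + U + u)))
      (MeasurableSet.of_discrete (s := {x : G | B < φ x}))
  exact h1.inter h2

theorem ST_Rc (φ : G → ℤ) (r U M : ℕ) (B : ℤ) (w : ℕ × ℕ → G) (g : G) :
    Rc φ r U M B w g = ∑ u ∈ range M, (ST_ev φ r U B g u).indicator (fun _ => (1 : ℝ)) w := by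
  unfold Rc
  refine Finset.sum_congr rfl fun u _ => ?_
  by_cases h : disp w 0 (r + U + u) = g ∧ B < φ ((disp w 0 r)⁻¹ * disp w 0 (r + U + u))
  · rw [if_pos h, Set.indicator_of_mem (show w ∈ ST_ev φ r U B g u from h)]
  · rw [if_neg h, Set.indicator_of_notMem (show w ∉ ST_ev φ r U B g u from h)]

theorem ST_ev_real (hS : S.Nonempty) (φ : G → ℤ) (r U : ℕ) (B : ℤ) (g : G) (u : ℕ) :
    (stepsLaw S).real (ST_ev φ r U B g u) =
      (unif S ^ r * cut φ B (unif S ^ (U + u))).coeff g := by
  classical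
  have := ST_prob S hS
  rw [ST_split2 S hS r _ (ST_ev_meas φ r U B g u), MonoidAlgebra.coeff_mul_apply_left,
    Finsupp.sum]
  refine Finset.sum_congr rfl fun x _ => ?_
  have hc : (cut φ B (unif S ^ (U + u))).coeff (x⁻¹ * g) =
      if B < φ (x⁻¹ * g) then (unif S ^ (U + u)).coeff (x⁻¹ * g) else 0 := by
    unfold cut
    rw [MonoidAlgebra.coeff_ofCoeff, Finsupp.filter_apply]
  rw [hc]
  by_cases h : B < φ (x⁻¹ * g)
  · rw [if_pos h, ← ST_law S hS]
    congr 1
    ext w
    simp only [ST_ev, Set.mem_inter_iff, Set.mem_ofPred_eq]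
    constructor
    · rintro ⟨⟨h1, h2⟩, h3⟩
      exact ⟨h3, by rw [← h1, add_assoc]⟩
    · rintro ⟨h1, h2⟩
      rw [← add_assoc] at h2
      exact ⟨⟨h2, by rw [h1, h2]; exact h⟩, h1⟩
  · rw [if_neg h, mul_zero]
    have : (ST_ev φ r U B g u ∩ {w | disp w 0 r = x}) = ∅ := by
      ext w
      simp only [ST_ev, Set.mem_inter_iff, Set.mem_ofPred_eq, Set.mem_empty_iff_false, iff_false]
      rintro ⟨⟨h1, h2⟩, h3⟩
      rw [h1, h3] at h2
      exact h h2
    rw [this, measureReal_empty]

theorem ST_int (hS : S.Nonempty) {A : Set (ℕ × ℕ → G)} (hA : MeasurableSet A) :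
    Integrable (A.indicator (fun _ => (1 : ℝ))) (stepsLaw S) := by
  have := ST_prob S hS
  exact (integrable_const 1).indicator hA

theorem ST_int_eq (hS : S.Nonempty) {A : Set (ℕ × ℕ → G)} (hA : MeasurableSet A) :
    ∫ w, A.indicator (fun _ => (1 : ℝ)) w ∂(stepsLaw S) = (stepsLaw S).real A := by
  exact integral_indicator_one hA

theorem ST_ev_disj (φ : G → ℤ) (r U : ℕ) (B : ℤ) (u : ℕ) (w : ℕ × ℕ → G) (F : Finset G) :
    ∑ g ∈ F, (ST_ev φ r U B g u).indicator (fun _ => (1 : ℝ)) w ≤ 1 := by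
  classical
  by_cases h : ∃ g ∈ F, w ∈ ST_ev φ r U B g u
  · obtain ⟨g, hg, hw⟩ := h
    rw [Finset.sum_eq_single g]
    · rw [Set.indicator_of_mem hw]
    · intro b _ hb
      apply Set.indicator_of_notMem
      intro h2
      exact hb (h2.1.symm.trans hw.1)
    · intro h2
      exact absurd hg h2
  · push Not at h
    rw [Finset.sum_eq_zero]
    · norm_num
    · intro g hg
      exact Set.indicator_of_notMem (h g hg) _

theorem ST_c (hS : S.Nonempty) (M u : ℕ) (hu : u < M) (r U : ℕ) :
    ∑ u' ∈ range M, (stepsLaw S).real {w | disp w 0 (r + U + u) = disp w 0 (r + U + u')} ≤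
      1 + 2 * ∑ j ∈ Ico 1 M, (unif S ^ j).coeff 1 := by
  have := ST_prob S hS
  set c : ℕ → ℝ := fun j => (unif S ^ j).coeff 1 with hc
  have hc0 : ∀ j, 0 ≤ c j := fun j => ST_pow_nonneg S hS j 1
  have e : ∀ u' ∈ range M,
      (stepsLaw S).real {w | disp w 0 (r + U + u) = disp w 0 (r + U + u')} =
        if u' < u then c (u - u') else c (u' - u) := by
    intro u' _
    by_cases h : u' < u
    · rw [if_pos h]
      have h2 := ST_return S hS (r + U + u') (u - u')
      rw [show r + U + u' + (u - u') = r + U + u by omega] at h2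
      refine Eq.trans ?_ h2
      congr 1
      ext w
      exact eq_comm
    · rw [if_neg h]
      have h2 := ST_return S hS (r + U + u) (u' - u)
      rw [show r + U + u + (u' - u) = r + U + u' by omega] at h2
      exact h2
  rw [Finset.sum_congr rfl e, Finset.sum_ite]
  have h1 : ∑ x ∈ (range M).filter (fun x => x < u), c (u - x) ≤ ∑ j ∈ Ico 1 M, c j := by
    have hi : ∑ x ∈ (range M).filter (fun x => x < u), c (u - x) =
        ∑ j ∈ ((range M).filter (fun x => x < u)).image (fun x => u - x), c j := by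
      rw [Finset.sum_image]
      intro x hx y hy hxy
      simp only [Finset.coe_filter, Finset.mem_range, Set.mem_ofPred_eq] at hx hy
      simp only at hxy
      omega
    rw [hi]
    apply Finset.sum_le_sum_of_subset_of_nonneg
    · intro j hj
      obtain ⟨x, hx, rfl⟩ := Finset.mem_image.1 hj
      simp only [Finset.mem_filter, Finset.mem_range] at hx
      rw [Finset.mem_Ico]
      omega
    · intro j _ _
      exact hc0 j
  have h2 : ∑ x ∈ (range M).filter (fun x => ¬ x < u), c (x - u) ≤ 1 + ∑ j ∈ Ico 1 M, c j := by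
    have hi : ∑ x ∈ (range M).filter (fun x => ¬ x < u), c (x - u) =
        ∑ j ∈ ((range M).filter (fun x => ¬ x < u)).image (fun x => x - u), c j := by
      rw [Finset.sum_image]
      intro x hx y hy hxy
      simp only [Finset.coe_filter, Finset.mem_range, Set.mem_ofPred_eq] at hx hy
      simp only at hxy
      omega
    rw [hi]
    have h3 : 1 + ∑ j ∈ Ico 1 M, c j = ∑ j ∈ range M, c j := by
      rw [Finset.range_eq_Ico, Finset.sum_eq_sum_Ico_succ_bot (by omega : 0 < M)]
      congr 1
      rw [hc]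
      simp only
      rw [pow_zero, MonoidAlgebra.coeff_one_one]
    rw [h3]
    apply Finset.sum_le_sum_of_subset_of_nonneg
    · intro j hj
      obtain ⟨x, hx, rfl⟩ := Finset.mem_image.1 hj
      simp only [Finset.mem_filter, Finset.mem_range] at hx
      rw [Finset.mem_range]
      omega
    · intro j _ _
      exact hc0 j
  linarith

end ST

theorem st : S_ST := by
  intro G _ _ _ _ S φ r U M B hS hφ
  classical
  have := ST_prob S hS
  refine ⟨⟨?_, ?_, ?_⟩, ?_, ?_⟩
  · intro g
    simp_rw [ST_Rc]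
    apply Finset.measurable_sum
    intro u _
    exact measurable_const.indicator (ST_ev_meas φ r U B g u)
  · intro w g
    rw [ST_Rc]
    exact Finset.sum_nonneg fun u _ => Set.indicator_nonneg (fun _ _ => zero_le_one) _
  · intro w F
    simp_rw [ST_Rc]
    rw [Finset.sum_comm]
    calc ∑ u ∈ range M, ∑ g ∈ F, (ST_ev φ r U B g u).indicator (fun _ => (1 : ℝ)) w
        ≤ ∑ u ∈ range M, (1 : ℝ) := Finset.sum_le_sum fun u _ => ST_ev_disj φ r U B u w F
      _ = M := by simp
  · intro g
    simp_rw [ST_Rc]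
    rw [integral_finset_sum _ fun u _ => ST_int S hS (ST_ev_meas φ r U B g u), Finset.mul_sum,
      MonoidAlgebra.coeff_sum, Finsupp.finsetSum_apply]
    refine Finset.sum_congr rfl fun u _ => ?_
    rw [ST_int_eq S hS (ST_ev_meas φ r U B g u), ST_ev_real S hS]
  · intro F
    have hm : ∀ u u' : ℕ, MeasurableSet
        {w : ℕ × ℕ → G | disp w 0 (r + U + u) = disp w 0 (r + U + u')} := fun u u' =>
      measurableSet_eq_fun (ST_disp_meas _) (ST_disp_meas _)
    have hint : ∀ g, Integrable (fun w => (Rc φ r U M B w g) ^ 2) (stepsLaw S) := by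
      intro g
      simp_rw [ST_Rc, sq, Finset.sum_mul_sum]
      refine integrable_finset_sum _ fun u _ => integrable_finset_sum _ fun u' _ => ?_
      have : (fun w : ℕ × ℕ → G => (ST_ev φ r U B g u).indicator (fun _ => (1 : ℝ)) w *
          (ST_ev φ r U B g u').indicator (fun _ => (1 : ℝ)) w) =
          (ST_ev φ r U B g u ∩ ST_ev φ r U B g u').indicator (fun _ => (1 : ℝ)) := by
        funext w
        have h1 := Set.inter_indicator_one (M₀ := ℝ) (s := ST_ev φ r U B g u)
          (t := ST_ev φ r U B g u')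
        exact (congrFun h1 w).symm
      rw [this]
      exact ST_int S hS ((ST_ev_meas φ r U B g u).inter (ST_ev_meas φ r U B g u'))
    rw [← integral_finset_sum _ fun g _ => hint g]
    have hpt : ∀ w : ℕ × ℕ → G, ∑ g ∈ F, (Rc φ r U M B w g) ^ 2 ≤
        ∑ u ∈ range M, ∑ u' ∈ range M,
          ({w : ℕ × ℕ → G | disp w 0 (r + U + u) = disp w 0 (r + U + u')}).indicator
            (fun _ => (1 : ℝ)) w := by
      intro w
      have e : ∑ g ∈ F, (Rc φ r U M B w g) ^ 2 = ∑ u ∈ range M, ∑ u' ∈ range M, ∑ g ∈ F,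
          (ST_ev φ r U B g u).indicator (fun _ => (1 : ℝ)) w *
          (ST_ev φ r U B g u').indicator (fun _ => (1 : ℝ)) w := by
        simp_rw [ST_Rc, sq, Finset.sum_mul_sum]
        rw [Finset.sum_comm]
        refine Finset.sum_congr rfl fun u _ => ?_
        rw [Finset.sum_comm]
      rw [e]
      refine Finset.sum_le_sum fun u _ => Finset.sum_le_sum fun u' _ => ?_
      by_cases h : disp w 0 (r + U + u) = disp w 0 (r + U + u')
      · rw [Set.indicator_of_mem (show w ∈
          {w : ℕ × ℕ → G | disp w 0 (r + U + u) = disp w 0 (r + U + u')} from h)]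
        refine le_trans (Finset.sum_le_sum fun g _ => ?_) (ST_ev_disj φ r U B u w F)
        have h1 : (ST_ev φ r U B g u').indicator (fun _ => (1 : ℝ)) w ≤ 1 :=
          Set.indicator_le_self' (fun _ _ => zero_le_one) w
        have h2 : 0 ≤ (ST_ev φ r U B g u).indicator (fun _ => (1 : ℝ)) w :=
          Set.indicator_nonneg (fun _ _ => zero_le_one) _
        nlinarith
      · rw [Set.indicator_of_notMem (show w ∉
          {w : ℕ × ℕ → G | disp w 0 (r + U + u) = disp w 0 (r + U + u')} from h)]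
        apply le_of_eq
        apply Finset.sum_eq_zero
        intro g _
        by_cases h1 : w ∈ ST_ev φ r U B g u
        · have h2 : w ∉ ST_ev φ r U B g u' := fun h2 => h (h1.1.trans h2.1.symm)
          rw [Set.indicator_of_notMem h2, mul_zero]
        · rw [Set.indicator_of_notMem h1, zero_mul]
    calc ∫ w, ∑ g ∈ F, (Rc φ r U M B w g) ^ 2 ∂(stepsLaw S)
        ≤ ∫ w, ∑ u ∈ range M, ∑ u' ∈ range M,
          ({w : ℕ × ℕ → G | disp w 0 (r + U + u) = disp w 0 (r + U + u')}).indicator
            (fun _ => (1 : ℝ)) w ∂(stepsLaw S) :=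
          integral_mono (integrable_finset_sum _ fun g _ => hint g)
            (integrable_finset_sum _ fun u _ => integrable_finset_sum _ fun u' _ =>
              ST_int S hS (hm u u')) hpt
      _ = ∑ u ∈ range M, ∑ u' ∈ range M,
          (stepsLaw S).real {w | disp w 0 (r + U + u) = disp w 0 (r + U + u')} := by
          rw [integral_finset_sum _ fun u _ => integrable_finset_sum _ fun u' _ =>
            ST_int S hS (hm u u')]
          refine Finset.sum_congr rfl fun u _ => ?_
          rw [integral_finset_sum _ fun u' _ => ST_int S hS (hm u u')]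
          exact Finset.sum_congr rfl fun u' _ => ST_int_eq S hS (hm u u')
      _ ≤ ∑ u ∈ range M, (1 + 2 * ∑ j ∈ Ico 1 M, (unif S ^ j).coeff 1) :=
          Finset.sum_le_sum fun u hu => ST_c S hS M u (Finset.mem_range.1 hu) r U
      _ = M * (1 + 2 * ∑ j ∈ Ico 1 M, (unif S ^ j).coeff 1) := by
          rw [Finset.sum_const, Finset.card_range, nsmul_eq_mul]

end

end K9h87.FD
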