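import Pool.Agent.K9h87.FD.Stm2
import Pool.Agent.K9h87.FD.ST

/-!
# Leaf STC of project FD: the walk read through prefix codes
-/

set_option autoImplicit false
set_option linter.all false

open MeasureTheory ProbabilityTheory Finset Filter Topology
open scoped NNReal ENNReal

namespace K9h87.FD

noncomputable section

section STC

theorem STC_mem_words {α : Type} (C : Finset α) (n : ℕ) (v : List α) :
    v ∈ words C n ↔ v.length = n ∧ ∀ a ∈ v, a ∈ C := by
  classical
  induction n generalizing v with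
  | zero =>
    simp only [words, Finset.mem_singleton]
    constructor
    · rintro rfl
      simp
    · rintro ⟨h, -⟩
      exact List.length_eq_zero_iff.1 h
  | succ n ih =>
    simp only [words, Finset.mem_image, Finset.mem_product]
    constructor
    · rintro ⟨⟨x, l⟩, ⟨hx, hl⟩, rfl⟩
      obtain ⟨h1, h2⟩ := (ih l).1 hl
      refine ⟨by simp [h1], ?_⟩
      intro a ha
      rcases List.mem_cons.1 ha with rfl | ha
      · exact hx
      · exact h2 a ha
    · rintro ⟨h1, h2⟩
      match v, h1, h2 with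
      | x :: l, h1, h2 =>
        refine ⟨(x, l), ⟨h2 x (by simp), (ih l).2 ⟨by simpa using h1, fun a ha => h2 a (by simp [ha])⟩⟩,
          rfl⟩

theorem STC_sum_words_succ {α : Type} {β : Type*} [AddCommMonoid β] (C : Finset α) (n : ℕ)
    (f : List α → β) :
    ∑ v ∈ words C (n + 1), f v = ∑ x ∈ C, ∑ l ∈ words C n, f (x :: l) := by
  classical
  simp only [words]
  rw [Finset.sum_image, Finset.sum_product]
  rintro ⟨x, l⟩ _ ⟨y, m⟩ _ h
  simp only [List.cons.injEq] at h
  exact Prod.ext h.1 h.2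

theorem STC_pow {G K : Type} [Group K] (c : ℝ) (val : List G → K) (C : Finset (List G)) (n : ℕ) :
    codeM c val C ^ n =
      ∑ a ∈ words C n, MonoidAlgebra.single (a.map val).prod (c ^ a.flatten.length) := by
  induction n with
  | zero => simp [words, MonoidAlgebra.one_def]
  | succ n ih =>
    rw [pow_succ', ih, codeM, Finset.sum_mul_sum, STC_sum_words_succ]
    refine Finset.sum_congr rfl fun x _ => Finset.sum_congr rfl fun l _ => ?_
    rw [MonoidAlgebra.single_mul_single]
    simp [pow_add]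

theorem STC_coeff_one {G K : Type} [Group K] (c : ℝ) (val : List G → K) (C : Finset (List G))
    (n : ℕ) (h : K) [∀ a : List (List G), Decidable ((a.map val).prod = h)] :
    (codeM c val C ^ n).coeff h =
      ∑ a ∈ words C n, if (a.map val).prod = h then c ^ a.flatten.length else 0 := by
  classical
  rw [STC_pow, MonoidAlgebra.coeff_sum, Finsupp.finsetSum_apply]
  refine Finset.sum_congr rfl fun a _ => ?_
  rw [MonoidAlgebra.coeff_single, Finsupp.single_apply]

/-! ### Prefix codes -/

theorem STC_parse {α : Type} (C : Finset (List α))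
    (hC : ∀ v ∈ C, ∀ v' ∈ C, v <+: v' → v = v') (n : ℕ) :
    ∀ (a a' : List (List α)) (x x' L : List α), a ∈ words C n → a' ∈ words C n →
      a.flatten ++ x <+: L → a'.flatten ++ x' <+: L → a = a' := by
  induction n with
  | zero =>
    intro a a' x x' L ha ha' _ _
    rw [STC_mem_words] at ha ha'
    rw [List.length_eq_zero_iff.1 ha.1, List.length_eq_zero_iff.1 ha'.1]
  | succ n ih =>
    intro a a' x x' L ha ha' h h'
    rw [STC_mem_words] at ha ha'
    match a, a', ha, ha', h, h' with
    | v :: a, v' :: a', ha, ha', h, h' =>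
      rw [List.flatten_cons, List.append_assoc] at h h'
      have h1 : v <+: L := (List.prefix_append _ _).trans h
      have h2 : v' <+: L := (List.prefix_append _ _).trans h'
      have hv : v = v' := by
        rcases List.prefix_or_prefix_of_prefix h1 h2 with h3 | h3
        · exact hC v (ha.2 v (by simp)) v' (ha'.2 v' (by simp)) h3
        · exact (hC v' (ha'.2 v' (by simp)) v (ha.2 v (by simp)) h3).symm
      subst hv
      obtain ⟨L', rfl⟩ := h1
      rw [List.prefix_append_right_inj] at h h'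
      congr 1
      refine ih a a' x x' L' ?_ ?_ h h'
      · rw [STC_mem_words]
        exact ⟨by simpa using ha.1, fun b hb => ha.2 b (by simp [hb])⟩
      · rw [STC_mem_words]
        exact ⟨by simpa using ha'.1, fun b hb => ha'.2 b (by simp [hb])⟩

theorem STC_take {α : Type} (C : Finset α) (m n : ℕ) (b : List α) (hb : b ∈ words C (m + n)) :
    b.take m ∈ words C m ∧ b.drop m ∈ words C n := by
  rw [STC_mem_words] at hb
  obtain ⟨h1, h2⟩ := hb
  rw [STC_mem_words, STC_mem_words]
  refine ⟨⟨?_, fun a ha => h2 a (List.mem_of_mem_take ha)⟩, ?_, fun a ha => h2 a (List.mem_of_mem_drop ha)⟩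
  · rw [List.length_take, h1]
    omega
  · rw [List.length_drop, h1]
    omega

/-- The parse for more codewords extends the parse for fewer codewords. -/
theorem STC_parse2 {α : Type} (C₁ C₂ : Finset (List α))
    (hC₁ : ∀ v ∈ C₁, ∀ v' ∈ C₁, v <+: v' → v = v') (hC₂ : ∀ v ∈ C₂, ∀ v' ∈ C₂, v <+: v' → v = v')
    (r m n : ℕ) (a a' b b' : List (List α)) (L : List α) (ha : a ∈ words C₁ r)
    (ha' : a' ∈ words C₁ r) (hb : b ∈ words C₂ m) (hb' : b' ∈ words C₂ (m + n))
    (h : a.flatten ++ b.flatten <+: L) (h' : a'.flatten ++ b'.flatten <+: L) :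
    a = a' ∧ b = b'.take m := by
  have h1 : a = a' := STC_parse C₁ hC₁ r a a' _ _ L ha ha' h h'
  subst h1
  refine ⟨rfl, ?_⟩
  obtain ⟨L', rfl⟩ := (List.prefix_append _ _).trans h
  rw [List.prefix_append_right_inj] at h h'
  refine STC_parse C₂ hC₂ m b (b'.take m) [] (b'.drop m).flatten L' hb (STC_take C₂ m n b' hb').1
    (by rwa [List.append_nil]) ?_
  rwa [← List.flatten_append, List.take_append_drop]

/-! ### The law of the first letters -/

/-- The first `n` letters. -/
def STC_path {G : Type} (w : ℕ × ℕ → G) (n : ℕ) : List G := (List.range n).map (fun j => w (0, j))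

theorem STC_path_prefix {G : Type} (w : ℕ × ℕ → G) {m n : ℕ} (h : m ≤ n) :
    STC_path w m <+: STC_path w n := by
  unfold STC_path
  obtain ⟨k, rfl⟩ := Nat.exists_eq_add_of_le h
  rw [List.range_add, List.map_append]
  exact List.prefix_append _ _

theorem STC_starts_prefix {G : Type} (w : ℕ × ℕ → G) {v : List G} (h : Starts w v) {n : ℕ}
    (hn : v.length ≤ n) : v <+: STC_path w n := by
  have h1 : STC_path w v.length = v := h
  have h2 := STC_path_prefix w hn
  rwa [h1] at h2

theorem STC_starts_iff {G : Type} (w : ℕ × ℕ → G) (v : List G) :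
    Starts w v ↔ ∀ j (h : j < v.length), w (0, j) = v[j] := by
  unfold Starts
  constructor
  · intro h j hj
    have h1 : (List.map (fun j => w (0, j)) (List.range v.length))[j]? = v[j]? := by rw [h]
    rw [List.getElem?_map, List.getElem?_range hj, List.getElem?_eq_getElem hj] at h1
    simpa using h1
  · intro h
    apply List.ext_getElem
    · simp
    · intro j h1 h2
      simp [h j h2]

variable {G : Type} [Countable G] [MeasurableSpace G] [DiscreteMeasurableSpace G]

theorem STC_set (v : List G) : {w : ℕ × ℕ → G | Starts w v} =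
    Set.pi (((range v.length).image fun j => ((0 : ℕ), j) : Finset (ℕ × ℕ)) : Set (ℕ × ℕ))
      (fun p => {x | v[p.2]? = some x}) := by
  ext w
  rw [Set.mem_pi, Set.mem_setOf_eq, STC_starts_iff]
  constructor
  · rintro h p hp
    rw [Finset.mem_coe, Finset.mem_image] at hp
    obtain ⟨j, hj, rfl⟩ := hp
    rw [Finset.mem_range] at hj
    rw [Set.mem_setOf_eq, h j hj, List.getElem?_eq_getElem hj]
  · intro h j hj
    have h1 := h (0, j) (by
      rw [Finset.mem_coe, Finset.mem_image]
      exact ⟨j, Finset.mem_range.2 hj, rfl⟩)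
    rw [Set.mem_setOf_eq, List.getElem?_eq_getElem hj] at h1
    exact (Option.some.inj h1).symm

theorem STC_meas (v : List G) : MeasurableSet {w : ℕ × ℕ → G | Starts w v} := by
  rw [STC_set]
  exact MeasurableSet.pi (Set.to_countable _) fun _ _ => MeasurableSet.of_discrete

theorem STC_unif_prob (S : Finset G) (hS : S.Nonempty) :
    IsProbabilityMeasure (uniformOn (S : Set G)) :=
  isProbabilityMeasure_uniformOn S.finite_toSet (by exact_mod_cast hS)

theorem STC_prob (S : Finset G) (hS : S.Nonempty) : IsProbabilityMeasure (stepsLaw S) := by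
  have := STC_unif_prob S hS
  unfold stepsLaw
  infer_instance

theorem STC_unif_single (S : Finset G) (a : G) (ha : a ∈ S) :
    (uniformOn (S : Set G)).real {a} = (S.card : ℝ)⁻¹ := by
  classical
  unfold Measure.real
  have h1 := uniformOn_apply_finset (s := S) (t := {a})
  rw [Finset.coe_singleton] at h1
  rw [h1, Finset.inter_singleton_of_mem ha, Finset.card_singleton]
  simp

theorem STC_real (S : Finset G) (hS : S.Nonempty) (v : List G) (hv : ∀ a ∈ v, a ∈ S) :
    (stepsLaw S).real {w | Starts w v} = ((S.card : ℝ)⁻¹) ^ v.length := by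
  classical
  have := STC_unif_prob S hS
  rw [STC_set, measureReal_def, stepsLaw, Measure.infinitePi_pi, Finset.prod_image,
    ENNReal.toReal_prod]
  · have e : ∀ j ∈ range v.length, (uniformOn (S : Set G) {x | v[((0 : ℕ), j).2]? = some x}).toReal =
        (S.card : ℝ)⁻¹ := by
      intro j hj
      rw [Finset.mem_range] at hj
      have h1 : {x | v[((0 : ℕ), j).2]? = some x} = {v[j]} := by
        ext x
        simp only [Set.mem_setOf_eq, Set.mem_singleton_iff, List.getElem?_eq_getElem hj,
          Option.some.injEq]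
        exact eq_comm
      rw [h1]
      exact STC_unif_single S _ (hv _ (List.getElem_mem hj))
    rw [Finset.prod_congr rfl e, Finset.prod_const, Finset.card_range]
  · intro x _ y _ h
    exact (Prod.ext_iff.1 h).2
  · intro _ _
    exact MeasurableSet.of_discrete

omit [Countable G] [MeasurableSpace G] [DiscreteMeasurableSpace G] in
theorem STC_uniq (C₁ C₂ : Finset (List G))
    (hC₁ : ∀ v ∈ C₁, ∀ v' ∈ C₁, v <+: v' → v = v') (hC₂ : ∀ v ∈ C₂, ∀ v' ∈ C₂, v <+: v' → v = v')
    (r m n : ℕ) (a a' b b' : List (List G)) (w : ℕ × ℕ → G) (ha : a ∈ words C₁ r)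
    (ha' : a' ∈ words C₁ r) (hb : b ∈ words C₂ m) (hb' : b' ∈ words C₂ (m + n))
    (h : Starts w (a.flatten ++ b.flatten)) (h' : Starts w (a'.flatten ++ b'.flatten)) :
    a = a' ∧ b = b'.take m :=
  STC_parse2 C₁ C₂ hC₁ hC₂ r m n a a' b b'
    (STC_path w (max (a.flatten ++ b.flatten).length (a'.flatten ++ b'.flatten).length))
    ha ha' hb hb' (STC_starts_prefix w h (le_max_left _ _))
    (STC_starts_prefix w h' (le_max_right _ _))

/-! ### Indicators -/

/-- The indicator of the event that the path starts with `v`. -/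
def STC_I {G : Type} (v : List G) : (ℕ × ℕ → G) → ℝ :=
  {w : ℕ × ℕ → G | Starts w v}.indicator (fun _ => (1 : ℝ))

omit [Countable G] [MeasurableSpace G] [DiscreteMeasurableSpace G] in
theorem STC_I_pos {w : ℕ × ℕ → G} {v : List G} (h : Starts w v) : STC_I v w = 1 :=
  Set.indicator_of_mem (show w ∈ {w : ℕ × ℕ → G | Starts w v} from h) _

omit [Countable G] [MeasurableSpace G] [DiscreteMeasurableSpace G] in
theorem STC_I_neg {w : ℕ × ℕ → G} {v : List G} (h : ¬ Starts w v) : STC_I v w = 0 :=
  Set.indicator_of_notMem (show w ∉ {w : ℕ × ℕ → G | Starts w v} from h) _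

omit [Countable G] [MeasurableSpace G] [DiscreteMeasurableSpace G] in
theorem STC_I_nonneg (w : ℕ × ℕ → G) (v : List G) : 0 ≤ STC_I v w :=
  Set.indicator_nonneg (fun _ _ => zero_le_one) _

theorem STC_I_meas (v : List G) : Measurable (STC_I v) :=
  measurable_const.indicator (STC_meas v)

theorem STC_I_int (S : Finset G) (hS : S.Nonempty) (v : List G) :
    Integrable (STC_I v) (stepsLaw S) := by
  have := STC_prob S hS
  exact (integrable_const 1).indicator (STC_meas v)

theorem STC_I_eq (S : Finset G) (hS : S.Nonempty) (v : List G) (hv : ∀ a ∈ v, a ∈ S) :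
    ∫ w, STC_I v w ∂(stepsLaw S) = ((S.card : ℝ)⁻¹) ^ v.length := by
  rw [← STC_real S hS v hv]
  exact integral_indicator_one (STC_meas v)

/-- The contribution of `n` codewords of `C₂` to `Rw`. -/
def STC_X {G K : Type} [Group K] (val : List G → K) (φ : K → ℤ) (C₁ C₂ : Finset (List G))
    (r n : ℕ) (B : ℤ) (h : K) (w : ℕ × ℕ → G) : ℝ :=
  open Classical in ∑ a ∈ words C₁ r, ∑ b ∈ words C₂ n,
    if (a.map val).prod * (b.map val).prod = h ∧ B < φ (b.map val).prod then
      STC_I (a.flatten ++ b.flatten) w else 0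

variable {K : Type} [Group K] (val : List G → K) (φ : K → ℤ) (C₁ C₂ : Finset (List G))

omit [Countable G] [MeasurableSpace G] [DiscreteMeasurableSpace G] in
theorem STC_Rw (r U M : ℕ) (B : ℤ) (w : ℕ × ℕ → G) (h : K) :
    Rw val φ C₁ C₂ r U M B w h = ∑ u ∈ range M, STC_X val φ C₁ C₂ r (U + u) B h w := by
  classical
  unfold Rw STC_X
  refine Finset.sum_congr rfl fun u _ => Finset.sum_congr rfl fun a _ =>
    Finset.sum_congr rfl fun b _ => ?_
  by_cases h1 : Starts w (a.flatten ++ b.flatten)
  · by_cases h2 : (a.map val).prod * (b.map val).prod = h ∧ B < φ (b.map val).prod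
    · rw [if_pos ⟨h1, h2⟩, if_pos h2, STC_I_pos h1]
    · rw [if_neg (fun h3 => h2 h3.2), if_neg h2]
  · rw [if_neg (fun h3 => h1 h3.1), STC_I_neg h1]
    split_ifs <;> rfl

theorem STC_X_meas (r n : ℕ) (B : ℤ) (h : K) : Measurable (STC_X val φ C₁ C₂ r n B h) := by
  classical
  unfold STC_X
  refine Finset.measurable_sum _ fun a _ => Finset.measurable_sum _ fun b _ => ?_
  split_ifs
  · exact STC_I_meas _
  · exact measurable_const

omit [Countable G] [MeasurableSpace G] [DiscreteMeasurableSpace G] in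
theorem STC_X_nonneg (r n : ℕ) (B : ℤ) (h : K) (w : ℕ × ℕ → G) :
    0 ≤ STC_X val φ C₁ C₂ r n B h w := by
  classical
  unfold STC_X
  refine Finset.sum_nonneg fun a _ => Finset.sum_nonneg fun b _ => ?_
  split_ifs
  · exact STC_I_nonneg _ _
  · exact le_rfl

omit [Countable G] [MeasurableSpace G] [DiscreteMeasurableSpace G] in
theorem STC_N (hC₁ : ∀ v ∈ C₁, ∀ v' ∈ C₁, v <+: v' → v = v')
    (hC₂ : ∀ v ∈ C₂, ∀ v' ∈ C₂, v <+: v' → v = v') (r n : ℕ) (w : ℕ × ℕ → G) :
    ∑ a ∈ words C₁ r, ∑ b ∈ words C₂ n, STC_I (a.flatten ++ b.flatten) w ≤ 1 := by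
  classical
  by_cases hex : ∃ a ∈ words C₁ r, ∃ b ∈ words C₂ n, Starts w (a.flatten ++ b.flatten)
  · obtain ⟨a, ha, b, hb, hw⟩ := hex
    have key : ∀ a' ∈ words C₁ r, ∀ b' ∈ words C₂ n, Starts w (a'.flatten ++ b'.flatten) →
        a' = a ∧ b' = b := by
      intro a' ha' b' hb' h'
      have h1 := STC_uniq C₁ C₂ hC₁ hC₂ r n 0 a' a b' b w ha' ha hb' hb h' hw
      refine ⟨h1.1, ?_⟩
      rw [h1.2, List.take_of_length_le]
      exact ((STC_mem_words C₂ n b).1 hb).1.le
    rw [Finset.sum_eq_single a, Finset.sum_eq_single b, STC_I_pos hw]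
    · intro b' hb' hne
      exact STC_I_neg fun h => hne (key a ha b' hb' h).2
    · intro h
      exact absurd hb h
    · intro a' ha' hne
      refine Finset.sum_eq_zero fun b' hb' => ?_
      exact STC_I_neg fun h => hne (key a' ha' b' hb' h).1
    · intro h
      exact absurd ha h
  · push Not at hex
    rw [Finset.sum_eq_zero]
    · norm_num
    · intro a ha
      refine Finset.sum_eq_zero fun b hb => ?_
      exact STC_I_neg (hex a ha b hb)

omit [Group K] in
theorem STC_ite (F : Finset K) (g : K) (P : Prop) (x : ℝ) (hx : 0 ≤ x)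
    [∀ h, Decidable (g = h ∧ P)] : ∑ h ∈ F, (if g = h ∧ P then x else 0) ≤ x := by
  classical
  by_cases hP : P
  · have : ∀ h ∈ F, (if g = h ∧ P then x else 0) = if g = h then x else 0 := by
      intro h _
      by_cases hg : g = h
      · rw [if_pos ⟨hg, hP⟩, if_pos hg]
      · rw [if_neg (fun h3 => hg h3.1), if_neg hg]
    rw [Finset.sum_congr rfl this, Finset.sum_ite_eq]
    split_ifs
    · exact le_rfl
    · exact hx
  · rw [Finset.sum_eq_zero]
    · exact hx
    · intro h _
      rw [if_neg (fun h3 => hP h3.2)]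

omit [Countable G] [MeasurableSpace G] [DiscreteMeasurableSpace G] in
theorem STC_X_sum (hC₁ : ∀ v ∈ C₁, ∀ v' ∈ C₁, v <+: v' → v = v')
    (hC₂ : ∀ v ∈ C₂, ∀ v' ∈ C₂, v <+: v' → v = v') (r n : ℕ) (B : ℤ) (w : ℕ × ℕ → G)
    (F : Finset K) : ∑ h ∈ F, STC_X val φ C₁ C₂ r n B h w ≤ 1 := by
  classical
  refine le_trans ?_ (STC_N C₁ C₂ hC₁ hC₂ r n w)
  unfold STC_X
  rw [Finset.sum_comm]
  refine Finset.sum_le_sum fun a _ => ?_
  rw [Finset.sum_comm]
  refine Finset.sum_le_sum fun b _ => ?_
  exact STC_ite F _ _ _ (STC_I_nonneg _ _)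

omit [Countable G] [MeasurableSpace G] [DiscreteMeasurableSpace G] in
theorem STC_X_le (hC₁ : ∀ v ∈ C₁, ∀ v' ∈ C₁, v <+: v' → v = v')
    (hC₂ : ∀ v ∈ C₂, ∀ v' ∈ C₂, v <+: v' → v = v') (r n : ℕ) (B : ℤ) (h : K) (w : ℕ × ℕ → G) :
    STC_X val φ C₁ C₂ r n B h w ≤ 1 := by
  have := STC_X_sum val φ C₁ C₂ hC₁ hC₂ r n B w {h}
  rwa [Finset.sum_singleton] at this

/-! ### Expectations -/

omit [Group K] in
theorem STC_cut_coeff (B : ℤ) (f : MonoidAlgebra ℝ K) (g : K) [Decidable (B < φ g)] :
    (cut φ B f).coeff g = if B < φ g then f.coeff g else 0 := by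
  unfold cut
  rw [MonoidAlgebra.coeff_ofCoeff, Finsupp.filter_apply]
  split_ifs <;> rfl

omit [Group K] in
theorem STC_cut_sum {ι : Type} (B : ℤ) (s : Finset ι) (f : ι → MonoidAlgebra ℝ K) :
    cut φ B (∑ i ∈ s, f i) = ∑ i ∈ s, cut φ B (f i) := by
  classical
  ext g
  rw [STC_cut_coeff, MonoidAlgebra.coeff_sum, Finsupp.finsetSum_apply, MonoidAlgebra.coeff_sum,
    Finsupp.finsetSum_apply]
  by_cases h : B < φ g
  · rw [if_pos h]
    refine Finset.sum_congr rfl fun i _ => ?_
    rw [STC_cut_coeff, if_pos h]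
  · rw [if_neg h]
    symm
    refine Finset.sum_eq_zero fun i _ => ?_
    rw [STC_cut_coeff, if_neg h]

theorem STC_cut_single (B : ℤ) (g : K) (x : ℝ) [Decidable (B < φ g)] :
    cut φ B (MonoidAlgebra.single g x) = if B < φ g then MonoidAlgebra.single g x else 0 := by
  classical
  ext g'
  rw [STC_cut_coeff]
  by_cases h : g = g'
  · subst h
    split_ifs <;> rfl
  · have h1 : (MonoidAlgebra.single g x).coeff g' = 0 := by
      rw [MonoidAlgebra.coeff_single, Finsupp.single_apply, if_neg h]
    rw [h1]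
    by_cases h2 : B < φ g
    · rw [if_pos h2, h1]
      split_ifs <;> rfl
    · rw [if_neg h2]
      split_ifs <;> rfl

omit [Countable G] [MeasurableSpace G] [DiscreteMeasurableSpace G] in
theorem STC_letters (S : Finset G) (C : Finset (List G))
    (hC : ∀ v ∈ C, v ≠ [] ∧ ∀ a ∈ v, a ∈ S) (n : ℕ) (a : List (List G)) (ha : a ∈ words C n) :
    ∀ x ∈ a.flatten, x ∈ S := by
  intro x hx
  obtain ⟨v, hv, hx⟩ := List.mem_flatten.1 hx
  exact (hC v (((STC_mem_words C n a).1 ha).2 v hv)).2 x hx

theorem STC_X_int (S : Finset G) (hS : S.Nonempty) (r n : ℕ) (B : ℤ) (h : K) :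
    Integrable (STC_X val φ C₁ C₂ r n B h) (stepsLaw S) := by
  classical
  unfold STC_X
  refine integrable_finset_sum _ fun a _ => integrable_finset_sum _ fun b _ => ?_
  split_ifs
  · exact STC_I_int S hS _
  · exact integrable_zero _ _ _

theorem STC_X_integral (S : Finset G) (hS : S.Nonempty)
    (h₁ : ∀ v ∈ C₁, v ≠ [] ∧ ∀ a ∈ v, a ∈ S) (h₂ : ∀ v ∈ C₂, v ≠ [] ∧ ∀ a ∈ v, a ∈ S)
    (r n : ℕ) (B : ℤ) (h : K) :
    ∫ w, STC_X val φ C₁ C₂ r n B h w ∂(stepsLaw S) =
      (codeM (S.card : ℝ)⁻¹ val C₁ ^ r * cut φ B (codeM (S.card : ℝ)⁻¹ val C₂ ^ n)).coeff h := by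
  classical
  have hi : ∀ (a b : List (List G)), Integrable (fun w : ℕ × ℕ → G =>
      if (a.map val).prod * (b.map val).prod = h ∧ B < φ (b.map val).prod then
      STC_I (a.flatten ++ b.flatten) w else 0) (stepsLaw S) := by
    intro a b
    split_ifs
    · exact STC_I_int S hS _
    · exact integrable_zero _ _ _
  rw [STC_pow, STC_pow, STC_cut_sum, Finset.sum_mul_sum, MonoidAlgebra.coeff_sum,
    Finsupp.finsetSum_apply]
  unfold STC_X
  rw [integral_finset_sum _ fun a _ => integrable_finset_sum _ fun b _ => hi a b]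
  refine Finset.sum_congr rfl fun a ha => ?_
  rw [integral_finset_sum _ fun b _ => hi a b, MonoidAlgebra.coeff_sum, Finsupp.finsetSum_apply]
  refine Finset.sum_congr rfl fun b hb => ?_
  rw [STC_cut_single]
  by_cases hB : B < φ (b.map val).prod
  · rw [if_pos hB, MonoidAlgebra.single_mul_single, MonoidAlgebra.coeff_single,
      Finsupp.single_apply]
    by_cases hh : (a.map val).prod * (b.map val).prod = h
    · rw [if_pos hh]
      simp only [hh, hB, and_self, if_true]
      rw [STC_I_eq S hS, List.length_append, pow_add]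
      intro x hx
      rcases List.mem_append.1 hx with hx | hx
      · exact STC_letters S C₁ h₁ r a ha x hx
      · exact STC_letters S C₂ h₂ n b hb x hx
    · rw [if_neg hh]
      simp only [hh, false_and, if_false]
      exact integral_zero _ _
  · rw [if_neg hB, mul_zero]
    simp only [hB, and_false, if_false]
    rw [integral_zero]
    rfl

theorem STC_mass (S : Finset G) (hS : S.Nonempty) (C : Finset (List G))
    (h₁ : ∀ v ∈ C, v ≠ [] ∧ ∀ a ∈ v, a ∈ S) (hC : ∀ v ∈ C, ∀ v' ∈ C, v <+: v' → v = v') (n : ℕ) :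
    ∑ a ∈ words C n, ((S.card : ℝ)⁻¹) ^ a.flatten.length ≤ 1 := by
  classical
  have := STC_prob S hS
  have e : ∑ a ∈ words C n, ((S.card : ℝ)⁻¹) ^ a.flatten.length =
      ∫ w, ∑ a ∈ words C n, STC_I a.flatten w ∂(stepsLaw S) := by
    rw [integral_finset_sum _ fun a _ => STC_I_int S hS _]
    refine Finset.sum_congr rfl fun a ha => ?_
    rw [STC_I_eq S hS _ (STC_letters S C h₁ n a ha)]
  rw [e]
  have hle : ∀ w : ℕ × ℕ → G, ∑ a ∈ words C n, STC_I a.flatten w ≤ 1 := by
    intro w
    have h1 := STC_N (∅ : Finset (List G)) C (by simp) hC 0 n w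
    simpa [words] using h1
  calc ∫ w, ∑ a ∈ words C n, STC_I a.flatten w ∂(stepsLaw S)
      ≤ ∫ w, (1 : ℝ) ∂(stepsLaw S) :=
        integral_mono (integrable_finset_sum _ fun a _ => STC_I_int S hS _) (integrable_const 1) hle
    _ = 1 := by simp

/-- The event that the parse exists and the last `n` codewords have value `1`. -/
def STC_D {G K : Type} [Group K] (val : List G → K) (C₁ C₂ : Finset (List G))
    (r m n : ℕ) (w : ℕ × ℕ → G) : ℝ :=
  open Classical in ∑ a ∈ words C₁ r, ∑ b ∈ words C₂ m, ∑ d ∈ words C₂ n,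
    if (d.map val).prod = 1 then STC_I (a.flatten ++ (b.flatten ++ d.flatten)) w else 0

omit [Countable G] [MeasurableSpace G] [DiscreteMeasurableSpace G] in
theorem STC_D_nonneg (r m n : ℕ) (w : ℕ × ℕ → G) : 0 ≤ STC_D val C₁ C₂ r m n w := by
  classical
  unfold STC_D
  refine Finset.sum_nonneg fun a _ => Finset.sum_nonneg fun b _ => Finset.sum_nonneg fun d _ => ?_
  split_ifs
  · exact STC_I_nonneg _ _
  · exact le_rfl

theorem STC_D_int (S : Finset G) (hS : S.Nonempty) (r m n : ℕ) :
    Integrable (STC_D val C₁ C₂ r m n) (stepsLaw S) := by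
  classical
  unfold STC_D
  refine integrable_finset_sum _ fun a _ => integrable_finset_sum _ fun b _ =>
    integrable_finset_sum _ fun d _ => ?_
  split_ifs
  · exact STC_I_int S hS _
  · exact integrable_zero _ _ _

theorem STC_coeff_nonneg (S : Finset G) (n : ℕ) (h : K) :
    0 ≤ (codeM (S.card : ℝ)⁻¹ val C₂ ^ n).coeff h := by
  classical
  rw [STC_coeff_one]
  refine Finset.sum_nonneg fun d _ => ?_
  split_ifs <;> positivity

theorem STC_D_le (S : Finset G) (hS : S.Nonempty)
    (h₁ : ∀ v ∈ C₁, v ≠ [] ∧ ∀ a ∈ v, a ∈ S) (h₂ : ∀ v ∈ C₂, v ≠ [] ∧ ∀ a ∈ v, a ∈ S)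
    (hC₁ : ∀ v ∈ C₁, ∀ v' ∈ C₁, v <+: v' → v = v')
    (hC₂ : ∀ v ∈ C₂, ∀ v' ∈ C₂, v <+: v' → v = v') (r m n : ℕ) :
    ∫ w, STC_D val C₁ C₂ r m n w ∂(stepsLaw S) ≤ (codeM (S.card : ℝ)⁻¹ val C₂ ^ n).coeff 1 := by
  classical
  have hi : ∀ (a b d : List (List G)), Integrable (fun w : ℕ × ℕ → G =>
      if (d.map val).prod = 1 then
      STC_I (a.flatten ++ (b.flatten ++ d.flatten)) w else 0) (stepsLaw S) := by
    intro a b d
    split_ifs
    · exact STC_I_int S hS _
    · exact integrable_zero _ _ _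
  set c : ℝ := (S.card : ℝ)⁻¹ with hc
  have hc0 : 0 ≤ c := by positivity
  have e : ∫ w, STC_D val C₁ C₂ r m n w ∂(stepsLaw S) =
      (∑ a ∈ words C₁ r, c ^ a.flatten.length) * ((∑ b ∈ words C₂ m, c ^ b.flatten.length) *
        ∑ d ∈ words C₂ n, if (d.map val).prod = 1 then c ^ d.flatten.length else 0) := by
    unfold STC_D
    rw [integral_finset_sum _ fun a _ => integrable_finset_sum _ fun b _ =>
      integrable_finset_sum _ fun d _ => hi a b d, Finset.sum_mul]
    refine Finset.sum_congr rfl fun a ha => ?_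
    rw [integral_finset_sum _ fun b _ => integrable_finset_sum _ fun d _ => hi a b d,
      Finset.sum_mul, Finset.mul_sum]
    refine Finset.sum_congr rfl fun b hb => ?_
    rw [integral_finset_sum _ fun d _ => hi a b d, Finset.mul_sum, Finset.mul_sum]
    refine Finset.sum_congr rfl fun d hd => ?_
    by_cases h : (d.map val).prod = 1
    · simp only [h, if_true]
      rw [STC_I_eq S hS, List.length_append, List.length_append, pow_add, pow_add]
      intro x hx
      rcases List.mem_append.1 hx with hx | hx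
      · exact STC_letters S C₁ h₁ r a ha x hx
      · rcases List.mem_append.1 hx with hx | hx
        · exact STC_letters S C₂ h₂ m b hb x hx
        · exact STC_letters S C₂ h₂ n d hd x hx
    · simp only [h, if_false]
      rw [integral_zero, mul_zero, mul_zero]
  rw [e, STC_coeff_one c val C₂ n 1]
  have m1 := STC_mass S hS C₁ h₁ hC₁ r
  have m2 := STC_mass S hS C₂ h₂ hC₂ m
  have n1 : 0 ≤ ∑ a ∈ words C₁ r, c ^ a.flatten.length :=
    Finset.sum_nonneg fun _ _ => pow_nonneg hc0 _
  have n2 : 0 ≤ ∑ a ∈ words C₂ m, c ^ a.flatten.length :=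
    Finset.sum_nonneg fun _ _ => pow_nonneg hc0 _
  have n3 : 0 ≤ ∑ d ∈ words C₂ n, (if (d.map val).prod = 1 then c ^ d.flatten.length else 0) := by
    refine Finset.sum_nonneg fun d _ => ?_
    split_ifs
    · exact pow_nonneg hc0 _
    · exact le_rfl
  calc _ ≤ 1 * (1 * ∑ d ∈ words C₂ n, (if (d.map val).prod = 1 then c ^ d.flatten.length else 0)) := by
        gcongr
    _ = _ := by rw [one_mul, one_mul]

theorem STC_single {α : Type} (s t v : Finset α) (T : α → α → α → ℝ) (hT : ∀ a b d, 0 ≤ T a b d)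
    (a b d : α) (ha : a ∈ s) (hb : b ∈ t) (hd : d ∈ v) :
    T a b d ≤ ∑ a ∈ s, ∑ b ∈ t, ∑ d ∈ v, T a b d := by
  have h1 : T a b d ≤ ∑ d ∈ v, T a b d := Finset.single_le_sum (fun d _ => hT a b d) hd
  have h2 : ∑ d ∈ v, T a b d ≤ ∑ b ∈ t, ∑ d ∈ v, T a b d :=
    Finset.single_le_sum (f := fun b => ∑ d ∈ v, T a b d)
      (fun b _ => Finset.sum_nonneg fun d _ => hT a b d) hb
  have h3 : ∑ b ∈ t, ∑ d ∈ v, T a b d ≤ ∑ a ∈ s, ∑ b ∈ t, ∑ d ∈ v, T a b d :=
    Finset.single_le_sum (f := fun a => ∑ b ∈ t, ∑ d ∈ v, T a b d)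
      (fun a _ => Finset.sum_nonneg fun b _ => Finset.sum_nonneg fun d _ => hT a b d) ha
  exact h1.trans (h2.trans h3)

omit [Countable G] [MeasurableSpace G] [DiscreteMeasurableSpace G] in
theorem STC_D_one (r m n : ℕ) (w : ℕ × ℕ → G) (a b d : List (List G)) (ha : a ∈ words C₁ r)
    (hb : b ∈ words C₂ m) (hd : d ∈ words C₂ n) (hval : (d.map val).prod = 1)
    (hw : Starts w (a.flatten ++ (b.flatten ++ d.flatten))) : 1 ≤ STC_D val C₁ C₂ r m n w := by
  classical
  have h := STC_single (words C₁ r) (words C₂ m) (words C₂ n)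
    (fun a b d => if (d.map val).prod = 1 then STC_I (a.flatten ++ (b.flatten ++ d.flatten)) w
      else 0) (fun a b d => by
        show (0 : ℝ) ≤ if (d.map val).prod = 1 then STC_I (a.flatten ++ (b.flatten ++ d.flatten)) w
          else 0
        split_ifs
        · exact STC_I_nonneg _ _
        · exact le_rfl) a b d ha hb hd
  simp only [hval, if_true] at h
  rw [STC_I_pos hw] at h
  unfold STC_D
  exact h

omit [Countable G] [MeasurableSpace G] [DiscreteMeasurableSpace G] in
theorem STC_Z (hC₁ : ∀ v ∈ C₁, ∀ v' ∈ C₁, v <+: v' → v = v')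
    (hC₂ : ∀ v ∈ C₂, ∀ v' ∈ C₂, v <+: v' → v = v') (r m n : ℕ) (B : ℤ) (w : ℕ × ℕ → G)
    (F : Finset K) :
    ∑ h ∈ F, STC_X val φ C₁ C₂ r m B h w * STC_X val φ C₁ C₂ r (m + n) B h w ≤
      STC_D val C₁ C₂ r m n w := by
  classical
  by_cases hex : ∃ a ∈ words C₁ r, ∃ b ∈ words C₂ m, ∃ d ∈ words C₂ n, (d.map val).prod = 1 ∧
      Starts w (a.flatten ++ (b.flatten ++ d.flatten))
  · obtain ⟨a, ha, b, hb, d, hd, hval, hw⟩ := hex
    have hD : 1 ≤ STC_D val C₁ C₂ r m n w :=
      STC_D_one val C₁ C₂ r m n w a b d ha hb hd hval hw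
    refine le_trans (le_trans (Finset.sum_le_sum fun h _ => ?_)
      (STC_X_sum val φ C₁ C₂ hC₁ hC₂ r m B w F)) hD
    have h1 := STC_X_le val φ C₁ C₂ hC₁ hC₂ r (m + n) B h w
    have h2 := STC_X_nonneg val φ C₁ C₂ r m B h w
    nlinarith
  · refine le_trans (le_of_eq ?_) (STC_D_nonneg val C₁ C₂ r m n w)
    refine Finset.sum_eq_zero fun h _ => ?_
    by_contra hne
    have hx := left_ne_zero_of_mul hne
    have hy := right_ne_zero_of_mul hne
    unfold STC_X at hx hy
    obtain ⟨a, ha, hx⟩ := Finset.exists_ne_zero_of_sum_ne_zero hx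
    obtain ⟨b, hb, hx⟩ := Finset.exists_ne_zero_of_sum_ne_zero hx
    obtain ⟨a', ha', hy⟩ := Finset.exists_ne_zero_of_sum_ne_zero hy
    obtain ⟨b', hb', hy⟩ := Finset.exists_ne_zero_of_sum_ne_zero hy
    have x1 : (a.map val).prod * (b.map val).prod = h ∧ B < φ (b.map val).prod := by
      by_contra hc
      exact hx (if_neg hc)
    have y1 : (a'.map val).prod * (b'.map val).prod = h ∧ B < φ (b'.map val).prod := by
      by_contra hc
      exact hy (if_neg hc)
    rw [if_pos x1] at hx
    rw [if_pos y1] at hy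
    have x2 : Starts w (a.flatten ++ b.flatten) := by
      by_contra hc
      exact hx (STC_I_neg hc)
    have y2 : Starts w (a'.flatten ++ b'.flatten) := by
      by_contra hc
      exact hy (STC_I_neg hc)
    obtain ⟨rfl, hbt⟩ := STC_uniq C₁ C₂ hC₁ hC₂ r m n a a' b b' w ha ha' hb hb' x2 y2
    apply hex
    refine ⟨a, ha, b, hb, b'.drop m, (STC_take C₂ m n b' hb').2, ?_, ?_⟩
    · have h3 : (b'.map val).prod = (b.map val).prod * ((b'.drop m).map val).prod := by
        rw [← List.prod_append, ← List.map_append, hbt, List.take_append_drop]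
      have h4 : (a.map val).prod * (b'.map val).prod = (a.map val).prod * (b.map val).prod := by
        rw [y1.1, x1.1]
      have h5 := mul_left_cancel h4
      rw [h3] at h5
      exact mul_eq_left.1 h5
    · rw [hbt, ← List.flatten_append, List.take_append_drop]
      exact y2

end STC

theorem stc : S_STC := by
  intro G _ _ _ S K _ val φ C₁ C₂ r U M B hS h₁ h₂ hC₁ hC₂
  classical
  have := STC_prob S hS
  refine ⟨⟨?_, ?_, ?_⟩, ?_, ?_⟩
  · intro h
    simp_rw [STC_Rw]
    exact Finset.measurable_sum _ fun u _ => STC_X_meas val φ C₁ C₂ r (U + u) B h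
  · intro w h
    rw [STC_Rw]
    exact Finset.sum_nonneg fun u _ => STC_X_nonneg val φ C₁ C₂ r (U + u) B h w
  · intro w F
    simp_rw [STC_Rw]
    rw [Finset.sum_comm]
    calc ∑ u ∈ range M, ∑ h ∈ F, STC_X val φ C₁ C₂ r (U + u) B h w
        ≤ ∑ u ∈ range M, (1 : ℝ) :=
          Finset.sum_le_sum fun u _ => STC_X_sum val φ C₁ C₂ hC₁ hC₂ r (U + u) B w F
      _ = M := by simp
  · intro h
    simp_rw [STC_Rw]
    rw [integral_finset_sum _ fun u _ => STC_X_int val φ C₁ C₂ S hS r (U + u) B h, Finset.mul_sum,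
      MonoidAlgebra.coeff_sum, Finsupp.finsetSum_apply]
    exact Finset.sum_congr rfl fun u _ => STC_X_integral val φ C₁ C₂ S hS h₁ h₂ r (U + u) B h
  · intro F
    have hb : ∀ (n n' : ℕ) (h : K), Integrable (fun w => STC_X val φ C₁ C₂ r n B h w *
        STC_X val φ C₁ C₂ r n' B h w) (stepsLaw S) := by
      intro n n' h
      refine (STC_X_int val φ C₁ C₂ S hS r n' B h).bdd_mul
        (STC_X_meas val φ C₁ C₂ r n B h).aestronglyMeasurable (c := 1) ?_
      refine Filter.Eventually.of_forall fun w => ?_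
      rw [Real.norm_eq_abs, abs_of_nonneg (STC_X_nonneg val φ C₁ C₂ r n B h w)]
      exact STC_X_le val φ C₁ C₂ hC₁ hC₂ r n B h w
    have hint : ∀ h, Integrable (fun w => (Rw val φ C₁ C₂ r U M B w h) ^ 2) (stepsLaw S) := by
      intro h
      simp_rw [STC_Rw, sq, Finset.sum_mul_sum]
      exact integrable_finset_sum _ fun u _ => integrable_finset_sum _ fun u' _ => hb _ _ h
    rw [← integral_finset_sum _ fun h _ => hint h]
    have hpt : ∀ w : ℕ × ℕ → G, ∑ h ∈ F, (Rw val φ C₁ C₂ r U M B w h) ^ 2 ≤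
        ∑ u ∈ range M, ∑ u' ∈ range M, STC_D val C₁ C₂ r (U + min u u') (max u u' - min u u') w := by
      intro w
      have e : ∑ h ∈ F, (Rw val φ C₁ C₂ r U M B w h) ^ 2 = ∑ u ∈ range M, ∑ u' ∈ range M, ∑ h ∈ F,
          STC_X val φ C₁ C₂ r (U + u) B h w * STC_X val φ C₁ C₂ r (U + u') B h w := by
        simp_rw [STC_Rw, sq, Finset.sum_mul_sum]
        rw [Finset.sum_comm]
        refine Finset.sum_congr rfl fun u _ => ?_
        rw [Finset.sum_comm]
      rw [e]
      refine Finset.sum_le_sum fun u _ => Finset.sum_le_sum fun u' _ => ?_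
      rcases le_total u u' with h | h
      · rw [min_eq_left h, max_eq_right h]
        have h1 := STC_Z val φ C₁ C₂ hC₁ hC₂ r (U + u) (u' - u) B w F
        rwa [show U + u + (u' - u) = U + u' by omega] at h1
      · rw [min_eq_right h, max_eq_left h]
        have h1 := STC_Z val φ C₁ C₂ hC₁ hC₂ r (U + u') (u - u') B w F
        rw [show U + u' + (u - u') = U + u by omega] at h1
        refine le_trans (le_of_eq (Finset.sum_congr rfl fun h _ => ?_)) h1
        exact mul_comm _ _
    set cc : ℕ → ℝ := fun j => (codeM (S.card : ℝ)⁻¹ val C₂ ^ j).coeff 1 with hcc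
    have hc0 : ∀ j, 0 ≤ cc j := fun j => STC_coeff_nonneg val C₂ S j 1
    have hrow : ∀ u ∈ range M, ∑ u' ∈ range M, cc (max u u' - min u u') ≤
        1 + 2 * ∑ j ∈ Ico 1 M, cc j := by
      intro u hu
      rw [Finset.mem_range] at hu
      have e : ∀ u' ∈ range M, cc (max u u' - min u u') =
          if u' < u then cc (u - u') else cc (u' - u) := by
        intro u' _
        by_cases h : u' < u
        · rw [if_pos h, max_eq_left h.le, min_eq_right h.le]
        · rw [if_neg h, max_eq_right (not_lt.1 h), min_eq_left (not_lt.1 h)]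
      rw [Finset.sum_congr rfl e, Finset.sum_ite]
      have h1 : ∑ x ∈ (range M).filter (fun x => x < u), cc (u - x) ≤ ∑ j ∈ Ico 1 M, cc j := by
        have hi : ∑ x ∈ (range M).filter (fun x => x < u), cc (u - x) =
            ∑ j ∈ ((range M).filter (fun x => x < u)).image (fun x => u - x), cc j := by
          rw [Finset.sum_image]
          intro x hx y hy hxy
          simp only [Finset.coe_filter, Finset.mem_range, Set.mem_ofPred_eq] at hx hy
          simp only at hxy
          omega
        rw [hi]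
        apply Finset.sum_le_sum_of_subset_of_nonneg
        · intro j hj
          obtain ⟨x, hx, rfl⟩ := Finset.mem_image.1 hj
          simp only [Finset.mem_filter, Finset.mem_range] at hx
          rw [Finset.mem_Ico]
          omega
        · intro j _ _
          exact hc0 j
      have h2 : ∑ x ∈ (range M).filter (fun x => ¬ x < u), cc (x - u) ≤
          1 + ∑ j ∈ Ico 1 M, cc j := by
        have hi : ∑ x ∈ (range M).filter (fun x => ¬ x < u), cc (x - u) =
            ∑ j ∈ ((range M).filter (fun x => ¬ x < u)).image (fun x => x - u), cc j := by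
          rw [Finset.sum_image]
          intro x hx y hy hxy
          simp only [Finset.coe_filter, Finset.mem_range, Set.mem_ofPred_eq] at hx hy
          simp only at hxy
          omega
        rw [hi]
        have h3 : 1 + ∑ j ∈ Ico 1 M, cc j = ∑ j ∈ range M, cc j := by
          rw [Finset.range_eq_Ico, Finset.sum_eq_sum_Ico_succ_bot (by omega : 0 < M)]
          congr 1
          rw [hcc]
          simp only
          rw [pow_zero, MonoidAlgebra.coeff_one_one]
        rw [h3]
        apply Finset.sum_le_sum_of_subset_of_nonneg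
        · intro j hj
          obtain ⟨x, hx, rfl⟩ := Finset.mem_image.1 hj
          simp only [Finset.mem_filter, Finset.mem_range] at hx
          rw [Finset.mem_range]
          omega
        · intro j _ _
          exact hc0 j
      linarith
    calc ∫ w, ∑ h ∈ F, (Rw val φ C₁ C₂ r U M B w h) ^ 2 ∂(stepsLaw S)
        ≤ ∫ w, ∑ u ∈ range M, ∑ u' ∈ range M,
            STC_D val C₁ C₂ r (U + min u u') (max u u' - min u u') w ∂(stepsLaw S) :=
          integral_mono (integrable_finset_sum _ fun h _ => hint h)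
            (integrable_finset_sum _ fun u _ => integrable_finset_sum _ fun u' _ =>
              STC_D_int val C₁ C₂ S hS _ _ _) hpt
      _ = ∑ u ∈ range M, ∑ u' ∈ range M,
            ∫ w, STC_D val C₁ C₂ r (U + min u u') (max u u' - min u u') w ∂(stepsLaw S) := by
          rw [integral_finset_sum _ fun u _ => integrable_finset_sum _ fun u' _ =>
            STC_D_int val C₁ C₂ S hS _ _ _]
          refine Finset.sum_congr rfl fun u _ => ?_
          rw [integral_finset_sum _ fun u' _ => STC_D_int val C₁ C₂ S hS _ _ _]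
      _ ≤ ∑ u ∈ range M, ∑ u' ∈ range M, cc (max u u' - min u u') :=
          Finset.sum_le_sum fun u _ => Finset.sum_le_sum fun u' _ =>
            STC_D_le val C₁ C₂ S hS h₁ h₂ hC₁ hC₂ r _ _
      _ ≤ ∑ u ∈ range M, (1 + 2 * ∑ j ∈ Ico 1 M, cc j) := Finset.sum_le_sum hrow
      _ = M * (1 + 2 * ∑ j ∈ Ico 1 M, cc j) := by
          rw [Finset.sum_const, Finset.card_range, nsmul_eq_mul]

end

end K9h87.FD
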