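import Pool.Agent.K9h87.FD.Basic

set_option autoImplicit false

open MeasureTheory ProbabilityTheory Finset Filter Topology MonoidAlgebra
open scoped NNReal ENNReal

namespace K9h87.FD

noncomputable section

lemma sum_inv_sq_le (n : ℕ) : ∑ k ∈ Icc 1 n, (1 : ℝ) / (k : ℝ) ^ 2 ≤ 2 := by
  have h : ∀ n : ℕ, 1 ≤ n → ∑ k ∈ Icc 1 n, (1 : ℝ) / (k : ℝ) ^ 2 ≤ 2 - 1 / n := by
    intro n hn
    induction n, hn using Nat.le_induction with
    | base => norm_num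
    | succ n hn ih =>
      rw [Finset.sum_Icc_succ_top (by omega)]
      have hn0 : (0 : ℝ) < n := by exact_mod_cast hn
      have h1 : (1 : ℝ) / ((n + 1 : ℕ) : ℝ) ^ 2 ≤ 1 / n - 1 / ((n + 1 : ℕ) : ℝ) := by
        push_cast
        rw [div_sub_div _ _ hn0.ne' (by positivity), div_le_div_iff₀ (by positivity) (by positivity)]
        nlinarith
      linarith
  rcases Nat.eq_zero_or_pos n with rfl | hn
  · simp
  · have h1 := h n hn
    have h2 : (0 : ℝ) ≤ 1 / n := by positivity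
    linarith

theorem sum : S_SUM := by
  intro G _ σ ν hσ hν c₂ hc₂ hnash r hr n
  -- v f = (√√(ip f f))⁻¹
  have hvpos : ∀ f : MonoidAlgebra ℝ G, IsProb f → 0 < √√(ip f f) := fun f hf =>
    Real.sqrt_pos.2 (Real.sqrt_pos.2 hf.ip_pos)
  have hstep : ∀ (j : ℕ) (f : MonoidAlgebra ℝ G), IsProb f →
      (√√(ip f f))⁻¹ + c₂ * j ≤ (√√(ip (f * σ ^ j) (f * σ ^ j)))⁻¹ := by
    intro j
    induction j with
    | zero => intro f _; simp
    | succ j ih =>
      intro f hf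
      have h1 := ih f hf
      have h2 := hnash (f * σ ^ j) (hf.mul (hσ.pow j))
      rw [mul_assoc, ← pow_succ] at h2
      push_cast
      linarith
  have hν' : ∀ f : MonoidAlgebra ℝ G, IsProb f →
      (√√(ip f f))⁻¹ ≤ (√√(ip (f * ν) (f * ν)))⁻¹ := by
    intro f hf
    exact inv_anti₀ (hvpos _ (hf.mul hν)) (Real.sqrt_le_sqrt (norm_mul_prob hν f))
  have hmu : IsProb (σ ^ r * ν) := (hσ.pow r).mul hν
  have hk : ∀ k : ℕ, c₂ * r * k ≤ (√√(ip ((σ ^ r * ν) ^ k) ((σ ^ r * ν) ^ k)))⁻¹ := by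
    intro k
    induction k with
    | zero => simp
    | succ k ih =>
      have h1 := hstep r ((σ ^ r * ν) ^ k) (hmu.pow k)
      have h2 := hν' ((σ ^ r * ν) ^ k * σ ^ r) ((hmu.pow k).mul (hσ.pow r))
      rw [mul_assoc, ← pow_succ] at h2
      push_cast
      linarith
  have hr0 : (0 : ℝ) < r := by exact_mod_cast hr
  have hbound : ∀ k ∈ Icc 1 n, √(ip ((σ ^ r * ν) ^ k) ((σ ^ r * ν) ^ k))
      ≤ (1 / (c₂ * r) ^ 2) * (1 / (k : ℝ) ^ 2) := by
    intro k hkm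
    have hk1 : 1 ≤ k := (Finset.mem_Icc.1 hkm).1
    have hk0 : (0 : ℝ) < k := by exact_mod_cast hk1
    have h1 := hk k
    have hp := hvpos _ (hmu.pow k)
    set s := √(ip ((σ ^ r * ν) ^ k) ((σ ^ r * ν) ^ k)) with hs
    have hs0 : 0 ≤ s := Real.sqrt_nonneg _
    have h2 : c₂ * r * k * √s ≤ 1 := by
      have := mul_le_mul_of_nonneg_right h1 hp.le
      rwa [inv_mul_cancel₀ hp.ne'] at this
    have h3 : √s ^ 2 = s := Real.sq_sqrt hs0
    have h4 : (c₂ * r * k * √s) ^ 2 ≤ 1 := by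
      have h5 : 0 ≤ c₂ * r * k * √s := by positivity
      nlinarith
    have h5 : (c₂ * r) ^ 2 * (k : ℝ) ^ 2 * s ≤ 1 := by
      calc (c₂ * r) ^ 2 * (k : ℝ) ^ 2 * s = (c₂ * r * k * √s) ^ 2 := by
            rw [← h3]; ring_nf; rw [show √(√s ^ 2) = √s by rw [h3]]
        _ ≤ 1 := h4
    rw [div_mul_div_comm, one_mul, le_div_iff₀ (by positivity)]
    linarith
  refine (Finset.sum_le_sum hbound).trans ?_
  rw [← Finset.mul_sum]
  have h6 := sum_inv_sq_le n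
  have h7 : (0 : ℝ) ≤ 1 / (c₂ * r) ^ 2 := by positivity
  calc 1 / (c₂ * r) ^ 2 * ∑ k ∈ Icc 1 n, (1 : ℝ) / (k : ℝ) ^ 2 ≤ 1 / (c₂ * r) ^ 2 * 2 :=
        mul_le_mul_of_nonneg_left h6 h7
    _ = 2 / (c₂ * r) ^ 2 := by ring

end

end K9h87.FD
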