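import Pool.Agent.K9h87.FD.Stm2

/-! Leaf SYMR (helper24, for helper87). -/

set_option autoImplicit false

open MeasureTheory ProbabilityTheory Finset Filter Topology

namespace K9h87.FD

noncomputable section

namespace SymrLeaf

theorem mem_words {α : Type} (S : Finset α) (n : ℕ) (v : List α) :
    v ∈ words S n ↔ v.length = n ∧ ∀ a ∈ v, a ∈ S := by
  classical
  induction n generalizing v with
  | zero =>
    simp only [words, Finset.mem_singleton, List.length_eq_zero_iff]
    constructor
    · rintro rfl; simp
    · exact fun h => h.1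
  | succ n ih =>
    simp only [words, Finset.mem_image, Finset.mem_product, Prod.exists]
    constructor
    · rintro ⟨a, b, ⟨ha, hb⟩, rfl⟩
      obtain ⟨h1, h2⟩ := (ih b).1 hb
      refine ⟨by simp [h1], fun x hx => ?_⟩
      rcases List.mem_cons.1 hx with rfl | hx
      · exact ha
      · exact h2 x hx
    · rintro ⟨h1, h2⟩
      cases v with
      | nil => simp at h1
      | cons a b =>
        refine ⟨a, b, ⟨h2 a (by simp), (ih b).2 ⟨by simpa using h1, fun x hx => h2 x (by simp [hx])⟩⟩,
          rfl⟩

variable {G : Type} [Group G]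

theorem mem_ret (S : Finset G) (H : Subgroup G) (L : ℕ) (v : List G) :
    v ∈ ret S H L ↔ v.length ≤ L ∧ (∀ a ∈ v, a ∈ S) ∧ IsRet H v := by
  classical
  simp only [ret, Finset.mem_biUnion, Finset.mem_range, Finset.mem_filter, mem_words]
  constructor
  · rintro ⟨n, h1, ⟨h2, h3⟩, h4⟩
    exact ⟨by omega, h3, h4⟩
  · rintro ⟨h1, h2, h3⟩
    exact ⟨v.length, by omega, ⟨rfl, h2⟩, h3⟩

/-- the inverse word -/
def rv (v : List G) : List G := (v.map (fun x => x⁻¹)).reverse

theorem rv_rv (v : List G) : rv (rv v) = v := by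
  unfold rv
  rw [List.map_reverse, List.reverse_reverse, List.map_map]
  conv_rhs => rw [← List.map_id v]
  apply List.map_congr_left
  intro a _
  simp

theorem rv_length (v : List G) : (rv v).length = v.length := by simp [rv]

theorem rv_prod (v : List G) : (rv v).prod = v.prod⁻¹ := (List.prod_inv_reverse v).symm

theorem rv_take (v : List G) (k : ℕ) : (rv v).take k = rv (v.drop (v.length - k)) := by
  unfold rv
  rw [List.take_reverse, List.length_map, List.map_drop]

theorem isRet_rv (H : Subgroup G) (v : List G) (h : IsRet H v) : IsRet H (rv v) := by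
  obtain ⟨h1, h2, h3⟩ := h
  refine ⟨?_, ?_, ?_⟩
  · intro hn
    apply h1
    have : (rv v).length = 0 := by rw [hn]; rfl
    rw [rv_length] at this
    exact List.length_eq_zero_iff.1 this
  · rw [rv_prod]; exact H.inv_mem h2
  · intro k hk1 hk2 hc
    rw [rv_length] at hk2
    rw [rv_take, rv_prod, H.inv_mem_iff] at hc
    apply h3 (v.length - k) (by omega) (by omega)
    have hp : v.prod = (v.take (v.length - k)).prod * (v.drop (v.length - k)).prod := by
      rw [← List.prod_append, List.take_append_drop]
    rw [hp] at h2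
    exact (H.mul_mem_cancel_right hc).1 h2

theorem rv_mem (S : Finset G) (H : Subgroup G) (L : ℕ) (hS : ∀ s ∈ S, s⁻¹ ∈ S) (v : List G)
    (h : v ∈ ret S H L) : rv v ∈ ret S H L := by
  rw [mem_ret] at h ⊢
  refine ⟨by rw [rv_length]; exact h.1, ?_, isRet_rv H v h.2.2⟩
  intro a ha
  simp only [rv, List.mem_reverse, List.mem_map] at ha
  obtain ⟨b, hb, rfl⟩ := ha
  exact hS b (h.2.1 b hb)

theorem val_rv (H : Subgroup G) (v : List G) (h : v.prod ∈ H) : val H (rv v) = (val H v)⁻¹ := by
  have h' : (rv v).prod ∈ H := by rw [rv_prod]; exact H.inv_mem h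
  unfold val
  rw [dif_pos h, dif_pos h']
  apply Subtype.ext
  simp [rv_prod]

omit [Group G] in
theorem coeff_codeM {K : Type} (c : ℝ) (vl : List G → K) (C : Finset (List G)) (g : K) :
    (codeM c vl C).coeff g = open Classical in ∑ v ∈ C, if vl v = g then c ^ v.length else 0 := by
  classical
  unfold codeM
  induction C using Finset.induction_on with
  | empty => simp
  | insert a s ha ih =>
    rw [Finset.sum_insert ha, Finset.sum_insert ha, MonoidAlgebra.coeff_add, Finsupp.add_apply, ih,
      MonoidAlgebra.coeff_single, Finsupp.single_apply]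

end SymrLeaf

open SymrLeaf in
theorem symr : S_SYMR := by
  intro G _ S H c L hS g
  classical
  rw [coeff_codeM, coeff_codeM]
  apply Finset.sum_nbij' rv rv
  · exact fun v hv => rv_mem S H L hS v hv
  · exact fun v hv => rv_mem S H L hS v hv
  · exact fun v _ => rv_rv v
  · exact fun v _ => rv_rv v
  · intro v hv
    have h1 : v.prod ∈ H := ((mem_ret S H L v).1 hv).2.2.2.1
    rw [val_rv H v h1, rv_length]
    have h2 : (val H v = g⁻¹) = ((val H v)⁻¹ = g) := propext ⟨fun h => by rw [h, inv_inv], fun h => by rw [← h, inv_inv]⟩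
    by_cases h3 : (val H v)⁻¹ = g
    · rw [if_pos h3, if_pos (h2 ▸ h3)]
    · rw [if_neg h3, if_neg (h2 ▸ h3)]

end

end K9h87.FD
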