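import Pool.Agent.K9h87.FD.Basic

set_option autoImplicit false

/-!
Leaf ZB of the project FD (helper87): the height of the walk is large with probability at least `1/4`
(by helper32).
-/

open MeasureTheory ProbabilityTheory Finset Filter Topology MonoidAlgebra
open scoped NNReal ENNReal

namespace K9h87.FD

noncomputable section

section push

variable {G H : Type}

open Classical in
lemma coeff_mapDomain_eq (ψ : G → H) (f : MonoidAlgebra ℝ G) {s : Finset G}
    (hs : f.coeff.support ⊆ s) (h : H) :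
    (MonoidAlgebra.mapDomain ψ f).coeff h = ∑ g ∈ s, if ψ g = h then f.coeff g else 0 := by
  have h1 : (MonoidAlgebra.mapDomain ψ f).coeff h = (Finsupp.mapDomain ψ f.coeff) h := rfl
  rw [h1, Finsupp.mapDomain, Finsupp.sum, Finsupp.finsetSum_apply]
  have h2 : ∀ g, (Finsupp.single (ψ g) (f.coeff g)) h = if ψ g = h then f.coeff g else 0 := by
    intro g
    rw [Finsupp.single_apply]
  simp only [h2]
  refine Finset.sum_subset hs fun x _ hx => ?_
  have : f.coeff x = 0 := by simpa using hx
  rw [this, ite_self]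

lemma mass_mapDomain (ψ : G → H) (f : MonoidAlgebra ℝ G) :
    mass (MonoidAlgebra.mapDomain ψ f) = mass f := by
  induction f using MonoidAlgebra.induction_linear with
  | zero => rw [MonoidAlgebra.mapDomain_zero, mass_zero, mass_zero]
  | add x y hx hy => rw [MonoidAlgebra.mapDomain_add, mass_add, hx, hy, mass_add]
  | single g a => rw [MonoidAlgebra.mapDomain_single, mass_single, mass_single]

lemma isProb_mapDomain (ψ : G → H) {f : MonoidAlgebra ℝ G} (hf : IsProb f) :
    IsProb (MonoidAlgebra.mapDomain ψ f) := by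
  classical
  refine ⟨fun h => ?_, by rw [mass_mapDomain, hf.2]⟩
  rw [coeff_mapDomain_eq ψ f (le_refl _)]
  refine Finset.sum_nonneg fun g _ => ?_
  split_ifs
  · exact hf.1 g
  · exact le_refl _

lemma le_coeff_mapDomain (ψ : G → H) {f : MonoidAlgebra ℝ G} (hf : ∀ g, 0 ≤ f.coeff g) (a : G) :
    f.coeff a ≤ (MonoidAlgebra.mapDomain ψ f).coeff (ψ a) := by
  classical
  rw [coeff_mapDomain_eq ψ f (s := insert a f.coeff.support) (Finset.subset_insert _ _)]
  have h1 := Finset.single_le_sum (f := fun g => if ψ g = ψ a then f.coeff g else 0)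
    (s := insert a f.coeff.support) (fun g _ => by
      show (0 : ℝ) ≤ if ψ g = ψ a then f.coeff g else 0
      split_ifs
      · exact hf g
      · exact le_refl _) (Finset.mem_insert_self _ _)
  simpa using h1

lemma sum_support_inv [Group G] {f : MonoidAlgebra ℝ G} (hf : Sym f) (F : G → ℝ) :
    ∑ g ∈ f.coeff.support, F g = ∑ g ∈ f.coeff.support, F g⁻¹ := by
  refine Finset.sum_bij' (fun a _ => a⁻¹) (fun a _ => a⁻¹) ?_ ?_ ?_ ?_ ?_
  · intro a ha; rw [Finsupp.mem_support_iff] at ha ⊢; rwa [hf a]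
  · intro a ha; rw [Finsupp.mem_support_iff] at ha ⊢; rwa [hf a]
  · intro a _; simp
  · intro a _; simp
  · intro a _; simp

lemma sym_mapDomain [Group G] [Group H] (ψ : G →* H) {f : MonoidAlgebra ℝ G} (hf : Sym f) :
    Sym (MonoidAlgebra.mapDomain ψ f) := by
  classical
  intro h
  rw [coeff_mapDomain_eq ψ f (le_refl _), coeff_mapDomain_eq ψ f (le_refl _), sum_support_inv hf]
  refine Finset.sum_congr rfl fun g _ => ?_
  rw [hf g, map_inv, inv_inj]

end push

open Classical in
lemma mass_cut {G : Type} (φ : G → ℤ) (B : ℤ) (f : MonoidAlgebra ℝ G) :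
    mass (cut φ B f) = ∑ g ∈ f.coeff.support, if B < φ g then f.coeff g else 0 := by
  have h1 : ∀ g, (cut φ B f).coeff g = if B < φ g then f.coeff g else 0 := by
    intro g
    show (Finsupp.filter (fun g => B < φ g) f.coeff) g = _
    rw [Finsupp.filter_apply]
  rw [mass_eq_sum (cut φ B f) (s := f.coeff.support) ?_]
  · exact Finset.sum_congr rfl fun g _ => h1 g
  · intro g hg
    rw [Finsupp.mem_support_iff, h1] at hg
    rw [Finsupp.mem_support_iff]
    intro h2
    rw [h2, ite_self] at hg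
    exact hg rfl

theorem zb (h : S_ZERO) : S_ZB := by
  classical
  intro G _ φ hφ a c hc ha B hB
  have hφ1 : φ 1 = 0 := by
    have := hφ 1 1
    rw [mul_one] at this
    linarith
  have hφi : ∀ g, φ g⁻¹ = -φ g := by
    intro g
    have := hφ g g⁻¹
    rw [mul_inv_cancel, hφ1] at this
    linarith
  let ψ : G →* Multiplicative ℤ :=
    { toFun := fun x => Multiplicative.ofAdd (φ x)
      map_one' := by rw [hφ1]; rfl
      map_mul' := fun x y => by rw [hφ, ofAdd_add] }
  have hψ : ∀ x, ψ x = Multiplicative.ofAdd (φ x) := fun _ => rfl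
  have hgrow : ∀ N : ℕ, ∃ (n : ℕ) (W : Finset (Multiplicative ℤ)),
      InPow ({1, ψ a} : Finset (Multiplicative ℤ)) n W ∧ N ≤ W.card := by
    intro N
    refine ⟨N, (Finset.range (N + 1)).image fun k : ℕ => (ψ a) ^ k, ?_, ?_⟩
    · intro w hw
      obtain ⟨k, hk, rfl⟩ := Finset.mem_image.1 hw
      have hk' : k ≤ N := Nat.lt_succ_iff.1 (Finset.mem_range.1 hk)
      refine ⟨List.replicate k (ψ a) ++ List.replicate (N - k) 1, ?_, ?_, ?_⟩
      · simp [hk']
      · intro b hb
        rcases List.mem_append.1 hb with hb | hb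
        · rw [List.eq_of_mem_replicate hb]; simp
        · rw [List.eq_of_mem_replicate hb]; simp
      · simp
    · rw [Finset.card_image_of_injective, Finset.card_range]
      · omega
      · intro k l hkl
        have h1 : ψ a ^ k = ψ a ^ l := hkl
        rw [hψ, ← ofAdd_nsmul, ← ofAdd_nsmul] at h1
        have h2 : (k : ℤ) * φ a = l * φ a := by
          have := Multiplicative.ofAdd.injective h1
          simpa [nsmul_eq_mul] using this
        exact_mod_cast mul_right_cancel₀ ha h2
  have hBr : (0 : ℝ) ≤ (B : ℝ) := by exact_mod_cast hB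
  obtain ⟨U, hU⟩ := h (Multiplicative ℤ) {1, ψ a} c hc hgrow (1 / (4 * (2 * (B : ℝ) + 1) ^ 2))
    (by positivity)
  refine ⟨U, fun σ hσ hsym h1 h2 u hu => ?_⟩
  -- the image of `σ`
  have hmul : ∀ f g : MonoidAlgebra ℝ G, MonoidAlgebra.mapDomain ψ (f * g) =
      MonoidAlgebra.mapDomain ψ f * MonoidAlgebra.mapDomain ψ g :=
    fun f g => MonoidAlgebra.mapDomain_mul ψ f g
  have hpow : ∀ n : ℕ, MonoidAlgebra.mapDomain ψ (σ ^ n) = (MonoidAlgebra.mapDomain ψ σ) ^ n := by
    intro n
    exact map_pow (MonoidAlgebra.mapDomainRingHom ℝ ψ) σ n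
  have hA : ∀ x ∈ ({1, ψ a} : Finset (Multiplicative ℤ)),
      c ≤ (MonoidAlgebra.mapDomain ψ σ * MonoidAlgebra.mapDomain ψ σ).coeff x := by
    intro x hx
    rw [← hmul]
    have hnn := (hσ.mul hσ).1
    rcases Finset.mem_insert.1 hx with rfl | hx
    · have h4 : ψ 1 = 1 := map_one ψ
      have h5 := le_coeff_mapDomain ψ hnn 1
      rw [h4] at h5
      exact h1.trans h5
    · rw [Finset.mem_singleton.1 hx]
      exact h2.trans (le_coeff_mapDomain ψ hnn a)
  have h3 := hU _ (isProb_mapDomain ψ hσ) (sym_mapDomain ψ hsym) hA u hu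
  rw [← hpow] at h3
  obtain ⟨ρ, hρ⟩ : ∃ ρ, ρ = σ ^ u := ⟨_, rfl⟩
  have hρp : IsProb ρ := by rw [hρ]; exact hσ.pow u
  have hρs : Sym ρ := by rw [hρ]; exact hsym.pow u
  rw [← hρ] at h3 ⊢
  set s := ρ.coeff.support with hs
  -- the part near zero
  have hnear : ∑ g ∈ s, (if -B ≤ φ g ∧ φ g ≤ B then ρ.coeff g else 0) ≤ 1 / 2 := by
    have e1 : ∑ g ∈ s, (if -B ≤ φ g ∧ φ g ≤ B then ρ.coeff g else 0) =
        ∑ k ∈ Finset.Icc (-B) B, (MonoidAlgebra.mapDomain ψ ρ).coeff (Multiplicative.ofAdd k) := by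
      have e2 : ∀ k : ℤ, (MonoidAlgebra.mapDomain ψ ρ).coeff (Multiplicative.ofAdd k) =
          ∑ g ∈ s, if φ g = k then ρ.coeff g else 0 := by
        intro k
        rw [coeff_mapDomain_eq ψ ρ (le_refl _)]
        refine Finset.sum_congr rfl fun g _ => ?_
        rw [hψ]
        have h6 : (Multiplicative.ofAdd (φ g) = Multiplicative.ofAdd k) = (φ g = k) :=
          propext Multiplicative.ofAdd.injective.eq_iff
        simp only [h6]
      simp only [e2]
      rw [Finset.sum_comm]
      refine Finset.sum_congr rfl fun g _ => ?_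
      rw [Finset.sum_ite_eq]
      simp only [Finset.mem_Icc]
    rw [e1]
    have e3 : √(ip (MonoidAlgebra.mapDomain ψ ρ) (MonoidAlgebra.mapDomain ψ ρ)) ≤
        1 / (2 * (2 * (B : ℝ) + 1)) := by
      apply Real.sqrt_le_iff.2
      refine ⟨by positivity, h3.trans (le_of_eq ?_)⟩
      field_simp
      ring
    calc ∑ k ∈ Finset.Icc (-B) B, (MonoidAlgebra.mapDomain ψ ρ).coeff (Multiplicative.ofAdd k)
        ≤ ∑ _k ∈ Finset.Icc (-B) B, 1 / (2 * (2 * (B : ℝ) + 1)) :=
          Finset.sum_le_sum fun k _ => (coeff_le_norm _ _).trans e3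
      _ = 1 / 2 := by
          rw [Finset.sum_const, Int.card_Icc, nsmul_eq_mul]
          have e4 : (((B + 1 - -B).toNat : ℕ) : ℝ) = 2 * (B : ℝ) + 1 := by
            have e5 : (((B + 1 - -B).toNat : ℕ) : ℤ) = 2 * B + 1 := by
              rw [Int.toNat_of_nonneg (by linarith)]; ring
            exact_mod_cast e5
          rw [e4]
          field_simp
  -- symmetry
  have hsymm : ∑ g ∈ s, (if φ g < -B then ρ.coeff g else 0) =
      ∑ g ∈ s, (if B < φ g then ρ.coeff g else 0) := by
    rw [hs, sum_support_inv hρs fun g => if φ g < -B then ρ.coeff g else 0]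
    refine Finset.sum_congr rfl fun g _ => ?_
    rw [hφi, hρs g]
    congr 1
    rw [eq_iff_iff]
    constructor <;> intro h <;> linarith
  have htot : ∑ g ∈ s, (if B < φ g then ρ.coeff g else 0) +
      ∑ g ∈ s, (if φ g < -B then ρ.coeff g else 0) +
      ∑ g ∈ s, (if -B ≤ φ g ∧ φ g ≤ B then ρ.coeff g else 0) = 1 := by
    rw [← Finset.sum_add_distrib, ← Finset.sum_add_distrib, ← hρp.2, mass_eq_sum ρ (le_refl _)]
    refine Finset.sum_congr rfl fun g _ => ?_
    by_cases c1 : B < φ g
    · rw [if_pos c1, if_neg (by linarith), if_neg (by intro hh; linarith [hh.2])]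
      ring
    · by_cases c2 : φ g < -B
      · rw [if_neg c1, if_pos c2, if_neg (by intro hh; linarith [hh.1])]
        ring
      · rw [if_neg c1, if_neg c2, if_pos ⟨by linarith, by linarith⟩]
        ring
  rw [mass_cut]
  rw [← hs]
  linarith

end

end K9h87.FD
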