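import Pool.Agent.K9h87.FD.PP

set_option autoImplicit false

open MeasureTheory ProbabilityTheory Finset Filter Topology MonoidAlgebra
open scoped NNReal ENNReal

namespace K9h87.FD

noncomputable section

theorem zero : S_ZERO := by
  intro G _ A c hc hW ε hε
  -- choose `N` with `1/√N ≤ √ε/2`
  obtain ⟨N, hN⟩ := exists_nat_gt (4 / ε)
  have hN0 : (0 : ℝ) < N := lt_trans (by positivity) hN
  obtain ⟨n, W, hWA, hWN⟩ := hW N
  have hWne : W.Nonempty := by
    rw [← Finset.card_pos]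
    have : 0 < N := by exact_mod_cast hN0
    omega
  -- choose `U` with `n √(2/(c (U+1))) ≤ √ε/2`
  obtain ⟨U, hU⟩ := exists_nat_gt (8 * (n : ℝ) ^ 2 / (c * ε))
  refine ⟨U, fun σ hσ hsym hA u hu => ?_⟩
  set s : ℕ → ℝ := fun u => ip (σ ^ u) (σ ^ u) with hs
  have hanti : Antitone s := antitone_nat_of_succ_le fun u => by
    simp only [hs, pow_succ]
    exact ip_mul_prob hσ _
  have hnn : ∀ u, 0 ≤ s u := fun u => ip_self_nonneg _
  have hs0 : s 0 ≤ 1 := (hσ.pow 0).ip_le_one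
  -- some j ≤ u with small decrement
  obtain ⟨j, hju, hj⟩ : ∃ j ≤ u, s j - s (j + 1) ≤ 1 / ((u : ℝ) + 1) := by
    by_contra hcon
    push Not at hcon
    have h1 : ∑ j ∈ range (u + 1), (s j - s (j + 1)) = s 0 - s (u + 1) :=
      Finset.sum_range_sub' s (u + 1)
    have h2 : ∑ j ∈ range (u + 1), (1 / ((u : ℝ) + 1)) < ∑ j ∈ range (u + 1), (s j - s (j + 1)) :=
      Finset.sum_lt_sum_of_nonempty ⟨0, by simp⟩ fun j hj => hcon j (by
        have := Finset.mem_range.1 hj; omega)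
    rw [h1, Finset.sum_const, Finset.card_range, nsmul_eq_mul] at h2
    push_cast at h2
    rw [mul_one_div_cancel (by positivity)] at h2
    have := hnn (u + 1)
    linarith
  have hpp := pp G σ hσ hsym A c hc hA (σ ^ j) (hσ.pow j) n W hWne hWA
  have h3 : √(s j) ≤ n * √(2 * (s j - s (j + 1)) / c) + 1 / √(W.card) := by
    simp only [hs, pow_succ]
    exact hpp
  have hu0 : (0 : ℝ) < (u : ℝ) + 1 := by positivity
  have hDj : 0 ≤ s j - s (j + 1) := by
    have := hanti (Nat.le_succ j); linarith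
  have h4 : (n : ℝ) * √(2 * (s j - s (j + 1)) / c) ≤ √ε / 2 := by
    have h5 : (n : ℝ) * √(2 * (s j - s (j + 1)) / c)
        = √((n : ℝ) ^ 2 * (2 * (s j - s (j + 1)) / c)) := by
      rw [Real.sqrt_mul (by positivity), Real.sqrt_sq (by positivity)]
    have h6 : √ε / 2 = √(ε / 4) := by
      rw [Real.sqrt_div hε.le, show (4 : ℝ) = 2 ^ 2 by norm_num, Real.sqrt_sq (by norm_num)]
    rw [h5, h6]
    apply Real.sqrt_le_sqrt
    have hUu : 8 * (n : ℝ) ^ 2 / (c * ε) ≤ (u : ℝ) + 1 := by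
      have : (U : ℝ) ≤ u := by exact_mod_cast hu
      linarith
    rw [div_le_iff₀ (by positivity)] at hUu
    have h7 : (n : ℝ) ^ 2 * (2 * (s j - s (j + 1)) / c) ≤ (n : ℝ) ^ 2 * (2 * (1 / ((u : ℝ) + 1)) / c) := by
      gcongr
    refine h7.trans ?_
    have h8 : (n : ℝ) ^ 2 * (2 * (1 / ((u : ℝ) + 1)) / c) = 2 * (n : ℝ) ^ 2 / (((u : ℝ) + 1) * c) := by
      field_simp
    rw [h8, div_le_div_iff₀ (by positivity) (by norm_num)]
    nlinarith
  have h9 : 1 / √(W.card) ≤ √ε / 2 := by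
    have h10 : (N : ℝ) ≤ W.card := by exact_mod_cast hWN
    have h11 : 4 / ε ≤ W.card := by linarith
    have h12 : 2 / √ε ≤ √(W.card) := by
      have : √(4 / ε) = 2 / √ε := by
        rw [Real.sqrt_div (by norm_num), show (4 : ℝ) = 2 ^ 2 by norm_num, Real.sqrt_sq (by norm_num)]
      rw [← this]
      exact Real.sqrt_le_sqrt h11
    have h13 : 0 < √ε := Real.sqrt_pos.2 hε
    have h14 : 0 < √(W.card : ℝ) := lt_of_lt_of_le (by positivity) h12
    rw [div_le_div_iff₀ h14 (by norm_num)]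
    rw [div_le_iff₀ h13] at h12
    linarith
  have h15 : √(s u) ≤ √ε := by
    have : √(s u) ≤ √(s j) := Real.sqrt_le_sqrt (hanti hju)
    linarith
  exact (Real.sqrt_le_sqrt_iff hε.le).1 h15

end

end K9h87.FD
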