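import Pool.Agent.K9h87.FD.Fin5
import Pool.Agent.K9h87.FD.Perc
import Pool.Agent.K9h87.FD.STC
import Pool.Agent.K9h87.FD.Mass
import Pool.Agent.K9h87.FD.Symr
import Pool.Agent.K9h87.FD.GRA
import Pool.Agent.K9h87.FD.GRB
import Pool.Agent.K9h87.FD.Ces
import Pool.Agent.K9h87.FD.PQ
import Pool.Agent.K9h87.FD.Nash
import Pool.Agent.K9h87.FD.Sum
import Pool.Agent.K9h87.FD.ZB
import Pool.Agent.K9h87.FD.Zero

set_option autoImplicit false

open MeasureTheory ProbabilityTheory Finset Filter Topology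
open scoped NNReal ENNReal

namespace K9h87.FD

/-- A group generated by a finite symmetric set is countable. -/
lemma countable_of_gen {G : Type} [Group G] (S : Finset G)
    (hgen : Subgroup.closure (S : Set G) = ⊤) (hsym : ∀ s ∈ S, s⁻¹ ∈ S) : Countable G := by
  have hsurj : Function.Surjective fun l : List {x // x ∈ S} => (l.map Subtype.val).prod := by
    intro x
    have hx : x ∈ Subgroup.closure (S : Set G) := hgen ▸ Subgroup.mem_top x
    induction hx using Subgroup.closure_induction with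
    | mem x hx => exact ⟨[⟨x, hx⟩], by simp⟩
    | one => exact ⟨[], by simp⟩
    | mul x y _ _ hx hy =>
      obtain ⟨l, rfl⟩ := hx
      obtain ⟨l', rfl⟩ := hy
      exact ⟨l ++ l', by simp⟩
    | inv x _ hx =>
      obtain ⟨l, rfl⟩ := hx
      refine ⟨(l.map fun s : {x // x ∈ S} => (⟨(s.1)⁻¹, hsym s.1 s.2⟩ : {x // x ∈ S})).reverse, ?_⟩
      simp only [List.map_reverse, List.map_map, List.prod_inv_reverse]
      rfl
  exact hsurj.countable

/-- Survival with positive probability for all large lifetimes. -/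
theorem survival {G : Type} [Group G] [MeasurableSpace G] [DiscreteMeasurableSpace G]
    (S : Finset G) (hgen : Subgroup.closure (S : Set G) = ⊤) (hsym : ∀ s ∈ S, s⁻¹ ∈ S)
    (hind : ∃ H : Subgroup G, H.FiniteIndex ∧ ∃ φ : H →* Multiplicative ℤ, ∃ h, φ h ≠ 1)
    (hgr : ∃ c : ℝ, 0 < c ∧ ∀ n : ℕ, 1 ≤ n → c * (n : ℝ) ^ 8 ≤ (ball S n).ncard)
    (lam : ℝ≥0) (hlam : 0 < lam) :
    ∃ t₀ : ℝ, ∀ t ≥ t₀, 0 < frogLaw S lam (survives G t) := by
  obtain ⟨H, hfin, φ, h₀, hh₀⟩ := hind
  obtain ⟨c, hc, hgr⟩ := hgr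
  have hS : S.Nonempty := by
    rw [Finset.nonempty_iff_ne_empty]
    rintro rfl
    have h1 : (h₀ : G) ∈ Subgroup.closure ((∅ : Finset G) : Set G) := hgen ▸ Subgroup.mem_top _
    rw [Finset.coe_empty, Subgroup.closure_empty, Subgroup.mem_bot] at h1
    have h2 : h₀ = 1 := Subtype.ext h1
    exact hh₀ (by rw [h2, map_one])
  have hcount := countable_of_gen S hgen hsym
  exact Fin5.core perc stc mass_ret symr (grb gra) (ces zero) pq (nash pp) sum (zb zero) G S hgen
    hsym hS H hfin (fun x => Multiplicative.toAdd (φ x)) (fun x y => by rw [map_mul, toAdd_mul])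
    ⟨h₀, fun h => hh₀ (by simpa using h)⟩ c hc hgr lam hlam

end K9h87.FD
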