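import Pool.Agent.K9h87.FD.Basic

set_option autoImplicit false

open MeasureTheory ProbabilityTheory Finset Filter Topology MonoidAlgebra
open scoped NNReal ENNReal

namespace K9h87.FD

noncomputable section

/-- The pseudo-Poincaré inequality. -/
theorem pp : S_PP := by
  classical
  intro G _ σ hσ hsym A c hc hA f hf n W hWne hW
  set D := ip f f - ip (f * σ) (f * σ) with hD
  have hqp : IsProb (σ * σ) := hσ.mul hσ
  -- Dirichlet form
  have hloc : ∀ a : G, ip (f - f * single a 1) (f - f * single a 1)
      = 2 * ip f f - 2 * ip f (f * single a 1) := by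
    intro a
    rw [ip_sub_left, ip_sub_right, ip_sub_right, ip_mul_single, ip_comm (f * single a 1) f]
    ring
  have hq : ip f (f * (σ * σ)) = ip (f * σ) (f * σ) := by
    rw [← mul_assoc, ← ip_mul_sym hsym (f) (f * σ)]
  have hsum : ∑ a ∈ (σ * σ).coeff.support,
      (σ * σ).coeff a * ip (f - f * single a 1) (f - f * single a 1) = 2 * D := by
    have h1 : ip f (f * (σ * σ)) = ∑ a ∈ (σ * σ).coeff.support,
        (σ * σ).coeff a * ip f (f * single a 1) := by
      conv_lhs => rw [eq_sum_single (σ * σ)]
      rw [Finset.mul_sum, ip_sum_right]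
      refine Finset.sum_congr rfl fun a _ => ?_
      have : f * single a ((σ * σ).coeff a) = (σ * σ).coeff a • (f * single a 1) := by
        rw [← mul_smul_comm, smul_single]; simp
      rw [this, ip_smul_right]
    have h2 : ∑ a ∈ (σ * σ).coeff.support, (σ * σ).coeff a = 1 := by
      rw [← mass_eq_sum _ (le_refl _), hqp.2]
    calc ∑ a ∈ (σ * σ).coeff.support,
        (σ * σ).coeff a * ip (f - f * single a 1) (f - f * single a 1)
        = ∑ a ∈ (σ * σ).coeff.support, ((σ * σ).coeff a * (2 * ip f f)
            - 2 * ((σ * σ).coeff a * ip f (f * single a 1))) := by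
          refine Finset.sum_congr rfl fun a _ => ?_
          rw [hloc]; ring
      _ = 2 * D := by
          rw [Finset.sum_sub_distrib, ← Finset.sum_mul, h2, ← Finset.mul_sum, ← h1, hq, hD]
          ring
  have hDnn : 0 ≤ D := by
    have := ip_mul_prob hσ f
    rw [hD]; linarith
  have ha : ∀ a ∈ A, √(ip (f - f * single a 1) (f - f * single a 1)) ≤ √(2 * D / c) := by
    intro a haA
    apply Real.sqrt_le_sqrt
    rw [le_div_iff₀ hc]
    have h1 : a ∈ (σ * σ).coeff.support := by
      rw [Finsupp.mem_support_iff]
      exact (hc.trans_le (hA a haA)).ne'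
    have h2 := Finset.single_le_sum
      (f := fun a => (σ * σ).coeff a * ip (f - f * single a 1) (f - f * single a 1))
      (fun x _ => mul_nonneg (hqp.1 x) (ip_self_nonneg _)) h1
    rw [hsum] at h2
    have h3 := hA a haA
    have h4 := ip_self_nonneg (f - f * single a 1)
    calc ip (f - f * single a 1) (f - f * single a 1) * c
        ≤ (σ * σ).coeff a * ip (f - f * single a 1) (f - f * single a 1) := by nlinarith
      _ ≤ 2 * D := h2
  have hl : ∀ l : List G, (∀ a ∈ l, a ∈ A) →
      √(ip (f - f * single l.prod 1) (f - f * single l.prod 1)) ≤ l.length * √(2 * D / c) := by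
    intro l
    induction l with
    | nil =>
      intro _
      have : f - f * single ([] : List G).prod 1 = 0 := by
        rw [List.prod_nil, ← MonoidAlgebra.one_def, mul_one, sub_self]
      rw [this, ip_zero_left]
      simp
    | cons a l ih =>
      intro hal
      have h1 := ih fun b hb => hal b (List.mem_cons_of_mem _ hb)
      have h2 := ha a (hal a List.mem_cons_self)
      have h3 : f - f * single (a :: l).prod 1
          = (f - f * single l.prod 1) + (f - f * single a 1) * single l.prod 1 := by
        rw [List.prod_cons, sub_mul, mul_assoc, single_mul_single]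
        simp
      rw [h3]
      refine (norm_add_le' _ _).trans ?_
      rw [ip_mul_single, List.length_cons]
      push_cast
      linarith
  -- averaging
  have hWc : (0 : ℝ) < W.card := by exact_mod_cast hWne.card_pos
  have havg : √(ip (f - f * unif W) (f - f * unif W)) ≤ n * √(2 * D / c) := by
    have h1 : f - f * unif W = ∑ w ∈ W, ((W.card : ℝ)⁻¹) • (f - f * single w 1) := by
      rw [← Finset.smul_sum, Finset.sum_sub_distrib, Finset.sum_const, ← Nat.cast_smul_eq_nsmul ℝ,
        smul_sub, smul_smul, inv_mul_cancel₀ hWc.ne', one_smul, ← Finset.mul_sum,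
        ← mul_smul_comm]
      congr 2
      unfold unif
      rw [Finset.smul_sum]
      refine Finset.sum_congr rfl fun w _ => ?_
      rw [smul_single]; simp
    rw [h1]
    refine (norm_sum_le' _ _).trans ?_
    have h2 : ∀ w ∈ W, √(ip (((W.card : ℝ)⁻¹) • (f - f * single w 1))
        (((W.card : ℝ)⁻¹) • (f - f * single w 1))) ≤ (W.card : ℝ)⁻¹ * (n * √(2 * D / c)) := by
      intro w hw
      rw [norm_smul' (by positivity)]
      obtain ⟨l, hln, hlA, hlp⟩ := hW w hw
      have := hl l hlA
      rw [hlp, hln] at this
      exact mul_le_mul_of_nonneg_left this (by positivity)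
    refine (Finset.sum_le_sum h2).trans ?_
    rw [Finset.sum_const, nsmul_eq_mul, ← mul_assoc, mul_inv_cancel₀ hWc.ne', one_mul]
  have hunif : √(ip (unif W) (unif W)) = 1 / √(W.card) := by
    have : ip (unif W) (unif W) = (W.card : ℝ)⁻¹ := by
      rw [ip_eq_sum (unif W) (unif W) (s := W) ?_]
      · rw [Finset.sum_congr rfl (g := fun _ => ((W.card : ℝ)⁻¹) * ((W.card : ℝ)⁻¹))
          (fun g hg => by rw [unif_coeff, if_pos hg])]
        rw [Finset.sum_const, nsmul_eq_mul, ← mul_assoc, mul_inv_cancel₀ hWc.ne', one_mul]
      · intro g hg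
        by_contra hgW
        rw [Finsupp.mem_support_iff, unif_coeff, if_neg hgW] at hg
        exact hg rfl
    rw [this, Real.sqrt_inv, one_div]
  have h5 : f = (f - f * unif W) + f * unif W := by abel
  calc √(ip f f) = √(ip ((f - f * unif W) + f * unif W) ((f - f * unif W) + f * unif W)) := by
        rw [← h5]
    _ ≤ √(ip (f - f * unif W) (f - f * unif W)) + √(ip (f * unif W) (f * unif W)) :=
        norm_add_le' _ _
    _ ≤ n * √(2 * D / c) + √(ip (unif W) (unif W)) :=
        add_le_add havg (norm_prob_mul hf _)
    _ = _ := by rw [hunif]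

end

end K9h87.FD
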