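import Mathlib

set_option autoImplicit false

/-!
# Frog model with death on Cayley graphs of groups with a homomorphism onto ℤ (MP_e2f79e_pr)

Target: if `G` is generated by the finite symmetric set `S`, has a nontrivial homomorphism to `ℤ` and
growth at least `c n ^ 8`, then the critical lifetime `tc S lam` is finite for every `lam > 0`.

The definitions of the model and the statements `S_X` of the leaves. Each leaf `X` is proved in a file
`Pool/Agent/K9h87/FD/X.lean` as `theorem x : S_X`.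
All leaves are Mathlib-only. `MonoidAlgebra ℝ G` is the algebra of finitely supported functions with
convolution; the coefficient of `f` at `g` is `f.coeff g`.
Basic lemmas on `ip`, `mass`, `IsProb` are in `Pool/Agent/K9h87/FD/Basic.lean` (landed soon).
-/

open MeasureTheory ProbabilityTheory Finset Filter Topology
open scoped NNReal ENNReal

namespace K9h87.FD

noncomputable section

/-! ## The model -/

/-- The data at one vertex: the number of particles, the waiting times before their jumps and the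
steps of their walks; `(i, j)` belongs to the `j`-th jump of the `i`-th particle. -/
abbrev Site (G : Type) := ℕ × (ℕ × ℕ → ℝ) × (ℕ × ℕ → G)

/-- The waiting times are independent exponential variables of rate `1`. -/
def clockLaw : Measure (ℕ × ℕ → ℝ) := Measure.infinitePi fun _ => expMeasure 1

/-- The steps are independent and uniform on `S`. -/
def stepsLaw {G : Type} [MeasurableSpace G] (S : Finset G) : Measure (ℕ × ℕ → G) :=
  Measure.infinitePi fun _ => uniformOn (S : Set G)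

/-- Law of the data of one vertex: the number of particles is Poisson of mean `lam`. -/
def siteLaw {G : Type} [MeasurableSpace G] (S : Finset G) (lam : ℝ≥0) : Measure (Site G) :=
  (poissonMeasure lam).prod (clockLaw.prod (stepsLaw S))

/-- The data of different vertices are independent. -/
def frogLaw {G : Type} [MeasurableSpace G] (S : Finset G) (lam : ℝ≥0) : Measure (G → Site G) :=
  Measure.infinitePi fun _ => siteLaw S lam

/-- The product of the first `s` steps of the `i`-th particle. -/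
def disp {G : Type} [Group G] (w : ℕ × ℕ → G) (i s : ℕ) : G :=
  ((List.range s).map fun j => w (i, j)).prod

/-- Some particle starting at `x`, active for time `t` after its activation, visits `y`. -/
def Visits {G : Type} [Group G] (D : G → Site G) (t : ℝ) (x y : G) : Prop :=
  ∃ i < (D x).1, ∃ s : ℕ, ∑ j ∈ range s, (D x).2.1 (i, j) ≤ t ∧ y = x * disp (D x).2.2 i s

/-- The set of visited vertices, when the particles at `1` are activated at time `0`. -/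
def visited {G : Type} [Group G] (D : G → Site G) (t : ℝ) : Set G :=
  {y | Relation.ReflTransGen (Visits D t) 1 y}

/-- Survival: infinitely many vertices are visited. -/
def survives (G : Type) [Group G] (t : ℝ) : Set (G → Site G) := {D | (visited D t).Infinite}

/-- The critical lifetime. -/
def tc {G : Type} [Group G] [MeasurableSpace G] (S : Finset G) (lam : ℝ≥0) : ℝ≥0∞ :=
  ⨆ t : {t : ℝ≥0 // frogLaw S lam (survives G t) = 0}, ((t : ℝ≥0) : ℝ≥0∞)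

/-! ## Tools -/

/-- The sum of the coefficients. -/
def mass {G : Type} (f : MonoidAlgebra ℝ G) : ℝ := f.coeff.sum fun _ a => a

/-- The `ℓ²` inner product. `ip f f` is the square of the `ℓ²` norm. -/
def ip {G : Type} (f h : MonoidAlgebra ℝ G) : ℝ := f.coeff.sum fun g a => a * h.coeff g

/-- `f` is a (finitely supported) probability measure. -/
def IsProb {G : Type} (f : MonoidAlgebra ℝ G) : Prop := (∀ g, 0 ≤ f.coeff g) ∧ mass f = 1

/-- `f` is symmetric. -/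
def Sym {G : Type} [Group G] (f : MonoidAlgebra ℝ G) : Prop := ∀ g, f.coeff g⁻¹ = f.coeff g

/-- Uniform probability on `S`. -/
def unif {G : Type} (S : Finset G) : MonoidAlgebra ℝ G :=
  ∑ s ∈ S, MonoidAlgebra.single s ((S.card : ℝ)⁻¹)

/-- `W` consists of products of `n` elements of `A`. -/
def InPow {G : Type} [Group G] (A : Finset G) (n : ℕ) (W : Finset G) : Prop :=
  ∀ w ∈ W, ∃ l : List G, l.length = n ∧ (∀ a ∈ l, a ∈ A) ∧ l.prod = w

/-- The part of `f` on `{B < φ}`. -/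
def cut {G : Type} (φ : G → ℤ) (B : ℤ) (f : MonoidAlgebra ℝ G) : MonoidAlgebra ℝ G :=
  open Classical in MonoidAlgebra.ofCoeff (f.coeff.filter fun g => B < φ g)

/-- The weighted number of directed open paths of `n` macroscopic steps from `x`. -/
def Np {G E : Type} [Group G] (F : Finset G) (ℓ : E → G → ℝ) (ω : G → E) : ℕ → G → ℝ
  | 0, _ => 1
  | n + 1, x => ∑ g ∈ F, ℓ (ω x) g * Np F ℓ ω n (x * g)

/-- Two-walk Green function: expected number of common points (with times) of the walks with step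
law `μ` started at `x` (`≤ n` steps) and `y` (`≤ n'` steps). -/
def Gr {G : Type} [Group G] (μ : MonoidAlgebra ℝ G) (n n' : ℕ) (x y : G) : ℝ :=
  ∑ i ∈ range (n + 1), ∑ j ∈ range (n' + 1),
    ip (MonoidAlgebra.single x 1 * μ ^ i) (MonoidAlgebra.single y 1 * μ ^ j)

/-- How often the walk `disp w 0` sits at `g` during `[r + U, r + U + M)`, with height gained since
time `r` more than `B`. -/
def Rc {G : Type} [Group G] (φ : G → ℤ) (r U M : ℕ) (B : ℤ) (w : ℕ × ℕ → G) (g : G) : ℝ :=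
  open Classical in ∑ u ∈ range M,
    if disp w 0 (r + U + u) = g ∧ B < φ ((disp w 0 r)⁻¹ * disp w 0 (r + U + u)) then 1 else 0

/-! ## Leaves -/

/-- Leaf PP (pseudo-Poincaré inequality).
Proof. Write `‖f‖² = ip f f`, `q = σ * σ`. By symmetry `‖f * σ‖² = ip (f * q) f
= ∑ a, q a * ip (f * single a 1) f` and `∑ q = 1`, `‖f * single a 1‖ = ‖f‖`, so
`‖f‖² - ‖f * σ‖² = 1/2 ∑ a, q a * ‖f - f * single a 1‖²`. Hence `‖f - f * single a 1‖ ≤ √(2D/c)` for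
`a ∈ A`, where `D = ‖f‖² - ‖f * σ‖²`; for `w = a₁ … aₙ`, `‖f - f * single w 1‖ ≤ n √(2D/c)`
(triangle inequality, right translation is isometric); averaging over `W`:
`‖f - f * unif W‖ ≤ n √(2D/c)`; finally `‖f * unif W‖ ≤ ‖unif W‖ = 1/√|W|` since `f` is a
probability (left translations are isometries and the triangle inequality). -/
def S_PP : Prop := ∀ (G : Type) [Group G] (σ : MonoidAlgebra ℝ G), IsProb σ → Sym σ →
  ∀ (A : Finset G) (c : ℝ), 0 < c → (∀ a ∈ A, c ≤ (σ * σ).coeff a) →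
  ∀ (f : MonoidAlgebra ℝ G), IsProb f → ∀ (n : ℕ) (W : Finset G), W.Nonempty → InPow A n W →
    √(ip f f) ≤ n * √(2 * (ip f f - ip (f * σ) (f * σ)) / c) + 1 / √(W.card)

/-- Leaf NASH (the constant `c₂` depends only on `A`, `c`, `c'`, not on `σ`). (May use `S_PP` as a
hypothesis: prove `theorem nash (h : S_PP) : S_NASH`; `pp : S_PP` is landed in `FD/PP.lean`.)
Proof. Let `s = √(ip f f)`, `0 < s ≤ 1`, `D = ip f f - ip (f * σ) (f * σ) ≥ 0` (`ip_mul_prob` in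
`Basic.lean`). `s ≤ n √(2D/c) + 1/(√c' n⁴)` for all `n ≥ 1`. Take `n = ⌈(2/(√c' s))^(1/4)⌉`
(so `1/(√c' n⁴) ≤ s/2` and `n ≤ C s^(-1/4)` as `s ≤ 1`). Then `s/2 ≤ n √(2D/c)`, so
`D ≥ c₁ s^(5/2)`, i.e. with `a = s²`: `b := ip (f*σ) (f*σ) ≤ a - c₁ a^(5/4)`; and convexity of
`x ↦ x^(-1/4)` gives `b^(-1/4) ≥ a^(-1/4) + (1/4) a^(-5/4) (a - b) ≥ a^(-1/4) + c₁/4`. -/
def S_NASH : Prop := ∀ (G : Type) [Group G] (A : Finset G) (c c' : ℝ), 0 < c → 0 < c' →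
    (∀ n : ℕ, 1 ≤ n → ∃ W : Finset G, InPow A n W ∧ c' * (n : ℝ) ^ 8 ≤ W.card) →
  ∃ c₂ : ℝ, 0 < c₂ ∧ ∀ σ : MonoidAlgebra ℝ G, IsProb σ → Sym σ →
    (∀ a ∈ A, c ≤ (σ * σ).coeff a) → ∀ f : MonoidAlgebra ℝ G, IsProb f →
    (√√(ip f f))⁻¹ + c₂ ≤ (√√(ip (f * σ) (f * σ)))⁻¹

/-- Leaf SUM.
Proof. With `v f = (√√(ip f f))⁻¹`: `v (f * σ) ≥ v f + c₂`, `v (f * ν) ≥ v f` since
`ip (f * ν) (f * ν) ≤ ip f f` (Jensen/contraction), so `v ((σ ^ r * ν) ^ k) ≥ c₂ k r`, hence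
`√(ip (μ^k) (μ^k)) ≤ 1 / (c₂ k r)²`, and `∑ 1/k² ≤ 2`. -/
def S_SUM : Prop := ∀ (G : Type) [Group G] (σ ν : MonoidAlgebra ℝ G), IsProb σ → IsProb ν →
  ∀ c₂ : ℝ, 0 < c₂ → (∀ f : MonoidAlgebra ℝ G, IsProb f →
    (√√(ip f f))⁻¹ + c₂ ≤ (√√(ip (f * σ) (f * σ)))⁻¹) →
  ∀ r : ℕ, 1 ≤ r → ∀ n : ℕ,
    ∑ k ∈ Icc 1 n, √(ip ((σ ^ r * ν) ^ k) ((σ ^ r * ν) ^ k)) ≤ 2 / (c₂ * r) ^ 2

/-- Leaf ZERO (uniform in `σ`).
Proof. `s_u = √(ip (σ^u) (σ^u))`, `s_u²` is nonincreasing, nonnegative, at most `1`, so some `j ≤ u`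
has `D_j = s_j² - s_{j+1}² ≤ 1/(u+1)`. `PP` with `f = σ^j`: `s_u ≤ s_j ≤ n √(2/(c(u+1))) + 1/√|W|`. -/
def S_ZERO : Prop := ∀ (G : Type) [Group G] (A : Finset G) (c : ℝ), 0 < c →
  (∀ N : ℕ, ∃ (n : ℕ) (W : Finset G), InPow A n W ∧ N ≤ W.card) →
  ∀ ε : ℝ, 0 < ε → ∃ U : ℕ, ∀ σ : MonoidAlgebra ℝ G, IsProb σ → Sym σ →
    (∀ a ∈ A, c ≤ (σ * σ).coeff a) → ∀ u ≥ U, ip (σ ^ u) (σ ^ u) ≤ ε

/-- Leaf ZB (uniform in `σ`). (May use `S_ZERO` as a hypothesis: `theorem zb (h : S_ZERO) : S_ZB`.)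
Proof. Let `τ = mapDomain φ' σ` on `Multiplicative ℤ` (`φ'` the homomorphism given by `φ`), a
symmetric probability; `A' = {1, φ'(a)}`: `(τ*τ)(φ'(a)) ≥ (σ*σ)(a) ≥ c`, same at `1`.
`InPow A' n {φ'(a)^k : k ≤ n}`, which has `n+1` elements. `ZERO` gives `ip (τ^u) (τ^u) ≤ ε`, so
`P(|φ(Y_u)| ≤ B) ≤ (2B+1) √(ip (τ^u) (τ^u)) ≤ 1/2` for `u ≥ U`; by symmetry of `σ^u` (`Sym.pow` in
`Basic.lean`), `P(φ > B) = P(φ < -B) = (1 - P(|φ| ≤ B))/2 ≥ 1/4`. -/
def S_ZB : Prop := ∀ (G : Type) [Group G] (φ : G → ℤ), (∀ x y, φ (x * y) = φ x + φ y) →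
  ∀ (a : G) (c : ℝ), 0 < c → φ a ≠ 0 → ∀ B : ℤ, 0 ≤ B → ∃ U : ℕ,
    ∀ σ : MonoidAlgebra ℝ G, IsProb σ → Sym σ → c ≤ (σ * σ).coeff 1 → c ≤ (σ * σ).coeff a →
    ∀ u ≥ U, 1 / 4 ≤ mass (cut φ B (σ ^ u))

/-- Leaf A1 (second moment, abstract Green function `g`).
Proof. `P = infinitePi (fun _ => m)`. `Np F ℓ ω n x` depends only on the coordinates `z` with
`φ x ≤ φ z` (if `n ≥ 1`: on `ω x` and on coordinates with `φ z > φ x`), is bounded, nonnegative and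
measurable. `E[N n x] = 1` by induction (independence of `ω x` and the rest).
Claim: `E[N n x * N n' y] ≤ 1 + b g n n' x y` and, if `x = y`, `≤ b`, where `b = max 1 (K/(1-Δ))`;
induction on `n + n'`. If `n = 0` or `n' = 0` the left side is `1`. If `x ≠ y`, say `φ x ≤ φ y`,
expand `N n x` at `x`: `ω x` is independent of `N (n-1) (x g) * N n' y`, so the left side is
`∑ μ(g) E[N (n-1) (xg) * N n' y] ≤ 1 + b ∑ μ(g) g (n-1) n' (xg) y ≤ 1 + b g n n' x y`. If `x = y`: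
`E = ∑∑ κ(g,g') E[N (n-1) (xg) N (n'-1) (xg')] ≤ K + b Δ ≤ b ≤ 1 + b g n n' x x`.
Independence: e.g. `iIndepFun_infinitePi`, `indep_iSup_of_disjoint` / `iIndepFun.indepFun_finset`,
`IndepFun.integral_mul_eq_mul_integral`. -/
def S_A1 : Prop := ∀ (G : Type) [Group G] (φ : G → ℤ) (E : Type) [MeasurableSpace E]
  (m : Measure E) [IsProbabilityMeasure m] (F : Finset G) (ℓ : E → G → ℝ) (μ : G → ℝ)
  (g : ℕ → ℕ → G → G → ℝ) (Δ Λ K : ℝ),
  (∀ x y, φ (x * y) = φ x + φ y) → (∀ h ∈ F, 1 ≤ φ h) →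
  (∀ h, Measurable fun e => ℓ e h) → (∀ e h, 0 ≤ ℓ e h) → (∀ e h, ℓ e h ≤ Λ) →
  (∀ h ∈ F, ∫ e, ℓ e h ∂m = μ h) → ∑ h ∈ F, μ h = 1 →
  (∑ h ∈ F, ∑ h' ∈ F, ∫ e, ℓ e h * ℓ e h' ∂m) ≤ K → Δ < 1 →
  (∀ n n' x y, 0 ≤ g n n' x y) → (∀ n n' x, 1 ≤ g n n' x x) →
  (∀ n n' x y, x ≠ y → φ x ≤ φ y → ∑ h ∈ F, μ h * g n n' (x * h) y ≤ g (n + 1) n' x y) →
  (∀ n n' x y, x ≠ y → φ y ≤ φ x → ∑ h ∈ F, μ h * g n n' x (y * h) ≤ g n (n' + 1) x y) →
  (∀ n n' x, ∑ h ∈ F, ∑ h' ∈ F, (∫ e, ℓ e h * ℓ e h' ∂m) * g n n' (x * h) (x * h') ≤ Δ) →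
  ∀ n, ∫ ω, Np F ℓ ω n 1 ∂(Measure.infinitePi fun _ : G => m) = 1 ∧
    ∫ ω, (Np F ℓ ω n 1) ^ 2 ∂(Measure.infinitePi fun _ : G => m) ≤ max 1 (K / (1 - Δ))

/-- Leaf A2 (the Green function `Gr μ` has the properties wanted in `A1`).
Proof. `Gr` is a sum of nonnegative terms, the term `i = j = 0` is `1` if `x = y`, else `0`.
Recursion: `single x 1 * μ^(i+1) = ∑ h ∈ F, μ h • (single (x*h) 1 * μ^i)`; the terms with `i = 0` of
`Gr (n+1) n' x y` are `(μ^j)(y⁻¹x)`, which vanish if `φ x ≤ φ y` and `x ≠ y`, because `μ^j` lives on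
`{φ ≥ j}` and `μ^0 = single 1 1`. Bound: Cauchy-Schwarz `ip f h ≤ √(ip f f) √(ip h h)`; left
translation is isometric; the terms `(0, j)`, `(i, 0)`, `(i, j)` give `T`, `T`, `T²`. -/
def S_A2 : Prop := ∀ (G : Type) [Group G] (φ : G → ℤ) (μ : MonoidAlgebra ℝ G) (T : ℝ),
  (∀ x y, φ (x * y) = φ x + φ y) → IsProb μ → (∀ h ∈ μ.coeff.support, 1 ≤ φ h) →
  (∀ n, ∑ k ∈ Icc 1 n, √(ip (μ ^ k) (μ ^ k)) ≤ T) →
  (∀ n n' x y, 0 ≤ Gr μ n n' x y) ∧ (∀ n n' x, 1 ≤ Gr μ n n' x x) ∧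
  (∀ n n' x y, x ≠ y → φ x ≤ φ y →
    ∑ h ∈ μ.coeff.support, μ.coeff h * Gr μ n n' (x * h) y ≤ Gr μ (n + 1) n' x y) ∧
  (∀ n n' x y, x ≠ y → φ y ≤ φ x →
    ∑ h ∈ μ.coeff.support, μ.coeff h * Gr μ n n' x (y * h) ≤ Gr μ n (n' + 1) x y) ∧
  (∀ n n' x y, (x = y → Gr μ n n' x y ≤ 1 + 2 * T + T ^ 2) ∧
    (x ≠ y → Gr μ n n' x y ≤ 2 * T + T ^ 2))

/-- Leaf A3 (second moment method and compactness).
Proof. By Cauchy-Schwarz `1 = E[N 1_{N>0}]² ≤ E[N²] P(N>0)`, so `P(Np n 1 > 0) ≥ 1/b`. The events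
decrease in `n` (induction: `0 < Np (n+1) x → 0 < Np n x`), so their intersection has probability
`≥ 1/b`. On it, for every `n` there is an open path of `n` steps from `1` (induction), whose end has
`φ ≥ n`; so the set of reachable points is infinite. (The final set need not be measurable: the
inequality is monotonicity of the outer measure.) -/
def S_A3 : Prop := ∀ (G : Type) [Group G] (φ : G → ℤ) (E : Type) [MeasurableSpace E]
  (m : Measure E) [IsProbabilityMeasure m] (F : Finset G) (ℓ : E → G → ℝ) (Λ b : ℝ),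
  (∀ x y, φ (x * y) = φ x + φ y) → (∀ h ∈ F, 1 ≤ φ h) →
  (∀ h, Measurable fun e => ℓ e h) → (∀ e h, 0 ≤ ℓ e h) → (∀ e h, ℓ e h ≤ Λ) → 0 < b →
  (∀ n, ∫ ω, Np F ℓ ω n 1 ∂(Measure.infinitePi fun _ : G => m) = 1 ∧
    ∫ ω, (Np F ℓ ω n 1) ^ 2 ∂(Measure.infinitePi fun _ : G => m) ≤ b) →
  ENNReal.ofReal (1 / b) ≤ (Measure.infinitePi fun _ : G => m)
    {ω | {y | Relation.ReflTransGen (fun x y => ∃ h ∈ F, 0 < ℓ (ω x) h ∧ y = x * h) 1 y}.Infinite}

/-- Leaf ST (law of the walk). `Q = stepsLaw S`, `σ = unif S`.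
Proof. For `r ≤ s`: `Q{disp w 0 r = g, (disp w 0 r)⁻¹ * disp w 0 s = h} = (σ^r).coeff g *
(σ^(s-r)).coeff h` (the steps are independent with `uniformOn S {a} = σ.coeff a`; induction on `s`,
or sum over words). (1) is measurability and `0 ≤ Rc`, `∑_{g ∈ F} Rc ≤ M` (each `u` contributes to
one `g`). (2): `∫ Rc … g = ∑_u ∑_{h : B < φ h} (σ^r)(g h⁻¹) (σ^(U+u))(h)`. (3): `∑_{g∈F} Rc² ≤
#{(u,u') : disp w 0 (r+U+u) = disp w 0 (r+U+u')}`, whose expectation is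
`∑_{u,u'} (σ^|u-u'|)(1) ≤ M (1 + 2 ∑_{1≤j<M} (σ^j)(1))`. -/
def S_ST : Prop := ∀ (G : Type) [Group G] [Countable G] [MeasurableSpace G]
  [DiscreteMeasurableSpace G] (S : Finset G) (φ : G → ℤ) (r U M : ℕ) (B : ℤ), S.Nonempty →
  (∀ x y, φ (x * y) = φ x + φ y) →
  ((∀ g, Measurable fun w => Rc φ r U M B w g) ∧ (∀ w g, 0 ≤ Rc φ r U M B w g) ∧
    (∀ w (F : Finset G), ∑ g ∈ F, Rc φ r U M B w g ≤ M)) ∧
  (∀ g, ∫ w, Rc φ r U M B w g ∂(stepsLaw S) =
    (unif S ^ r * ∑ u ∈ range M, cut φ B (unif S ^ (U + u))).coeff g) ∧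
  (∀ F : Finset G, ∑ g ∈ F, ∫ w, (Rc φ r U M B w g) ^ 2 ∂(stepsLaw S) ≤
    M * (1 + 2 * ∑ j ∈ Ico 1 M, (unif S ^ j).coeff 1))

/-- Leaf P0. Proof. `poissonMeasure lam {0} = exp (-lam)`; the sets `{c | ∑ … ≤ t}` increase to
everything as `t → ∞`, so their probability tends to `1 ≥ 1/2`. -/
def S_P0 : Prop := ∀ (lam : ℝ≥0) (k : ℕ), 0 < lam → ∃ t₀ : ℝ, ∀ t ≥ t₀,
  (1 - Real.exp (-lam)) / 2 ≤ (poissonMeasure lam).real {n | 1 ≤ n} *
    clockLaw.real {c | ∑ j ∈ range k, c (0, j) ≤ t}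

end

end K9h87.FD
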