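import Pool.Agent.K9h87.FD.Stm

set_option autoImplicit false

/-!
# Frog model with death: groups with a finite index subgroup that has a homomorphism onto ℤ

Second part of the project FD (MP_e2f79e_pr): the walk is watched at its returns to the subgroup `H`.
Leaf `X` is proved in `Pool/Agent/K9h87/FD/X.lean` as `theorem x : S_X`.
-/

open MeasureTheory ProbabilityTheory Finset Filter Topology
open scoped NNReal ENNReal

namespace K9h87.FD

noncomputable section

/-- The ball of radius `n` of the Cayley graph. -/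
def ball {G : Type} [Group G] (S : Finset G) (n : ℕ) : Set G :=
  {x | ∃ l : List G, l.length ≤ n ∧ (∀ a ∈ l, a ∈ S) ∧ l.prod = x}

/-- Words of length `n` over the alphabet `S`. -/
def words {α : Type} (S : Finset α) : ℕ → Finset (List α)
  | 0 => {[]}
  | n + 1 => open Classical in (S ×ˢ words S n).image fun p => p.1 :: p.2

/-- First return words to `H`. -/
def IsRet {G : Type} [Group G] (H : Subgroup G) (v : List G) : Prop :=
  v ≠ [] ∧ v.prod ∈ H ∧ ∀ k, 1 ≤ k → k < v.length → (v.take k).prod ∉ H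

/-- First return words of length at most `L` over `S`. -/
def ret {G : Type} [Group G] (S : Finset G) (H : Subgroup G) (L : ℕ) : Finset (List G) :=
  open Classical in (range (L + 1)).biUnion fun n => (words S n).filter (IsRet H)

/-- The value of a word in `H`. -/
def val {G : Type} [Group G] (H : Subgroup G) (v : List G) : H :=
  open Classical in if h : v.prod ∈ H then ⟨v.prod, h⟩ else 1

/-- The law of the value of the codeword with which a uniform random path starts
(`c = 1 / number of letters`); its mass is the probability that there is such a codeword. -/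
def codeM {G K : Type} (c : ℝ) (val : List G → K) (C : Finset (List G)) : MonoidAlgebra ℝ K :=
  ∑ v ∈ C, MonoidAlgebra.single (val v) (c ^ v.length)

/-- The path `w (0, 0), w (0, 1), …` starts with the word `v`. -/
def Starts {G : Type} (w : ℕ × ℕ → G) (v : List G) : Prop :=
  (List.range v.length).map (fun j => w (0, j)) = v

/-- The path starts with `r` words of `C₁` followed by `U + u` words of `C₂` (`u < M`); count those
`u` for which the total value is `h` and the value of the second part has height more than `B`. -/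
def Rw {G K : Type} [Group K] (val : List G → K) (φ : K → ℤ) (C₁ C₂ : Finset (List G))
    (r U M : ℕ) (B : ℤ) (w : ℕ × ℕ → G) (h : K) : ℝ :=
  open Classical in ∑ u ∈ range M, ∑ a ∈ words C₁ r, ∑ b ∈ words C₂ (U + u),
    if Starts w (a.flatten ++ b.flatten) ∧ (a.map val).prod * (b.map val).prod = h ∧
      B < φ (b.map val).prod then 1 else 0

/-! ## Leaves -/

/-- Leaf STC (walk read through prefix codes; generalises ST). `c = 1/|S|`, `Q = stepsLaw S`.
Proof. `Q {Starts w v} = c ^ v.length` for a word `v` over `S` (`infinitePi_pi`, `uniformOn`).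
`(codeM c val C)^n = ∑ a ∈ words C n, single (a.map val).prod (c ^ a.flatten.length)` (induction).
(2) follows by linearity. Uniqueness: if `C₁`, `C₂` are prefix free then for every `w` there is at
most one `a ∈ words C₁ r` and for it at most one `b ∈ words C₂ n` with `Starts w (a.flatten ++
b.flatten)`, and for `n ≤ n'` the parse for `n'` extends that for `n` (take the first `n` codewords).
(1): so for each `u` at most one `(a, b)` and one `h` count. (3): `∑_{h ∈ F} Rw² ≤` number of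
`(u, u')` whose parses exist and have equal values; for `u < u'` equality forces the product of
the values of the last `u' - u` codewords to be `1`, which has probability at most
`mass(codeM C₁)^r mass(codeM C₂)^(U+u) (codeM C₂ ^ (u'-u)).coeff 1 ≤ (codeM C₂ ^ (u'-u)).coeff 1`
(the masses are `≤ 1`: probabilities of disjoint events). -/
def S_STC : Prop := ∀ (G : Type) [Countable G] [MeasurableSpace G]
  [DiscreteMeasurableSpace G] (S : Finset G) (K : Type) [Group K] (val : List G → K) (φ : K → ℤ)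
  (C₁ C₂ : Finset (List G)) (r U M : ℕ) (B : ℤ), S.Nonempty →
  (∀ v ∈ C₁, v ≠ [] ∧ ∀ a ∈ v, a ∈ S) → (∀ v ∈ C₂, v ≠ [] ∧ ∀ a ∈ v, a ∈ S) →
  (∀ v ∈ C₁, ∀ v' ∈ C₁, v <+: v' → v = v') → (∀ v ∈ C₂, ∀ v' ∈ C₂, v <+: v' → v = v') →
  ((∀ h, Measurable fun w => Rw val φ C₁ C₂ r U M B w h) ∧
    (∀ w h, 0 ≤ Rw val φ C₁ C₂ r U M B w h) ∧
    (∀ w (F : Finset K), ∑ h ∈ F, Rw val φ C₁ C₂ r U M B w h ≤ M)) ∧
  (∀ h, ∫ w, Rw val φ C₁ C₂ r U M B w h ∂(stepsLaw S) =
    (codeM (S.card : ℝ)⁻¹ val C₁ ^ r *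
      ∑ u ∈ range M, cut φ B (codeM (S.card : ℝ)⁻¹ val C₂ ^ (U + u))).coeff h) ∧
  (∀ F : Finset K, ∑ h ∈ F, ∫ w, (Rw val φ C₁ C₂ r U M B w h) ^ 2 ∂(stepsLaw S) ≤
    M * (1 + 2 * ∑ j ∈ Ico 1 M, (codeM (S.card : ℝ)⁻¹ val C₂ ^ j).coeff 1))

/-- Leaf MASS (the walk returns to a subgroup of finite index).
Proof. Let `f n x = |S|⁻ⁿ #{v ∈ words S n : ∀ 1 ≤ k ≤ n, x * (v.take k).prod ∉ H}`. (i) `∑_{v ∈ ret S
H L} |S|^(-|v|) = 1 - f L 1` (a word of length `L` is bad or has exactly one prefix in `ret`; or by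
induction with a general start `x`). (ii) `f (n+m) x ≤ f n x * sup_y f m y`. (iii) there is `d` with
`f d y ≤ 1 - |S|^(-d)` for all `y` (finitely many cosets `H y`; from each some word over `S` leads
into `H`, `S` being symmetric and generating). So `f (j d) 1 ≤ (1 - |S|^(-d))^j → 0`. -/
def S_MASS : Prop := ∀ (G : Type) [Group G] (S : Finset G) (H : Subgroup G), H.FiniteIndex →
  S.Nonempty → (∀ s ∈ S, s⁻¹ ∈ S) → Subgroup.closure (S : Set G) = ⊤ →
  Tendsto (fun L => ∑ v ∈ ret S H L, ((S.card : ℝ)⁻¹) ^ v.length) atTop (𝓝 1)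

/-- Leaf SYMR. Proof. `v ↦ (v.map (·⁻¹)).reverse` is an involution of `ret S H L` preserving the
length and inverting the value: proper prefixes of the reversed word have product in `H` iff the
complementary proper prefixes of `v` have. -/
def S_SYMR : Prop := ∀ (G : Type) [Group G] (S : Finset G) (H : Subgroup G) (c : ℝ) (L : ℕ),
  (∀ s ∈ S, s⁻¹ ∈ S) → Sym (codeM c (val H) (ret S H L))

/-- Leaf GRA (Schreier). Proof. For `x : G` choose a word `u x` over `S` of length `≤ d`, depending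
only on the coset `H x`, with `x * (u x).prod ∈ H`, `u x = []` for `x ∈ H`. If `h = s₁ … sₙ ∈ H`, `xᵢ
= s₁ … sᵢ`, then `h = ∏ᵢ (u xᵢ₋₁).prod⁻¹ sᵢ (u xᵢ).prod`, each factor being in `H` and the value of a
nonempty word over `S` of length `≤ 2d+1 =: D`; each nonempty word with value in `H` is a
concatenation of first return words (of no larger length), at most its length many. So `h` is the
product of at most `(2d+1) n` values of words of `ret S H D` (take `d ≥ 1`). Third part:
`x ↦ x * (u x).prod` maps `ball S n` to `H ∩ ball S (n+d)`, at most (number of words `u x`) to one.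
`ret S H D` is nonempty because `s s⁻¹` contains a first return word. -/
def S_GRA : Prop := ∀ (G : Type) [Group G] (S : Finset G) (H : Subgroup G), H.FiniteIndex →
  S.Nonempty → (∀ s ∈ S, s⁻¹ ∈ S) → Subgroup.closure (S : Set G) = ⊤ →
  ∃ D : ℕ, 1 ≤ D ∧
    (∀ (n : ℕ) (h : H), (h : G) ∈ ball S n → ∃ l : List (List G), l.length ≤ D * n ∧
      (∀ v ∈ l, v ∈ ret S H D) ∧ (l.map (val H)).prod = h) ∧
    (ret S H D).Nonempty ∧
    ∃ d k : ℕ, 1 ≤ k ∧ ∀ n : ℕ,
      (ball S n).ncard ≤ k * ({h : H | (h : G) ∈ ball S (n + d)} : Set H).ncard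

/-- Leaf GRB (from GRA; prove `theorem grb (h : S_GRA) : S_GRB`).
Proof. `R₀ = {val H v : v ∈ ret S H D}` is closed under inversion (reverse words), `A = {ρ ρ'}`
`∋ 1`. Some `h` has `φ h ≠ 0`; it lies in some ball, so some `ρ ∈ R₀` has `φ ρ ≠ 0`; `a = ρ ρ`. Fix
`ρ₀ ∈ R₀`. For `h ∈ H ∩ ball S m`, a product of `q ≤ D m` elements of `R₀`: `h` (`q` even) or `h ρ₀`
(`q` odd) is a product of `N` elements of `A` for each `N ≥ (D m + 1)/2`; so some `W` with
`InPow A N W` has `2 |W| ≥ |H ∩ ball S m|`. With `m = n + d`, `D' = D (1 + d) + 1`, `n = N / D'`: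
`|W| ≥ |ball S n| / (2k) ≥ c (N/(2D'))^8/(2k)` if `N ≥ D'`; for `N < D'` take `W = {1}`. -/
def S_GRB : Prop := ∀ (G : Type) [Group G] (S : Finset G) (H : Subgroup G), H.FiniteIndex →
  S.Nonempty → (∀ s ∈ S, s⁻¹ ∈ S) → Subgroup.closure (S : Set G) = ⊤ →
  ∀ φ : H → ℤ, (∀ x y, φ (x * y) = φ x + φ y) → (∃ h, φ h ≠ 0) →
  ∀ c : ℝ, 0 < c → (∀ n : ℕ, 1 ≤ n → c * (n : ℝ) ^ 8 ≤ (ball S n).ncard) →
  ∃ (L : ℕ) (A : Finset H) (a : H) (c' : ℝ), 1 ∈ A ∧ a ∈ A ∧ φ a ≠ 0 ∧ 0 < c' ∧
    (∀ x ∈ A, ∃ v ∈ ret S H L, ∃ v' ∈ ret S H L, x = val H v * val H v') ∧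
    ∀ n : ℕ, 1 ≤ n → ∃ W : Finset H, InPow A n W ∧ c' * (n : ℝ) ^ 8 ≤ W.card

/-- Leaf CES (uniform Cesàro; prove `theorem ces (h : S_ZERO) : S_CES`; `zero : S_ZERO` is landed in
`FD/Zero.lean`). Proof. `(σ^j).coeff 1 ≤ √(ip (σ^j) (σ^j)) ≤ ε/4` for `j ≥ U`, and `≤ 1` always. -/
def S_CES : Prop := ∀ (G : Type) [Group G] (A : Finset G) (c : ℝ), 0 < c →
  (∀ N : ℕ, ∃ (n : ℕ) (W : Finset G), InPow A n W ∧ N ≤ W.card) →
  ∀ ε : ℝ, 0 < ε → ∃ M₀ : ℕ, ∀ σ : MonoidAlgebra ℝ G, IsProb σ → Sym σ →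
    (∀ a ∈ A, c ≤ (σ * σ).coeff a) → ∀ M ≥ M₀,
    1 + 2 * ∑ j ∈ Ico 1 M, (σ ^ j).coeff 1 ≤ ε * M

/-- Leaf PQ (variant of P0 with all partial sums). Proof as P0: the sets `{c | ∀ s ≤ k, ∑_{j<s} c (0,
j) ≤ t}` increase to everything as `t → ∞`. -/
def S_PQ : Prop := ∀ (lam : ℝ≥0) (k : ℕ), 0 < lam → ∃ t₀ : ℝ, ∀ t ≥ t₀,
  (1 - Real.exp (-lam)) / 2 ≤ (poissonMeasure lam).real {n | 1 ≤ n} *
    clockLaw.real {c | ∀ s ≤ k, ∑ j ∈ range s, c (0, j) ≤ t}

end

end K9h87.FD
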